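import Pool.Agent.H47N.Stm3

set_option autoImplicit false

namespace Pool.Agent.H47N

namespace ARAx

theorem pow_of_dvd (m n : ℕ) (hm : m ≠ 0) (h : ∀ l : ℕ, l.Prime → n ∣ m.factorization l) :
    ∃ a : ℕ, m = a ^ n := by
  refine ⟨m.factorization.prod fun p e => p ^ (e / n), ?_⟩
  rw [Finsupp.prod, ← Finset.prod_pow]
  conv_lhs => rw [← Nat.prod_factorization_pow_eq_self hm]
  rw [Finsupp.prod]
  refine Finset.prod_congr rfl fun p hp => ?_
  have hp' : p.Prime := Nat.prime_of_mem_primeFactors (by rwa [← Nat.support_factorization])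
  rw [← pow_mul, Nat.div_mul_cancel (h p hp')]

theorem pow_three (M : ℤ) (n : ℕ) (hn : Odd n) (hM : M ≠ 0)
    (h : ∀ l : ℕ, l.Prime → l ≠ 3 → n ∣ M.natAbs.factorization l) :
    ∃ (b : ℤ) (j : ℕ), M = 3 ^ j * b ^ n ∧ ¬ (3 : ℤ) ∣ b := by
  have hM' : M.natAbs ≠ 0 := Int.natAbs_ne_zero.2 hM
  obtain ⟨j, m', h3, hm⟩ := Nat.exists_eq_pow_mul_and_not_dvd hM' 3 (by norm_num)
  have hm0 : m' ≠ 0 := by
    rintro rfl
    exact h3 (dvd_zero _)
  have hn0 : n ≠ 0 := by
    rintro rfl
    simp at hn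
  obtain ⟨b, hb⟩ := pow_of_dvd m' n hm0 (by
    intro l hl
    by_cases hl3 : l = 3
    · rw [hl3, Nat.factorization_eq_zero_of_not_dvd h3]
      exact dvd_zero _
    · have h1 := h l hl hl3
      rw [hm, Nat.factorization_mul (pow_ne_zero _ (by norm_num)) hm0, Finsupp.add_apply,
        Nat.factorization_eq_zero_of_not_dvd (n := 3 ^ j), zero_add] at h1
      · exact h1
      · intro h2
        have h4 := hl.dvd_of_dvd_pow h2
        exact hl3 ((Nat.prime_dvd_prime_iff_eq hl Nat.prime_three).1 h4))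
  have hb3 : ¬ (3 : ℤ) ∣ (b : ℤ) := by
    intro h4
    have h5 : 3 ∣ b := by exact_mod_cast h4
    exact h3 (hb ▸ dvd_pow h5 hn0)
  rcases Int.natAbs_eq M with h4 | h4
  · refine ⟨b, j, ?_, hb3⟩
    rw [h4, hm, hb]
    push_cast
    ring
  · refine ⟨-b, j, ?_, fun h5 => hb3 ((dvd_neg).1 h5)⟩
    rw [h4, hm, hb, hn.neg_pow]
    push_cast
    ring

theorem val_int (l : ℕ) (hl : l.Prime) (M : ℤ) :
    padicValRat l (M : ℚ) = (M.natAbs.factorization l : ℤ) := by
  rw [padicValRat.of_int, padicValInt, Nat.factorization_def _ hl]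

end ARAx

theorem t_ARA : S_ARA := by
  intro n hn A B C hA hB hC hcop h3A u v j₁ j₂ h1 h2
  have hAq : (A : ℚ) ≠ 0 := by exact_mod_cast hA
  have hBq : (B : ℚ) ≠ 0 := by exact_mod_cast hB
  have hCq : (C : ℚ) ≠ 0 := by exact_mod_cast hC
  have hn0 : n ≠ 0 := by
    rintro rfl
    simp at hn
  have hu : u ≠ 0 := by
    rintro rfl
    rw [zero_pow (by omega), zero_mul, mul_zero] at h1
    exact pow_ne_zero 3 hBq h1
  have hv : v ≠ 0 := by
    rintro rfl
    rw [zero_pow (by omega), zero_mul, mul_zero] at h2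
    exact pow_ne_zero 3 hAq h2
  have key : ∀ l : ℕ, l.Prime → l ≠ 3 → n ∣ A.natAbs.factorization l ∧ n ∣ B.natAbs.factorization l ∧
      n ∣ C.natAbs.factorization l := by
    intro l hl hl3
    have : Fact l.Prime := ⟨hl⟩
    have v3 : padicValRat l (3 : ℚ) = 0 := by
      have h5 : padicValRat l ((3 : ℕ) : ℚ) = 0 := by
        rw [padicValRat.of_nat, padicValNat.eq_zero_of_not_dvd]
        · rfl
        · intro h6
          exact hl3 ((Nat.prime_dvd_prime_iff_eq hl Nat.prime_three).1 h6)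
      exact_mod_cast h5
    have h30 : (3 : ℚ) ≠ 0 := by norm_num
    have e1 := congrArg (padicValRat l) h1
    have e2 := congrArg (padicValRat l) h2
    have h9 : (9 : ℚ) = 3 ^ 2 := by norm_num
    rw [padicValRat.pow (B : ℚ), padicValRat.mul (mul_ne_zero h30 (pow_ne_zero _ hCq))
      (mul_ne_zero (pow_ne_zero _ hu) (zpow_ne_zero _ h30)), padicValRat.mul h30 (pow_ne_zero _ hCq),
      padicValRat.mul (pow_ne_zero _ hu) (zpow_ne_zero _ h30), padicValRat.pow (C : ℚ),
      padicValRat.pow u, padicValRat.zpow (3 : ℚ), v3, ARAx.val_int l hl, ARAx.val_int l hl] at e1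
    rw [h9, padicValRat.pow (A : ℚ), padicValRat.mul (mul_ne_zero (pow_ne_zero _ h30) (pow_ne_zero _ hCq))
      (mul_ne_zero (pow_ne_zero _ hv) (zpow_ne_zero _ h30)), padicValRat.mul (pow_ne_zero _ h30)
      (pow_ne_zero _ hCq),
      padicValRat.mul (pow_ne_zero _ hv) (zpow_ne_zero _ h30), padicValRat.pow (C : ℚ),
      padicValRat.pow v, padicValRat.zpow (3 : ℚ), padicValRat.pow (3 : ℚ), v3, ARAx.val_int l hl,
      ARAx.val_int l hl] at e2
    have f1 : (B.natAbs.factorization l : ℤ) = C.natAbs.factorization l + n * padicValRat l u := by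
      push_cast at e1
      linarith
    have f2 : (A.natAbs.factorization l : ℤ) = C.natAbs.factorization l + n * padicValRat l v := by
      push_cast at e2
      linarith
    have hz : ∀ M : ℤ, ¬ (l : ℤ) ∣ M → M.natAbs.factorization l = 0 := by
      intro M hM
      apply Nat.factorization_eq_zero_of_not_dvd
      intro h6
      exact hM (Int.natCast_dvd.2 h6)
    have hC' : (n : ℤ) ∣ C.natAbs.factorization l := by
      have := hcop l hl
      by_cases a1 : (l : ℤ) ∣ A
      · by_cases a2 : (l : ℤ) ∣ B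
        · have a3 : ¬ (l : ℤ) ∣ C := fun a3 => this ⟨a1, a2, a3⟩
          rw [hz C a3]
          simp
        · rw [hz B a2] at f1
          exact ⟨-padicValRat l u, by push_cast at f1; linarith⟩
      · rw [hz A a1] at f2
        exact ⟨-padicValRat l v, by push_cast at f2; linarith⟩
    have hB' : (n : ℤ) ∣ B.natAbs.factorization l := by
      rw [f1]
      exact dvd_add hC' (Dvd.intro _ rfl)
    have hA' : (n : ℤ) ∣ A.natAbs.factorization l := by
      rw [f2]
      exact dvd_add hC' (Dvd.intro _ rfl)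
    exact ⟨by exact_mod_cast hA', by exact_mod_cast hB', by exact_mod_cast hC'⟩
  obtain ⟨a, i, ha, ha3⟩ := ARAx.pow_three A n hn hA fun l hl h => (key l hl h).1
  obtain ⟨b, j, hb, hb3⟩ := ARAx.pow_three B n hn hB fun l hl h => (key l hl h).2.1
  obtain ⟨c, k, hc, hc3⟩ := ARAx.pow_three C n hn hC fun l hl h => (key l hl h).2.2
  refine ⟨a, b, c, j, k, ?_, hb, hc, hb3, hc3⟩
  rcases i with _ | i
  · rw [ha, pow_zero, one_mul]
  · exact absurd (ha ▸ (dvd_mul_of_dvd_left (dvd_pow_self _ (by omega)) _)) h3A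

end Pool.Agent.H47N
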