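import Pool.Agent.H47N.Stm3

/-!
# Project NS3, piece ARB: the quadratic forms are `n`-th powers
-/

set_option autoImplicit false

namespace Pool.Agent.H47N

namespace ARBx

/-- an integer prime to `3` which is `3 ^ e r ^ n` -/
theorem key {n : ℕ} (hn : 0 < n) (Q : ℤ) (hQ : ¬ (3 : ℤ) ∣ Q) (r : ℚ) (hr : r ≠ 0) (e : ℤ)
    (h : (Q : ℚ) = (3 : ℚ) ^ e * r ^ n) : (n : ℤ) ∣ e ∧ ∃ q : ℤ, Q = q ^ n := by
  haveI : Fact (Nat.Prime 3) := ⟨Nat.prime_three⟩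
  have h3 : (3 : ℚ) ≠ 0 := by norm_num
  have h1 : padicValRat 3 (Q : ℚ) = 0 := by
    rw [padicValRat.of_int, padicValInt.eq_zero_of_not_dvd (by exact_mod_cast hQ)]
    rfl
  have h33 : padicValRat 3 (3 : ℚ) = 1 := by
    have := padicValRat.self (p := 3) (by norm_num)
    exact_mod_cast this
  have h2 : padicValRat 3 ((3 : ℚ) ^ e * r ^ n) = e + n * padicValRat 3 r := by
    rw [padicValRat.mul (zpow_ne_zero _ h3) (pow_ne_zero _ hr), padicValRat.zpow, padicValRat.pow, h33]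
    ring
  rw [h, h2] at h1
  have h4 : e = n * (-padicValRat 3 r) := by linarith
  refine ⟨⟨_, h4⟩, ?_⟩
  set s : ℤ := -padicValRat 3 r with hs
  have h5 : ((3 : ℚ) ^ s * r) ^ n = Q := by
    rw [h, h4, mul_pow, ← zpow_natCast ((3 : ℚ) ^ s) n, ← zpow_mul, mul_comm s (n : ℤ)]
  have h6 : IsIntegral ℤ ((3 : ℚ) ^ s * r) := by
    apply IsIntegral.of_pow hn
    rw [h5]
    exact isIntegral_algebraMap (R := ℤ) (A := ℚ) (x := Q)
  obtain ⟨q, hq⟩ := IsIntegrallyClosed.isIntegral_iff.mp h6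
  refine ⟨q, ?_⟩
  have h7 : ((q : ℚ)) ^ n = Q := by
    rw [← h5, ← hq]
    rfl
  exact_mod_cast h7.symm

end ARBx

open ARBx in
theorem t_ARB : S_ARB := by
  intro n hn h3n A B C a b c j k hA hB hC hAa hBb hCc h3A h3b h3c x y z w NS j₃ hx hy hz hw hNS h1 h2 h3 h4
  have hn0 : 0 < n := by omega
  have t0 : (3 : ℚ) ≠ 0 := by norm_num
  have hA' : (A : ℚ) ≠ 0 := by exact_mod_cast hA
  have hB' : (B : ℚ) ≠ 0 := by exact_mod_cast hB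
  have hC' : (C : ℚ) ≠ 0 := by exact_mod_cast hC
  have ha : (a : ℚ) ≠ 0 := by
    intro h
    apply hA'
    rw [hAa]
    push_cast
    rw [h, zero_pow hn0.ne']
  have hb : (b : ℚ) ≠ 0 := by
    intro h
    apply hB'
    rw [hBb]
    push_cast
    rw [h, zero_pow hn0.ne', mul_zero]
  have hc : (c : ℚ) ≠ 0 := by
    intro h
    apply hC'
    rw [hCc]
    push_cast
    rw [h, zero_pow hn0.ne', mul_zero]
  have qA : (A : ℚ) = (a : ℚ) ^ n := by exact_mod_cast congrArg (Int.cast : ℤ → ℚ) hAa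
  have qB : (B : ℚ) = (3 : ℚ) ^ j * (b : ℚ) ^ n := by
    rw [hBb]
    push_cast
    ring
  have qC : (C : ℚ) = (3 : ℚ) ^ k * (c : ℚ) ^ n := by
    rw [hCc]
    push_cast
    ring
  have hP : (3 : ℚ) ^ j₃ ≠ 0 := zpow_ne_zero _ t0
  have hW : w ^ n ≠ 0 := pow_ne_zero _ hw
  have hAn : (a : ℚ) ^ n ≠ 0 := pow_ne_zero _ ha
  have hBn : (b : ℚ) ^ n ≠ 0 := pow_ne_zero _ hb
  -- Q_Z
  set QZ : ℤ := A ^ 2 + 3 * A * (B + C) + 3 * (B + C) ^ 2 with hQZ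
  set QX : ℤ := (A + 3 * C) ^ 2 + 3 * B * (A + 3 * C) + 3 * B ^ 2 with hQX
  have cZ : (QZ : ℚ) = (A : ℚ) ^ 2 + 3 * A * (B + C) + 3 * (B + C) ^ 2 := by
    rw [hQZ]
    push_cast
    ring
  have cX : (QX : ℚ) = ((A : ℚ) + 3 * C) ^ 2 + 3 * B * (A + 3 * C) + 3 * (B : ℚ) ^ 2 := by
    rw [hQX]
    push_cast
    ring
  have nZ : ¬ (3 : ℤ) ∣ QZ := by
    intro h
    apply h3A
    have h5 : (3 : ℤ) ∣ A ^ 2 := by
      have h6 : A ^ 2 = QZ - 3 * (A * (B + C) + (B + C) ^ 2) := by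
        rw [hQZ]
        ring
      rw [h6]
      exact dvd_sub h (Dvd.intro _ rfl)
    exact Int.prime_three.dvd_of_dvd_pow h5
  have nX : ¬ (3 : ℤ) ∣ QX := by
    intro h
    apply h3A
    have h5 : (3 : ℤ) ∣ A ^ 2 := by
      have h6 : A ^ 2 = QX - 3 * (2 * A * C + 3 * C ^ 2 + B * (A + 3 * C) + B ^ 2) := by
        rw [hQX]
        ring
      rw [h6]
      exact dvd_sub h (Dvd.intro _ rfl)
    exact Int.prime_three.dvd_of_dvd_pow h5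
  have eZ : (QZ : ℚ) * (w ^ n * (3 : ℚ) ^ j₃) = -(3 * z ^ n * (C : ℚ) ^ 2) := by
    apply mul_left_cancel₀ (mul_ne_zero hA' hB')
    rw [← cZ] at h2
    linear_combination (QZ : ℚ) * h1 + (C : ℚ) ^ 2 * h2
  have eX : (QX : ℚ) * (A * (w ^ n * (3 : ℚ) ^ j₃)) = -(9 * x ^ n * (C : ℚ) ^ 3) := by
    apply mul_left_cancel₀ hB'
    rw [← cX] at h4
    linear_combination (QX : ℚ) * h1 + (C : ℚ) ^ 2 * h4
  have kZ : (QZ : ℚ) = (3 : ℚ) ^ (1 + 2 * (k : ℤ) - j₃) * (-(z * (c : ℚ) ^ 2 / w)) ^ n := by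
    have e3 : (3 : ℚ) ^ (1 + 2 * (k : ℤ) - j₃) = 3 * ((3 : ℚ) ^ k) ^ 2 / (3 : ℚ) ^ j₃ := by
      rw [zpow_sub₀ t0, zpow_add₀ t0, zpow_one, mul_comm 2 (k : ℤ), zpow_mul, zpow_natCast]
      norm_cast
    have e4 : ((c : ℚ) ^ 2) ^ n = ((c : ℚ) ^ n) ^ 2 := by rw [← pow_mul, ← pow_mul, mul_comm]
    rw [e3, Odd.neg_pow hn, div_pow, mul_pow, e4]
    rw [qC] at eZ
    field_simp
    linear_combination eZ
  have kX : (QX : ℚ) = (3 : ℚ) ^ (2 + 3 * (k : ℤ) - j₃) * (-(x * (c : ℚ) ^ 3 / (a * w))) ^ n := by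
    have e3 : (3 : ℚ) ^ (2 + 3 * (k : ℤ) - j₃) = 9 * ((3 : ℚ) ^ k) ^ 3 / (3 : ℚ) ^ j₃ := by
      rw [zpow_sub₀ t0, zpow_add₀ t0, mul_comm 3 (k : ℤ), zpow_mul, zpow_natCast]
      norm_cast
    have e4 : ((c : ℚ) ^ 3) ^ n = ((c : ℚ) ^ n) ^ 3 := by rw [← pow_mul, ← pow_mul, mul_comm]
    rw [e3, Odd.neg_pow hn, div_pow, mul_pow, mul_pow, e4]
    rw [qC, qA] at eX
    field_simp
    linear_combination eX
  have rZ : -(z * (c : ℚ) ^ 2 / w) ≠ 0 :=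
    neg_ne_zero.mpr (div_ne_zero (mul_ne_zero hz (pow_ne_zero _ hc)) hw)
  have rX : -(x * (c : ℚ) ^ 3 / (a * w)) ≠ 0 :=
    neg_ne_zero.mpr (div_ne_zero (mul_ne_zero hx (pow_ne_zero _ hc)) (mul_ne_zero ha hw))
  obtain ⟨dZ, pZ⟩ := key hn0 QZ nZ _ rZ _ kZ
  obtain ⟨dX, pX⟩ := key hn0 QX nX _ rX _ kX
  have dk : (n : ℤ) ∣ k + 1 := by
    have h5 := dvd_sub dX dZ
    have h6 : (2 + 3 * (k : ℤ) - j₃) - (1 + 2 * (k : ℤ) - j₃) = k + 1 := by ring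
    rwa [h6] at h5
  refine ⟨pZ, pX, dk, fun h3B hQ => ?_⟩
  have hj : j = 0 := by
    by_contra hj
    apply h3B
    rw [hBb]
    exact Dvd.dvd.mul_right (dvd_pow_self _ hj) _
  have hQ' : ((A : ℚ) + B) ^ 2 + 3 * C * (A + B) + 3 * (C : ℚ) ^ 2 = (C : ℚ) ^ 2 := by
    exact_mod_cast congrArg (Int.cast : ℤ → ℚ) hQ
  have e5 : 3 * (C : ℚ) * y ^ n = -(B * (w ^ n * (3 : ℚ) ^ j₃)) := by
    apply mul_left_cancel₀ (mul_ne_zero hA' hC')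
    rw [hQ'] at h3
    linear_combination (C : ℚ) * h3 + (C : ℚ) * h1
  have kY : ((1 : ℤ) : ℚ) = (3 : ℚ) ^ (1 + (k : ℤ) - j₃) * (-(c * y / (b * w))) ^ n := by
    have e3 : (3 : ℚ) ^ (1 + (k : ℤ) - j₃) = 3 * (3 : ℚ) ^ k / (3 : ℚ) ^ j₃ := by
      rw [zpow_sub₀ t0, zpow_add₀ t0, zpow_one, zpow_natCast]
    rw [e3, Odd.neg_pow hn, div_pow, mul_pow, mul_pow]
    rw [qC, qB, hj] at e5
    push_cast
    field_simp
    linear_combination e5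
  have rY : -((c : ℚ) * y / (b * w)) ≠ 0 :=
    neg_ne_zero.mpr (div_ne_zero (mul_ne_zero hc hy) (mul_ne_zero hb hw))
  obtain ⟨dY, -⟩ := key hn0 1 (by norm_num) _ rY _ kY
  have h7 : (n : ℤ) ∣ k := by
    have h5 := dvd_sub dZ dY
    have h6 : (1 + 2 * (k : ℤ) - j₃) - (1 + (k : ℤ) - j₃) = k := by ring
    rwa [h6] at h5
  have h8 : (n : ℤ) ∣ 1 := by
    have h9 := dvd_sub dk h7
    simpa using h9
  have h10 := Int.le_of_dvd one_pos h8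
  omega

end Pool.Agent.H47N
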