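import Pool.Agent.H47N.Stm

/-!
# Project NS, assembly of Theorem A
-/

set_option autoImplicit false

namespace Pool.Agent.H47N

open NumberField

/-- `N(X) + N(Y) + N(Z) = 0` for a point over a cubic field in which `3` is inert. -/
theorem norm_sum (hNSUM : S_NSUM) (hCOL : S_COL) (hLOC : S_LOC) (K : Type) [Field K]
    [NumberField K] (h3 : Module.finrank ℚ K = 3) (hin : (Ideal.span {(3 : 𝓞 K)}).IsPrime)
    (X Y Z : K) (hX : X ≠ 0) (hY : Y ≠ 0) (hZ : Z ≠ 0) (h : X ^ 3 + Y ^ 3 + Z ^ 3 = 0) :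
    Algebra.norm ℚ X + Algebra.norm ℚ Y + Algebra.norm ℚ Z = 0 := by
  obtain ⟨s, θ, hs, h1 | h1 | h1⟩ := hLOC K hin X Y Z hX hY hZ h
  · obtain ⟨a, b, c, habc, h2⟩ := hCOL K h3 X Y Z hX hY hZ h s θ hs h1
    exact hNSUM K h3 X Y Z hX hY hZ h a b c habc h2
  · have h' : Y ^ 3 + Z ^ 3 + X ^ 3 = 0 := by rw [← h]; ring
    obtain ⟨a, b, c, habc, h2⟩ := hCOL K h3 Y Z X hY hZ hX h' s θ hs h1
    have := hNSUM K h3 Y Z X hY hZ hX h' a b c habc h2
    rw [← this]; ring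
  · have h' : Z ^ 3 + X ^ 3 + Y ^ 3 = 0 := by rw [← h]; ring
    obtain ⟨a, b, c, habc, h2⟩ := hCOL K h3 Z X Y hZ hX hY h' s θ hs h1
    have := hNSUM K h3 Z X Y hZ hX hY h' a b c habc h2
    rw [← this]; ring

/-- **Theorem A.** -/
theorem mainA (hNSUM : S_NSUM) (hCOL : S_COL) (hLOC : S_LOC) (K : Type) [Field K]
    [NumberField K] (h3 : Module.finrank ℚ K = 3) (hin : (Ideal.span {(3 : 𝓞 K)}).IsPrime)
    (n : ℕ) (x y z : K) (hx : x ≠ 0) (hy : y ≠ 0) (hz : z ≠ 0)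
    (h : x ^ (3 * n) + y ^ (3 * n) = z ^ (3 * n)) :
    Algebra.norm ℚ x ^ n + Algebra.norm ℚ y ^ n = Algebra.norm ℚ z ^ n := by
  have h1 : (x ^ n) ^ 3 + (y ^ n) ^ 3 + (-(z ^ n)) ^ 3 = 0 := by
    have e : ∀ w : K, w ^ (3 * n) = (w ^ n) ^ 3 := fun w => by rw [mul_comm, pow_mul]
    rw [e, e, e] at h
    rw [Odd.neg_pow (by decide), h]
    ring
  have h2 := norm_sum hNSUM hCOL hLOC K h3 hin (x ^ n) (y ^ n) (-(z ^ n)) (pow_ne_zero _ hx)
    (pow_ne_zero _ hy) (neg_ne_zero.2 (pow_ne_zero _ hz)) h1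
  have h4 : Algebra.norm ℚ (-(z ^ n)) = -(Algebra.norm ℚ z ^ n) := by
    have e : -(z ^ n) = algebraMap ℚ K (-1) * z ^ n := by
      rw [map_neg, map_one]; ring
    rw [e, map_mul, map_pow, Algebra.norm_algebraMap, h3]
    ring
  rw [h4, map_pow, map_pow] at h2
  linarith

/-- With Fermat's Last Theorem for `n` there is no solution. -/
theorem mainA_flt (hNSUM : S_NSUM) (hCOL : S_COL) (hLOC : S_LOC) (K : Type) [Field K]
    [NumberField K] (h3 : Module.finrank ℚ K = 3) (hin : (Ideal.span {(3 : 𝓞 K)}).IsPrime)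
    (n : ℕ) (hn : FermatLastTheoremFor n) (x y z : K)
    (h : x ^ (3 * n) + y ^ (3 * n) = z ^ (3 * n)) : x * y * z = 0 := by
  by_contra hne
  have hz : z ≠ 0 := right_ne_zero_of_mul hne
  have hxy : x * y ≠ 0 := left_ne_zero_of_mul hne
  have hx : x ≠ 0 := left_ne_zero_of_mul hxy
  have hy : y ≠ 0 := right_ne_zero_of_mul hxy
  have hQ : FermatLastTheoremWith ℚ n := fermatLastTheoremFor_iff_rat.1 hn
  exact hQ _ _ _ (Algebra.norm_ne_zero_iff.2 hx) (Algebra.norm_ne_zero_iff.2 hy)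
    (Algebra.norm_ne_zero_iff.2 hz) (mainA hNSUM hCOL hLOC K h3 hin n x y z hx hy hz h)

end Pool.Agent.H47N
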