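import Pool.Agent.H47N.Stm

/-! # Project NS, piece COL (helper11) -/

set_option autoImplicit false

namespace Pool.Agent.H47N

open NumberField IsDedekindDomain Polynomial

namespace COLP

lemma minpoly_deg {K : Type} [Field K] [NumberField K] (hK : Module.finrank ℚ K = 3) {m : K}
    (hm : ∀ q : ℚ, (q : K) ≠ m) : (minpoly ℚ m).natDegree = 3 := by
  have h1 : (minpoly ℚ m).natDegree ∣ 3 := by
    rw [← hK]
    exact minpoly.degree_dvd (Algebra.IsIntegral.isIntegral m)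
  rcases (Nat.dvd_prime Nat.prime_three).1 h1 with h | h
  · exfalso
    rw [minpoly.natDegree_eq_one_iff] at h
    obtain ⟨q, hq⟩ := h
    exact hm q (by rw [← hq]; simp)
  · exact h

lemma indep {K : Type} [Field K] [NumberField K] (hK : Module.finrank ℚ K = 3) {m : K}
    (hm : ∀ q : ℚ, (q : K) ≠ m) {a b c : ℚ} (h : (a : K) * m ^ 2 + b * m + c = 0) :
    a = 0 ∧ b = 0 ∧ c = 0 := by
  have hd := minpoly_deg hK hm
  have h1 : aeval m (C a * X ^ 2 + C b * X + C c : ℚ[X]) = 0 := by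
    simp only [map_add, map_mul, map_pow, aeval_X, aeval_C, eq_ratCast]
    exact h
  have h2 : (C a * X ^ 2 + C b * X + C c : ℚ[X]) = 0 := by
    by_contra h0
    have h3 := natDegree_le_natDegree (minpoly.degree_le_of_ne_zero ℚ m h0 h1)
    have h4 : (C a * X ^ 2 + C b * X + C c : ℚ[X]).natDegree ≤ 2 := natDegree_quadratic_le
    omega
  have e2 := congrArg (fun q : ℚ[X] => q.coeff 2) h2
  have e1 := congrArg (fun q : ℚ[X] => q.coeff 1) h2
  have e0 := congrArg (fun q : ℚ[X] => q.coeff 0) h2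
  simp [coeff_X, coeff_C] at e2 e1 e0
  exact ⟨e2, e1, e0⟩

lemma indepZ {K : Type} [Field K] [NumberField K] (hK : Module.finrank ℚ K = 3) {m : K}
    (hm : ∀ q : ℚ, (q : K) ≠ m) {a b c : ℤ} (h : (a : K) * m ^ 2 + b * m + c = 0) :
    a = 0 ∧ b = 0 ∧ c = 0 := by
  have h1 := indep hK hm (a := (a : ℚ)) (b := (b : ℚ)) (c := (c : ℚ)) (by exact_mod_cast h)
  exact ⟨by exact_mod_cast h1.1, by exact_mod_cast h1.2.1, by exact_mod_cast h1.2.2⟩

lemma cubic {K : Type} [Field K] [NumberField K] (hK : Module.finrank ℚ K = 3) (θ : 𝓞 K)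
    (hm : ∀ q : ℚ, (q : K) ≠ (θ : K)) :
    ∃ f1 f2 f3 : ℤ, (θ : K) ^ 3 + f1 * (θ : K) ^ 2 + f2 * (θ : K) + f3 = 0 := by
  have hi : IsIntegral ℤ (θ : K) := θ.isIntegral_coe
  have hd := minpoly_deg hK hm
  have h1 := minpoly.isIntegrallyClosed_eq_field_fractions' ℚ hi
  have h2 : (minpoly ℤ (θ : K)).natDegree = 3 := by
    rw [← hd, h1, (minpoly.monic hi).natDegree_map]
  have h3 := minpoly.aeval ℤ (θ : K)
  have h4 : (minpoly ℤ (θ : K)).coeff 3 = 1 := by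
    have := (minpoly.monic hi).leadingCoeff
    rwa [leadingCoeff, h2] at this
  rw [aeval_eq_sum_range, h2] at h3
  simp only [Finset.sum_range_succ, Finset.sum_range_zero, h4] at h3
  refine ⟨(minpoly ℤ (θ : K)).coeff 2, (minpoly ℤ (θ : K)).coeff 1, (minpoly ℤ (θ : K)).coeff 0,
    ?_⟩
  simp only [zsmul_eq_mul, pow_zero, pow_one, Int.cast_one, one_mul, mul_one, zero_add] at h3
  linear_combination h3

lemma prim {K : Type} [Field K] [CharZero K] (v : Fin 4 → K) : ∀ (N : ℕ) (g : Fin 4 → ℤ),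
    ∑ i, (g i).natAbs ≤ N → ∑ i, (g i : K) * v i = 0 → (∃ i, g i ≠ 0) →
    ∃ g : Fin 4 → ℤ, ∑ i, (g i : K) * v i = 0 ∧ ∃ i, ¬ (3 : ℤ) ∣ g i := by
  intro N
  induction N with
  | zero =>
    intro g h1 h2 ⟨i, hi⟩
    exfalso
    have h3 := Finset.single_le_sum (f := fun i => (g i).natAbs) (fun _ _ => Nat.zero_le _)
      (Finset.mem_univ i)
    have h4 : 0 < (g i).natAbs := Int.natAbs_pos.2 hi
    omega
  | succ N ih =>
    intro g h1 h2 ⟨i, hi⟩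
    by_cases h : ∃ i, ¬ (3 : ℤ) ∣ g i
    · exact ⟨g, h2, h⟩
    · push Not at h
      choose g' hg' using h
      have hi' : g' i ≠ 0 := by
        intro h0
        apply hi
        rw [hg', h0, mul_zero]
      refine ih g' ?_ ?_ ⟨i, hi'⟩
      · have e : ∑ i, (g i).natAbs = 3 * ∑ i, (g' i).natAbs := by
          rw [Finset.mul_sum]
          refine Finset.sum_congr rfl fun j _ => ?_
          rw [hg' j, Int.natAbs_mul]
          rfl
        have h3 := Finset.single_le_sum (f := fun i => (g' i).natAbs) (fun _ _ => Nat.zero_le _)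
          (Finset.mem_univ i)
        have h4 : 0 < (g' i).natAbs := Int.natAbs_pos.2 hi'
        omega
      · have e : ∑ i, (g i : K) * v i = 3 * ∑ i, (g' i : K) * v i := by
          rw [Finset.mul_sum]
          refine Finset.sum_congr rfl fun j _ => ?_
          rw [hg' j]
          push_cast
          ring
        rw [e] at h2
        rcases mul_eq_zero.1 h2 with h5 | h5
        · norm_num at h5
        · exact h5

lemma relation {K : Type} [Field K] [NumberField K] (hK : Module.finrank ℚ K = 3)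
    (v : Fin 4 → K) : ∃ g : Fin 4 → ℤ, ∑ i, (g i : K) * v i = 0 ∧ ∃ i, ¬ (3 : ℤ) ∣ g i := by
  have h1 : ¬ LinearIndependent ℚ v := by
    intro h
    have h2 := h.fintype_card_le_finrank
    rw [hK] at h2
    simp at h2
  rw [← LinearIndependent.iff_fractionRing ℤ ℚ, Fintype.not_linearIndependent_iff] at h1
  obtain ⟨g, hg, hi⟩ := h1
  exact prim v _ g le_rfl (by simpa only [zsmul_eq_mul] using hg) hi

/-- the case `ρ = -1` is impossible modulo three -/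
lemma mod3 {A B C D s r f1 f2 f3 L : ℤ} (hs : ¬ (3 : ℤ) ∣ s)
    (hL : L = A ^ 2 + 3 * A * B + 3 * B ^ 2) (hr : r = s ^ 3 * (3 * C * (A + 2 * B)) - 3 * f1 * s ^ 2 * L)
    (e2 : s ^ 3 * (s ^ 3 * (3 * (A * D + C ^ 2 + 2 * B * D)) - 9 * f2 * s * L) - 3 * r * f1 * s ^ 2 = 0)
    (e0 : s ^ 6 * (3 * D ^ 2) - 27 * r * f3 = 0) (hr2 : r = s ^ 3 * L) :
    (3 : ℤ) ∣ A ∧ (3 : ℤ) ∣ B ∧ (3 : ℤ) ∣ C ∧ (3 : ℤ) ∣ D := by
  have h3 : Prime (3 : ℤ) := Int.prime_three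
  have hs0 : s ≠ 0 := by
    rintro rfl
    exact hs (dvd_zero _)
  have hs2 : s ^ 2 ≠ 0 := pow_ne_zero _ hs0
  have hs3 : s ^ 3 ≠ 0 := pow_ne_zero _ hs0
  have k1 : 3 * (s * C * (A + 2 * B)) = L * (s + 3 * f1) := by
    apply mul_left_cancel₀ hs2
    linear_combination hr2 - hr
  have hsf : ¬ (3 : ℤ) ∣ s + 3 * f1 := by
    intro h
    exact hs ((Int.dvd_add_left (Dvd.intro _ rfl)).1 h)
  have hL3 : (3 : ℤ) ∣ L := (h3.dvd_or_dvd ⟨_, k1.symm⟩).resolve_right hsf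
  have hA : (3 : ℤ) ∣ A := by
    have : (3 : ℤ) ∣ A ^ 2 := by
      have e : A ^ 2 = L - 3 * (A * B + B ^ 2) := by rw [hL]; ring
      rw [e]
      exact dvd_sub hL3 (Dvd.intro _ rfl)
    exact h3.dvd_of_dvd_pow this
  have hD : (3 : ℤ) ∣ D := by
    have k2 : s ^ 3 * D ^ 2 = 3 * (3 * (L * f3)) := by
      have : 3 * s ^ 3 * (s ^ 3 * D ^ 2) = 3 * s ^ 3 * (3 * (3 * (L * f3))) := by
        linear_combination e0 + 27 * f3 * hr2
      exact mul_left_cancel₀ (mul_ne_zero (by norm_num) hs3) this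
    rcases h3.dvd_or_dvd (Dvd.intro _ k2.symm : (3 : ℤ) ∣ s ^ 3 * D ^ 2) with h | h
    · exact absurd (h3.dvd_of_dvd_pow h) hs
    · exact h3.dvd_of_dvd_pow h
  obtain ⟨L1, hL1⟩ := hL3
  obtain ⟨A1, hA1⟩ := hA
  obtain ⟨D1, hD1⟩ := hD
  have hC : (3 : ℤ) ∣ C := by
    have k3 : s ^ 3 * (A * D + C ^ 2 + 2 * B * D) = L * (f1 * s ^ 2 + 3 * f2 * s) := by
      have : 3 * s ^ 3 * (s ^ 3 * (A * D + C ^ 2 + 2 * B * D)) =
          3 * s ^ 3 * (L * (f1 * s ^ 2 + 3 * f2 * s)) := by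
        linear_combination e2 + 3 * f1 * s ^ 2 * hr2
      exact mul_left_cancel₀ (mul_ne_zero (by norm_num) hs3) this
    have k4 : s ^ 3 * C ^ 2 = 3 * (L1 * (f1 * s ^ 2 + 3 * f2 * s) - s ^ 3 * ((A + 2 * B) * D1)) := by
      rw [hL1] at k3
      linear_combination k3 - s ^ 3 * (A + 2 * B) * hD1
    rcases h3.dvd_or_dvd (Dvd.intro _ k4.symm : (3 : ℤ) ∣ s ^ 3 * C ^ 2) with h | h
    · exact absurd (h3.dvd_of_dvd_pow h) hs
    · exact h3.dvd_of_dvd_pow h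
  obtain ⟨C1, hC1⟩ := hC
  have hB : (3 : ℤ) ∣ B := by
    have k5 : 3 * (s * C1 * (A + 2 * B)) = L1 * (s + 3 * f1) := by
      have : 3 * (3 * (s * C1 * (A + 2 * B))) = 3 * (L1 * (s + 3 * f1)) := by
        rw [hL1, hC1] at k1
        linear_combination k1
      exact mul_left_cancel₀ (by norm_num) this
    obtain ⟨L2, hL2⟩ := (h3.dvd_or_dvd ⟨_, k5.symm⟩ : (3 : ℤ) ∣ L1 ∨ _).resolve_right hsf
    have k6 : B ^ 2 = 3 * (L2 - A1 ^ 2 - A1 * B) := by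
      have : 3 * B ^ 2 = 3 * (3 * (L2 - A1 ^ 2 - A1 * B)) := by
        rw [hL1, hL2, hA1] at hL
        linear_combination -hL
      exact mul_left_cancel₀ (by norm_num) this
    exact h3.dvd_of_dvd_pow (Dvd.intro _ k6.symm)
  exact ⟨⟨A1, hA1⟩, hB, ⟨C1, hC1⟩, ⟨D1, hD1⟩⟩

/-- the rational points of the cubic -/
lemma euler {ρ ξ : ℚ} (h : ρ ^ 3 - 3 * ρ ^ 2 * ξ + 3 * ρ * ξ ^ 2 + 1 = 0) : ρ = -1 := by
  have h1 : ξ = 0 ∨ ρ - ξ = 0 := by
    by_contra h0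
    rw [not_or] at h0
    exact fermatLastTheoremFor_iff_rat.1 fermatLastTheoremThree ξ (ρ - ξ) (-1) h0.1 h0.2
      (by norm_num) (by linear_combination h)
  have h2 : ρ ^ 3 + 1 = 0 := by
    rcases h1 with h1 | h1
    · rw [h1] at h
      linear_combination h
    · have : ξ = ρ := by linarith
      rw [this] at h
      linear_combination h
  have h3 : (ρ + 1) * ((ρ - 1 / 2) ^ 2 + 3 / 4) = 0 := by linear_combination h2
  rcases mul_eq_zero.1 h3 with h4 | h4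
  · linarith
  · nlinarith [sq_nonneg (ρ - 1 / 2)]

end COLP

open COLP

theorem mainCOL : S_COL := by
  intro K _ _ hK X Y Z hX hY hZ hXYZ s θ hs hθ
  have hs0 : s ≠ 0 := by
    rintro rfl
    exact hs (dvd_zero _)
  have hsK : (s : K) ≠ 0 := by exact_mod_cast hs0
  set m : K := (X + Y) / Z with hm
  have hmZ : m * Z = X + Y := by rw [hm]; field_simp
  have hsm : (s : K) * m = 3 * (θ : K) := by
    apply mul_right_cancel₀ hZ
    rw [mul_assoc, hmZ, hθ]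
  by_cases hq : ∃ q : ℚ, (q : K) = m
  · obtain ⟨q, hq⟩ := hq
    refine ⟨1, 1, -q, fun h => one_ne_zero h.1, ?_⟩
    push_cast
    rw [hq]
    linear_combination -hmZ
  push Not at hq
  set ξ : K := X / Z with hξ
  have hξZ : ξ * Z = X := by rw [hξ]; field_simp
  have hstar : m ^ 3 - 3 * m ^ 2 * ξ + 3 * m * ξ ^ 2 + 1 = 0 := by
    have hYZ : Y = (m - ξ) * Z := by linear_combination -hmZ + hξZ
    have h1 : Z ^ 3 * (m ^ 3 - 3 * m ^ 2 * ξ + 3 * m * ξ ^ 2 + 1) = 0 := by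
      rw [← hXYZ, hYZ, ← hξZ]
      ring
    exact (mul_eq_zero.1 h1).resolve_left (pow_ne_zero _ hZ)
  have hm0 : m ≠ 0 := fun h => hq 0 (by rw [h]; simp)
  obtain ⟨g, hg, i, hi⟩ := relation hK ![m * ξ, m ^ 2, m, 1]
  obtain ⟨A, hA⟩ : ∃ A, A = g 0 := ⟨_, rfl⟩
  obtain ⟨B, hB⟩ : ∃ B, B = g 1 := ⟨_, rfl⟩
  obtain ⟨C, hC⟩ : ∃ C, C = g 2 := ⟨_, rfl⟩
  obtain ⟨D, hD⟩ : ∃ D, D = g 3 := ⟨_, rfl⟩
  have hrel : (A : K) * m * ξ + B * m ^ 2 + C * m + D = 0 := by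
    rw [Fin.sum_univ_four] at hg
    simp only [Matrix.cons_val_zero, Matrix.cons_val_one, Matrix.cons_val] at hg
    rw [hA, hB, hC, hD]
    linear_combination hg
  have hndv : ¬ ((3 : ℤ) ∣ A ∧ (3 : ℤ) ∣ B ∧ (3 : ℤ) ∣ C ∧ (3 : ℤ) ∣ D) := by
    rintro ⟨h1, h2, h3, h4⟩
    apply hi
    fin_cases i
    · simpa [hA] using h1
    · simpa [hB] using h2
    · simpa [hC] using h3
    · simpa [hD] using h4
  have hA0 : A ≠ 0 := by
    intro h0
    have h1 := indepZ hK hq (a := B) (b := C) (c := D) (by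
      rw [h0] at hrel
      push_cast at hrel
      linear_combination hrel)
    apply hndv
    rw [h0, h1.1, h1.2.1, h1.2.2]
    exact ⟨dvd_zero _, dvd_zero _, dvd_zero _, dvd_zero _⟩
  have hθq : ∀ q : ℚ, (q : K) ≠ (θ : K) := by
    intro q h
    apply hq (3 * q / s)
    push_cast
    rw [h]
    field_simp
    linear_combination -hsm
  obtain ⟨f1, f2, f3, hf⟩ := cubic hK θ hθq
  set L : ℤ := A ^ 2 + 3 * A * B + 3 * B ^ 2 with hL
  set r : ℤ := s ^ 3 * (3 * C * (A + 2 * B)) - 3 * f1 * s ^ 2 * L with hr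
  have hL0 : 0 < L := by
    have h1 : 0 < A ^ 2 := by positivity
    nlinarith [sq_nonneg (2 * A + 3 * B), sq_nonneg (A + 2 * B), sq_nonneg (A + B), sq_nonneg B]
  have hG : (s : K) ^ 3 * m ^ 3 + 3 * f1 * s ^ 2 * m ^ 2 + 9 * f2 * s * m + 27 * f3 = 0 := by
    have h1 : (s : K) ^ 3 * m ^ 3 + 3 * f1 * s ^ 2 * m ^ 2 + 9 * f2 * s * m + 27 * f3 =
        (s * m) ^ 3 + 3 * f1 * (s * m) ^ 2 + 9 * f2 * (s * m) + 27 * f3 := by ring
    rw [h1, hsm]
    linear_combination 27 * hf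
  have hΦ : (A : K) ^ 2 * m ^ 4 + A ^ 2 * m + 3 * A * m ^ 2 * (B * m ^ 2 + C * m + D) +
      3 * (B * m ^ 2 + C * m + D) ^ 2 = 0 := by
    linear_combination (A : K) ^ 2 * m * hstar + (3 * A * m ^ 2 +
      3 * (B * m ^ 2 + C * m + D - A * m * ξ)) * hrel
  have hrem := indepZ hK hq
    (a := s ^ 3 * (s ^ 3 * (3 * (A * D + C ^ 2 + 2 * B * D)) - 9 * f2 * s * L) - 3 * r * f1 * s ^ 2)
    (b := s ^ 3 * (s ^ 3 * (A ^ 2 + 6 * C * D) - 27 * f3 * L) - 9 * r * f2 * s)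
    (c := s ^ 6 * (3 * D ^ 2) - 27 * r * f3) (by
      rw [hr, hL]
      push_cast
      linear_combination (s : K) ^ 6 * hΦ - ((s : K) ^ 3 * (A ^ 2 + 3 * A * B + 3 * B ^ 2) * m +
        ((s : K) ^ 3 * (3 * C * (A + 2 * B)) - 3 * f1 * s ^ 2 * (A ^ 2 + 3 * A * B + 3 * B ^ 2))) *
        hG)
  obtain ⟨e2, e1, e0⟩ := hrem
  by_cases hr0 : r = 0
  · have hD0 : D = 0 := by
      rw [hr0] at e0
      have h1 : s ^ 6 * 3 * D ^ 2 = 0 := by linear_combination e0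
      have h2 := (mul_eq_zero.1 h1).resolve_left (mul_ne_zero (pow_ne_zero _ hs0) (by norm_num))
      exact pow_eq_zero_iff (two_ne_zero) |>.1 h2
    refine ⟨A + B, B, C, ?_, ?_⟩
    · rintro ⟨h1, h2, -⟩
      apply hA0
      rw [h2, add_zero] at h1
      exact_mod_cast h1
    · have h1 : m * (A * ξ + B * m + C) = 0 := by
        rw [hD0] at hrel
        push_cast at hrel
        linear_combination hrel
      have h2 := (mul_eq_zero.1 h1).resolve_left hm0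
      push_cast
      linear_combination Z * h2 - (A : K) * hξZ - (B : K) * hmZ
  · exfalso
    have hL0Q : (L : ℚ) ≠ 0 := by exact_mod_cast hL0.ne'
    have hsQ : (s : ℚ) ≠ 0 := by exact_mod_cast hs0
    have hAQ : (A : ℚ) ≠ 0 := by exact_mod_cast hA0
    have hrQ : (r : ℚ) ≠ 0 := by exact_mod_cast hr0
    set ρ : ℚ := - r / (s ^ 3 * L) with hρ
    have hρ0 : ρ ≠ 0 := div_ne_zero (neg_ne_zero.2 hrQ) (mul_ne_zero (pow_ne_zero _ hsQ) hL0Q)
    have hρr : (s : ℚ) ^ 3 * L * ρ + r = 0 := by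
      rw [hρ]
      field_simp
      ring
    have E2 : (s : ℚ) ^ 3 * (s ^ 3 * (3 * (A * D + C ^ 2 + 2 * B * D)) - 9 * f2 * s * L) -
        3 * r * f1 * s ^ 2 = 0 := by exact_mod_cast e2
    have E1 : (s : ℚ) ^ 3 * (s ^ 3 * (A ^ 2 + 6 * C * D) - 27 * f3 * L) - 9 * r * f2 * s = 0 := by
      exact_mod_cast e1
    have E0 : (s : ℚ) ^ 6 * (3 * D ^ 2) - 27 * r * f3 = 0 := by exact_mod_cast e0
    have hLQ : (L : ℚ) = A ^ 2 + 3 * A * B + 3 * B ^ 2 := by rw [hL]; push_cast; ring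
    have hrQ2 : (r : ℚ) = s ^ 3 * (3 * C * (A + 2 * B)) - 3 * f1 * s ^ 2 * L := by
      rw [hr]; push_cast; ring
    have hΦρ : (A : ℚ) ^ 2 * ρ ^ 4 + A ^ 2 * ρ + 3 * A * ρ ^ 2 * (B * ρ ^ 2 + C * ρ + D) +
        3 * (B * ρ ^ 2 + C * ρ + D) ^ 2 = 0 := by
      have h1 : (s : ℚ) ^ 6 * ((A : ℚ) ^ 2 * ρ ^ 4 + A ^ 2 * ρ +
          3 * A * ρ ^ 2 * (B * ρ ^ 2 + C * ρ + D) + 3 * (B * ρ ^ 2 + C * ρ + D) ^ 2) = 0 := by
        linear_combination ρ ^ 2 * E2 + ρ * E1 + E0 +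
          ((s : ℚ) ^ 3 * ρ ^ 3 + 3 * f1 * s ^ 2 * ρ ^ 2 + 9 * f2 * s * ρ + 27 * f3) * hρr
          - (s : ℚ) ^ 6 * ρ ^ 4 * hLQ - (s : ℚ) ^ 3 * ρ ^ 3 * hrQ2
      exact (mul_eq_zero.1 h1).resolve_left (pow_ne_zero _ hsQ)
    obtain ⟨ξ', hξ'⟩ : ∃ ξ' : ℚ, A * ρ * ξ' = - (B * ρ ^ 2 + C * ρ + D) :=
      ⟨- (B * ρ ^ 2 + C * ρ + D) / (A * ρ), by field_simp⟩
    have h2 : ρ ^ 3 - 3 * ρ ^ 2 * ξ' + 3 * ρ * ξ' ^ 2 + 1 = 0 := by
      have h3 : (A : ℚ) ^ 2 * ρ * (ρ ^ 3 - 3 * ρ ^ 2 * ξ' + 3 * ρ * ξ' ^ 2 + 1) = 0 := by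
        linear_combination hΦρ - (3 * A * ρ ^ 2 +
          3 * (B * ρ ^ 2 + C * ρ + D - A * ρ * ξ')) * hξ'
      exact (mul_eq_zero.1 h3).resolve_left (mul_ne_zero (pow_ne_zero _ hAQ) hρ0)
    have hρ1 := euler h2
    have hr2 : r = s ^ 3 * L := by
      rw [hρ1] at hρr
      have : (r : ℚ) = (s : ℚ) ^ 3 * L := by linear_combination hρr
      exact_mod_cast this
    exact hndv (mod3 hs hL hr e2 e0 hr2)

end Pool.Agent.H47N
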