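import Mathlib

/-!
# Norms from a monic polynomial of the right degree
-/

set_option autoImplicit false

namespace Pool.Agent.H47N

open Polynomial Module

theorem norm_of_root (K : Type) [Field K] [NumberField K] (hp : (Module.finrank ℚ K).Prime)
    (x : K) (hx : x ∉ (algebraMap ℚ K).range) (P : ℚ[X]) (hP : P.Monic)
    (hd : P.natDegree = Module.finrank ℚ K) (h0 : Polynomial.aeval x P = 0) :
    Algebra.norm ℚ x = (-1) ^ Module.finrank ℚ K * P.coeff 0 := by
  have hint : IsIntegral ℚ x := Algebra.IsIntegral.isIntegral x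
  have hdvd : (minpoly ℚ x).natDegree ∣ Module.finrank ℚ K := minpoly.degree_dvd hint
  have hne1 : (minpoly ℚ x).natDegree ≠ 1 := by
    intro h
    exact hx (minpoly.natDegree_eq_one_iff.mp h)
  have hdeg : (minpoly ℚ x).natDegree = Module.finrank ℚ K :=
    (hp.eq_one_or_self_of_dvd _ hdvd).resolve_left hne1
  have hmP : minpoly ℚ x = P := by
    have h1 : minpoly ℚ x ∣ P := minpoly.dvd ℚ x h0
    exact (Polynomial.eq_of_monic_of_dvd_of_natDegree_le (minpoly.monic hint) hP h1
      (by rw [hd, hdeg])).symm
  have hfin : Module.finrank ℚ (IntermediateField.adjoin ℚ {x}) = Module.finrank ℚ K := by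
    rw [IntermediateField.adjoin.finrank hint, hdeg]
  have hmul := Module.finrank_mul_finrank ℚ (IntermediateField.adjoin ℚ {x}) K
  rw [hfin] at hmul
  have hone : Module.finrank (IntermediateField.adjoin ℚ {x}) K = 1 := by
    have hpos : 0 < Module.finrank ℚ K := hp.pos
    exact Nat.eq_of_mul_eq_mul_left hpos (by rw [hmul, mul_one])
  rw [Algebra.norm_eq_norm_adjoin, hone, pow_one]
  have hg : (IntermediateField.adjoin.powerBasis hint).gen
      = IntermediateField.AdjoinSimple.gen ℚ x := IntermediateField.adjoin.powerBasis_gen hint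
  rw [← hg, Algebra.PowerBasis.norm_gen_eq_coeff_zero_minpoly, hg,
    IntermediateField.minpoly_gen, hmP]
  congr 2

end Pool.Agent.H47N
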