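import Pool.Agent.H47N.Stm2
import Pool.Agent.H47N.COL
import Pool.Agent.H47N.Nrm

/-!
# Project NS, piece KIL: valuations at the unique prime above three
-/

set_option autoImplicit false

namespace Pool.Agent.H47N

open NumberField IsDedekindDomain Polynomial

namespace KILP

theorem mulLt {a b : WithZero (Multiplicative ℤ)} (ha : a ≤ 1) (hb : b < 1) : a * b < 1 :=
  lt_of_le_of_lt (by calc a * b ≤ 1 * b := mul_le_mul_left ha b
                        _ = b := one_mul b) hb

section

variable {K : Type} [Field K] [NumberField K] (w : HeightOneSpectrum (𝓞 K))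

theorem val_int (m : ℤ) : w.valuation K (m : K) ≤ 1 := by
  have e : (m : K) = algebraMap (𝓞 K) K m := by rw [map_intCast]
  rw [e]
  exact w.valuation_le_one _

theorem val3 (h3 : (3 : 𝓞 K) ∈ w.asIdeal) : w.valuation K (3 : K) < 1 := by
  have e : (3 : K) = algebraMap (𝓞 K) K 3 := by rw [map_ofNat]
  rw [e]
  exact (w.valuation_lt_one_iff_mem 3).2 h3

theorem val_unit (h3 : (3 : 𝓞 K) ∈ w.asIdeal) (m : ℤ) (hm : ¬ (3 : ℤ) ∣ m) :
    w.valuation K (m : K) = 1 := by
  have hcop : IsCoprime m 3 := ((Int.prime_three.coprime_iff_not_dvd).2 hm).symm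
  obtain ⟨r, s, hrs⟩ := hcop
  refine le_antisymm (val_int w m) ?_
  by_contra hlt
  rw [not_le] at hlt
  have h1 : w.valuation K ((r * m + s * 3 : ℤ) : K) < 1 := by
    rw [Int.cast_add, Int.cast_mul, Int.cast_mul]
    refine lt_of_le_of_lt (Valuation.map_add _ _ _) (max_lt ?_ ?_)
    · rw [map_mul]
      exact mulLt (val_int w r) hlt
    · rw [map_mul]
      exact mulLt (val_int w s) (by exact_mod_cast val3 w h3)
  rw [hrs, Int.cast_one, map_one] at h1
  exact lt_irrefl _ h1

theorem val_rat (h3 : (3 : 𝓞 K) ∈ w.asIdeal) {e : ℤ} (he : w.valuation K (3 : K) = WithZero.exp (-e))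
    (q : ℚ) (hq : q ≠ 0) :
    ∃ j : ℤ, w.valuation K (algebraMap ℚ K q) = WithZero.exp (-(e * j)) := by
  have hint : ∀ m : ℤ, m ≠ 0 → ∃ j : ℤ, w.valuation K (m : K) = WithZero.exp (-(e * j)) := by
    intro m hm
    obtain ⟨k, n, hn, hmn⟩ := Nat.exists_eq_pow_mul_and_not_dvd (Int.natAbs_ne_zero.2 hm) 3
      (by norm_num)
    have h1 : w.valuation K (m : K) = w.valuation K ((m.natAbs : ℤ) : K) := by
      rcases Int.natAbs_eq m with h | h
      · rw [← h]
      · conv_lhs => rw [h]
        rw [Int.cast_neg, Valuation.map_neg]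
    refine ⟨k, ?_⟩
    rw [h1, hmn]
    have h2 : w.valuation K ((n : ℤ) : K) = 1 := val_unit w h3 n (by exact_mod_cast hn)
    push_cast at h2 ⊢
    rw [map_mul, h2, mul_one, map_pow, he, ← WithZero.exp_nsmul]
    congr 1
    simp only [nsmul_eq_mul]
    ring
  obtain ⟨j1, hj1⟩ := hint q.num (Rat.num_ne_zero.2 hq)
  obtain ⟨j2, hj2⟩ := hint (q.den : ℤ) (by exact_mod_cast q.den_nz)
  refine ⟨j1 - j2, ?_⟩
  have h1 : algebraMap ℚ K q = (q.num : K) / ((q.den : ℤ) : K) := by
    conv_lhs => rw [← Rat.num_div_den q]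
    rw [map_div₀, map_intCast, map_natCast, Int.cast_natCast]
  rw [h1, map_div₀, hj1, hj2, ← WithZero.exp_sub]
  congr 1
  ring

theorem val_add_ne {x y : K} {p q : ℤ} (hx : w.valuation K x = WithZero.exp (-p))
    (hy : w.valuation K y = WithZero.exp (-q)) (hne : p ≠ q) :
    w.valuation K (x + y) = WithZero.exp (-(min p q)) := by
  rcases lt_or_gt_of_ne hne with h | h
  · rw [min_eq_left h.le, ← hx]
    exact Valuation.map_add_eq_of_lt_left _ (by rw [hx, hy, WithZero.exp_lt_exp]; omega)
  · rw [min_eq_right h.le, ← hy]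
    exact Valuation.map_add_eq_of_lt_right _ (by rw [hx, hy, WithZero.exp_lt_exp]; omega)

end

/-- the comparison of the four exponents -/
theorem compare {e i j A B : ℤ} (he : 0 < e) (hi : 3 * i = e * (A + B))
    (hj : 3 * j = e * (2 * B - A - 1)) :
    e + j ≠ e + 2 * j + i ∧ min (e + j) (e + 2 * j + i) ≠ 2 * i ∧
      e + i + j ≠ min (min (e + j) (e + 2 * j + i)) (2 * i) := by
  have h1 : 3 * (e + j) = e * (2 + 2 * B - A) := by linear_combination hj
  have h2 : 3 * (e + 2 * j + i) = e * (1 + 5 * B - A) := by linear_combination 2 * hj + hi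
  have h3 : 3 * (2 * i) = e * (2 * A + 2 * B) := by linear_combination 2 * hi
  have h4 : 3 * (e + i + j) = e * (2 + 3 * B) := by linear_combination hi + hj
  have key : ∀ {P Q g g' : ℤ}, 3 * P = e * g → 3 * Q = e * g' → (P ≤ Q ↔ g ≤ g') := by
    intro P Q g g' hP hQ
    constructor
    · intro h
      have : e * g ≤ e * g' := by rw [← hP, ← hQ]; omega
      exact le_of_mul_le_mul_left this he
    · intro h
      have : e * g ≤ e * g' := mul_le_mul_of_nonneg_left h he.le
      rw [← hP, ← hQ] at this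
      omega
  have k12 := key h1 h2
  have k21 := key h2 h1
  have k13 := key h1 h3
  have k31 := key h3 h1
  have k23 := key h2 h3
  have k32 := key h3 h2
  have k14 := key h1 h4
  have k41 := key h4 h1
  have k24 := key h2 h4
  have k42 := key h4 h2
  have k34 := key h3 h4
  have k43 := key h4 h3
  refine ⟨?_, ?_, ?_⟩
  · omega
  · omega
  · omega

end KILP

open KILP

theorem mainKIL : S_KIL := by
  intro K _ _ hK w h3 hN X Y Z hX hY hZ h A B C hA hrel
  have h3abc : 3 * ((X + Y) * (Y + Z) * (X + Z)) = (X + Y + Z) ^ 3 := by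
    linear_combination -h
  have hsum : ∀ {x y z : K}, z ≠ 0 → x ^ 3 + y ^ 3 + z ^ 3 = 0 → x + y ≠ 0 := by
    intro x y z hz h1 h2
    apply hz
    have h4 : z ^ 3 = 0 := by
      have : y = -x := by linear_combination h2
      rw [this] at h1
      linear_combination h1
    exact (pow_eq_zero_iff (by norm_num)).1 h4
  have ha : X + Y ≠ 0 := hsum hZ h
  have hb : Y + Z ≠ 0 := hsum hX (by linear_combination h)
  have hc : X + Z ≠ 0 := hsum hY (by linear_combination h)
  have hσ : X + Y + Z ≠ 0 := by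
    intro h0
    rw [h0] at h3abc
    have : (3 : K) * ((X + Y) * (Y + Z) * (X + Z)) ≠ 0 :=
      mul_ne_zero three_ne_zero (mul_ne_zero (mul_ne_zero ha hb) hc)
    apply this
    rw [h3abc]
    ring
  obtain ⟨t, ht⟩ : ∃ t, t = (X + Y + Z) / (X + Y) := ⟨_, rfl⟩
  obtain ⟨r, hr⟩ : ∃ r, r = (X + Z) / (X + Y + Z) := ⟨_, rfl⟩
  have ht0 : t ≠ 0 := by rw [ht]; exact div_ne_zero hσ ha
  have hr0 : r ≠ 0 := by rw [hr]; exact div_ne_zero hc hσ
  have E1 : (A : K) * r + B + C * t = 0 := by
    rw [ht, hr]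
    field_simp
    linear_combination hrel
  have E2 : 3 * r * (2 * t - 1 - r * t) = t ^ 2 := by
    rw [ht, hr]
    field_simp
    linear_combination h3abc
  by_cases hq : ∃ q : ℚ, (q : K) = t
  · obtain ⟨q, hq⟩ := hq
    refine ⟨1 - q, 1 - q, 1, fun h0 => one_ne_zero h0.2.2, ?_⟩
    have h5 : t * (X + Y) = X + Y + Z := by rw [ht]; field_simp
    push_cast
    rw [hq]
    linear_combination -h5
  push Not at hq
  exfalso
  have hAK : (A : K) ≠ 0 := by exact_mod_cast hA
  have hC : C ≠ 0 := by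
    rintro rfl
    have h6 : r = ((-B / A : ℚ) : K) := by
      push_cast
      field_simp
      push_cast at E1
      linear_combination E1
    have h7 := COLP.indep hK hq (a := 1) (b := -(6 * (-B / A) - 3 * (-B / A) ^ 2)) (c := 3 * (-B / A)) (by
      rw [h6] at E2
      push_cast at E2 ⊢
      linear_combination -E2)
    exact one_ne_zero h7.1
  have hCK : (C : K) ≠ 0 := by exact_mod_cast hC
  have hrq : r ∉ (algebraMap ℚ K).range := by
    rintro ⟨q, hq'⟩
    apply hq (-(A * q + B) / C)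
    rw [eq_ratCast] at hq'
    push_cast
    rw [hq']
    field_simp
    linear_combination -E1
  have htq : t ∉ (algebraMap ℚ K).range := by
    rintro ⟨q, hq'⟩
    exact hq q (by rw [← hq', eq_ratCast])
  have hp : (Module.finrank ℚ K).Prime := by rw [hK]; exact Nat.prime_three
  have hNt : Algebra.norm ℚ t = A * B / C ^ 2 := by
    have h1 := norm_of_root K hp t htq
      (Polynomial.X ^ 3 +
        Polynomial.C ((A ^ 2 + 3 * C * (B + 2 * A) + 3 * B * C) / (3 * C ^ 2)) * Polynomial.X ^ 2 +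
        Polynomial.C ((3 * B * (B + 2 * A) - 3 * A * C) / (3 * C ^ 2)) * Polynomial.X +
        Polynomial.C (-(A * B) / C ^ 2)) (by monicity!) (by rw [hK]; compute_degree!) (by
        simp only [map_add, map_mul, map_pow, aeval_X, aeval_C, eq_ratCast]
        push_cast
        field_simp
        linear_combination (-(A : K) ^ 2) * E2 +
          (3 * (2 * A * t - A) - 3 * t * (A * r - (B + C * t))) * E1)
    rw [h1, hK]
    simp [coeff_X, coeff_C]
    ring
  have hNr : Algebra.norm ℚ r = B ^ 2 / (3 * A * C) := by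
    have h1 := norm_of_root K hp r hrq
      (Polynomial.X ^ 3 +
        Polynomial.C ((3 * B * C - 6 * A * C - A ^ 2) / (3 * A * C)) * Polynomial.X ^ 2 +
        Polynomial.C ((-6 * B * C - 3 * C ^ 2 - 2 * A * B) / (3 * A * C)) * Polynomial.X +
        Polynomial.C (-B ^ 2 / (3 * A * C))) (by monicity!) (by rw [hK]; compute_degree!) (by
        simp only [map_add, map_mul, map_pow, aeval_X, aeval_C, eq_ratCast]
        push_cast
        field_simp
        linear_combination ((C : K) ^ 2) * E2 -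
          (3 * r * C * (2 - r) - (C * t - B - A * r)) * E1)
    rw [h1, hK]
    simp [coeff_X, coeff_C]
    ring
  have hB : B ≠ 0 := by
    rintro rfl
    rw [mul_zero, zero_div, Algebra.norm_eq_zero_iff] at hNt
    exact ht0 hNt
  -- valuations
  have hV3 : w.valuation K (3 : K) ≠ 0 := (Valuation.ne_zero_iff _).2 three_ne_zero
  obtain ⟨e, he⟩ : ∃ e : ℤ, w.valuation K (3 : K) = WithZero.exp (-e) :=
    ⟨-(WithZero.log (w.valuation K (3 : K))), by rw [neg_neg, WithZero.exp_log hV3]⟩
  have he0 : 0 < e := by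
    have h1 := val3 w h3
    rw [he, ← WithZero.exp_zero, WithZero.exp_lt_exp] at h1
    omega
  obtain ⟨i, hi⟩ : ∃ i : ℤ, w.valuation K t = WithZero.exp (-i) :=
    ⟨-(WithZero.log (w.valuation K t)), by
      rw [neg_neg, WithZero.exp_log ((Valuation.ne_zero_iff _).2 ht0)]⟩
  obtain ⟨j, hj⟩ : ∃ j : ℤ, w.valuation K r = WithZero.exp (-j) :=
    ⟨-(WithZero.log (w.valuation K r)), by
      rw [neg_neg, WithZero.exp_log ((Valuation.ne_zero_iff _).2 hr0)]⟩
  obtain ⟨α, hα⟩ := val_rat w h3 he A hA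
  obtain ⟨β, hβ⟩ := val_rat w h3 he B hB
  obtain ⟨γ, hγ⟩ := val_rat w h3 he C hC
  have hNt2 := hN t
  rw [hNt, hi, map_div₀, map_mul, map_pow, map_div₀, map_mul, map_pow, hα, hβ, hγ,
    ← WithZero.exp_nsmul, ← WithZero.exp_nsmul, ← WithZero.exp_add, ← WithZero.exp_sub,
    WithZero.exp_inj] at hNt2
  have hNr2 := hN r
  rw [hNr, hj, map_div₀, map_mul, map_mul, map_pow, map_ofNat (algebraMap ℚ K) 3, map_div₀, map_mul,
    map_mul, map_pow, he, hα, hβ, hγ,
    ← WithZero.exp_nsmul, ← WithZero.exp_nsmul, ← WithZero.exp_add, ← WithZero.exp_add,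
    ← WithZero.exp_sub, WithZero.exp_inj] at hNr2
  simp only [nsmul_eq_mul, Nat.cast_ofNat] at hNt2 hNr2
  obtain ⟨k1, k2, k3⟩ := compare (e := e) (i := i) (j := j) (A := α - γ) (B := β - γ) he0
    (by linear_combination hNt2) (by linear_combination hNr2)
  have hV2 : w.valuation K (2 : K) = 1 := by
    have := val_unit w h3 2 (by norm_num)
    exact_mod_cast this
  have T1 : w.valuation K (3 * r) = WithZero.exp (-(e + j)) := by
    rw [map_mul, he, hj, ← WithZero.exp_add]
    congr 1; ring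
  have T2 : w.valuation K (3 * r ^ 2 * t) = WithZero.exp (-(e + 2 * j + i)) := by
    rw [map_mul, map_mul, map_pow, he, hj, hi, ← WithZero.exp_nsmul, ← WithZero.exp_add,
      ← WithZero.exp_add]
    congr 1; simp only [nsmul_eq_mul, Nat.cast_ofNat]; ring
  have T3 : w.valuation K (t ^ 2) = WithZero.exp (-(2 * i)) := by
    rw [map_pow, hi, ← WithZero.exp_nsmul]
    congr 1; simp only [nsmul_eq_mul, Nat.cast_ofNat]; ring
  have T4 : w.valuation K (2 * 3 * (r * t)) = WithZero.exp (-(e + i + j)) := by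
    rw [map_mul, map_mul, map_mul, hV2, he, hi, hj, one_mul, ← WithZero.exp_add,
      ← WithZero.exp_add]
    congr 1; ring
  have T5 := val_add_ne w T1 T2 k1
  have T6 := val_add_ne w T5 T3 k2
  have e6 : 3 * r + 3 * r ^ 2 * t + t ^ 2 = 2 * 3 * (r * t) := by linear_combination -E2
  rw [e6, T4, WithZero.exp_inj] at T6
  exact k3 (by omega)

end Pool.Agent.H47N
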