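import Pool.Agent.H47N.Stm

/-!
# Piece NSUM: norms of collinear points of the Fermat cubic
-/

set_option autoImplicit false

namespace Pool.Agent.H47N

open NumberField Polynomial

/-- The norm of an element which is not rational of a cubic field, from a monic cubic polynomial with this root. -/
theorem nsum_norm (K : Type) [Field K] [NumberField K] (hK : Module.finrank ℚ K = 3) (x : K)
    (hx : x ∉ (algebraMap ℚ K).range) (p2 p1 p0 : ℚ)
    (h : x ^ 3 + (p2 : K) * x ^ 2 + (p1 : K) * x + (p0 : K) = 0) :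
    Algebra.norm ℚ x = - p0 := by
  have hint : IsIntegral ℚ x := Algebra.IsIntegral.isIntegral x
  have hdeg : (minpoly ℚ x).natDegree = 3 := by
    have h1 : (minpoly ℚ x).natDegree ∣ 3 := hK ▸ minpoly.degree_dvd hint
    have h2 : (minpoly ℚ x).natDegree ≠ 1 := fun h2 => hx (minpoly.natDegree_eq_one_iff.1 h2)
    rcases (Nat.dvd_prime Nat.prime_three).1 h1 with h3 | h3
    · exact absurd h3 h2
    · exact h3
  have hP : (X ^ 3 + C p2 * X ^ 2 + C p1 * X + C p0 : ℚ[X]).Monic := by monicity!
  have hPd : (X ^ 3 + C p2 * X ^ 2 + C p1 * X + C p0 : ℚ[X]).natDegree = 3 := by compute_degree!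
  have hroot : aeval x (X ^ 3 + C p2 * X ^ 2 + C p1 * X + C p0 : ℚ[X]) = 0 := by
    simp only [map_add, map_mul, map_pow, aeval_X, aeval_C, eq_ratCast]
    exact h
  have hdvd : minpoly ℚ x ∣ (X ^ 3 + C p2 * X ^ 2 + C p1 * X + C p0 : ℚ[X]) := minpoly.dvd ℚ x hroot
  have hmin : (X ^ 3 + C p2 * X ^ 2 + C p1 * X + C p0 : ℚ[X]) = minpoly ℚ x :=
    Polynomial.eq_of_monic_of_dvd_of_natDegree_le (minpoly.monic hint) hP hdvd (by rw [hPd, hdeg])
  have hcd : (Algebra.lmul ℚ K x : Module.End ℚ K).charpoly.natDegree = 3 := by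
    rw [LinearMap.charpoly_natDegree, hK]
  have hmm : minpoly ℚ (Algebra.lmul ℚ K x) = minpoly ℚ x :=
    minpoly.algHom_eq (Algebra.lmul ℚ K) Algebra.lmul_injective x
  have hcp : (Algebra.lmul ℚ K x : Module.End ℚ K).charpoly = minpoly ℚ x := by
    refine Polynomial.eq_of_monic_of_dvd_of_natDegree_le (minpoly.monic hint)
      (LinearMap.charpoly_monic _) ?_ (by rw [hcd, hdeg])
    rw [← hmm]
    exact LinearMap.minpoly_dvd_charpoly _
  rw [Algebra.norm_apply, LinearMap.det_eq_sign_charpoly_coeff, hcp, ← hmin, hK]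
  simp only [coeff_add, coeff_X_pow, coeff_C_mul, coeff_X, coeff_C_zero]
  norm_num

theorem nsum_aux (K : Type) [Field K] [NumberField K] (hK : Module.finrank ℚ K = 3)
    (X Y Z : K) (hX : X ≠ 0) (hY : Y ≠ 0) (hZ : Z ≠ 0) (h3 : X ^ 3 + Y ^ 3 + Z ^ 3 = 0)
    (a b c : ℚ) (hc : c ≠ 0) (h : (a : K) * X + b * Y + c * Z = 0) :
    Algebra.norm ℚ X + Algebra.norm ℚ Y + Algebra.norm ℚ Z = 0 := by
  obtain ⟨r, hr⟩ : ∃ r : K, X = r * Y := ⟨X / Y, by field_simp⟩
  have hcK : (c : K) ≠ 0 := by exact_mod_cast hc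
  obtain ⟨a', ha'⟩ : ∃ a' : ℚ, a' = a / c := ⟨_, rfl⟩
  obtain ⟨b', hb'⟩ : ∃ b' : ℚ, b' = b / c := ⟨_, rfl⟩
  have hz : Z = - ((a' : K) * r + b') * Y := by
    rw [ha', hb']
    push_cast
    field_simp
    rw [hr] at h
    linear_combination h
  have hr3 : r ^ 3 + 1 - ((a' : K) * r + b') ^ 3 = 0 := by
    have h4 : (r ^ 3 + 1 - ((a' : K) * r + b') ^ 3) * Y ^ 3 = 0 := by
      rw [hr, hz] at h3
      linear_combination h3
    rcases mul_eq_zero.1 h4 with h5 | h5
    · exact h5
    · exact absurd (pow_eq_zero_iff (by norm_num) |>.1 h5) hY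
  have hr0 : r ≠ 0 := by
    rintro rfl
    apply hX
    rw [hr]
    ring
  have hw0 : (a' : K) * r + b' ≠ 0 := by
    intro h0
    apply hZ
    rw [hz, h0]
    ring
  by_cases hrat : r ∈ (algebraMap ℚ K).range
  · exfalso
    obtain ⟨q, hq⟩ := hrat
    rw [eq_ratCast] at hq
    subst hq
    have hq0 : q ≠ 0 := by
      rintro rfl
      exact hr0 (by norm_num)
    have hw : a' * q + b' ≠ 0 := by
      intro h0
      apply hw0
      exact_mod_cast congrArg (fun t : ℚ => (t : K)) h0
    have hf : FermatLastTheoremWith ℚ 3 := fermatLastTheoremFor_iff_rat.1 fermatLastTheoremThree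
    refine hf q 1 (a' * q + b') hq0 one_ne_zero hw ?_
    have h6 : ((q ^ 3 + 1 ^ 3 : ℚ) : K) = (((a' * q + b') ^ 3 : ℚ) : K) := by
      push_cast
      linear_combination hr3
    exact_mod_cast h6
  · -- `1 - a' ^ 3 ≠ 0`
    have hnr : ∀ u v w : ℚ, (u : K) * r ^ 2 + v * r + w = 0 → u = 0 ∧ v = 0 ∧ w = 0 := by
      intro u v w huvw
      have hint : IsIntegral ℚ r := Algebra.IsIntegral.isIntegral r
      have hdeg : (minpoly ℚ r).natDegree = 3 := by
        have h1 : (minpoly ℚ r).natDegree ∣ 3 := hK ▸ minpoly.degree_dvd hint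
        have h2 : (minpoly ℚ r).natDegree ≠ 1 := fun h2 => hrat (minpoly.natDegree_eq_one_iff.1 h2)
        rcases (Nat.dvd_prime Nat.prime_three).1 h1 with h3 | h3
        · exact absurd h3 h2
        · exact h3
      have hroot : aeval r (Polynomial.C u * Polynomial.X ^ 2 + Polynomial.C v * Polynomial.X + Polynomial.C w : ℚ[X]) = 0 := by
        simp only [map_add, map_mul, map_pow, aeval_X, aeval_C, eq_ratCast]
        exact huvw
      have hz0 : (Polynomial.C u * Polynomial.X ^ 2 + Polynomial.C v * Polynomial.X + Polynomial.C w : ℚ[X]) = 0 := by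
        by_contra hne
        have h7 := Polynomial.natDegree_le_of_dvd (minpoly.dvd ℚ r hroot) hne
        have h8 : (Polynomial.C u * Polynomial.X ^ 2 + Polynomial.C v * Polynomial.X + Polynomial.C w : ℚ[X]).natDegree ≤ 2 := by
          compute_degree
        omega
      refine ⟨?_, ?_, ?_⟩
      · have := congrArg (fun p => Polynomial.coeff p 2) hz0
        simpa [Polynomial.coeff_X, Polynomial.coeff_C] using this
      · have := congrArg (fun p => Polynomial.coeff p 1) hz0
        simpa [Polynomial.coeff_X, Polynomial.coeff_C] using this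
      · have := congrArg (fun p => Polynomial.coeff p 0) hz0
        simpa [Polynomial.coeff_X, Polynomial.coeff_C] using this
    have ha1 : 1 - a' ^ 3 ≠ 0 := by
      intro h0
      have h9 : ((a' : K)) ^ 3 = 1 := by
        have : a' ^ 3 = 1 := by linarith
        exact_mod_cast congrArg (fun t : ℚ => (t : K)) this
      have h10 := hnr (-(3 * a' ^ 2 * b')) (-(3 * a' * b' ^ 2)) (1 - b' ^ 3) (by
        push_cast
        linear_combination hr3 + r ^ 3 * h9)
      obtain ⟨e1, e2, e3⟩ := h10
      have hb1 : b' ^ 3 = 1 := by linarith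
      have hb0 : b' ≠ 0 := by
        rintro rfl
        norm_num at hb1
      have ha0 : a' ≠ 0 := by
        rintro rfl
        norm_num at h0
      have : 3 * a' ^ 2 * b' ≠ 0 := by positivity
      exact this (by linarith)
    have ha1K : (1 - (a' : K) ^ 3) ≠ 0 := by
      intro h0
      apply ha1
      exact_mod_cast h0
    have hN1 : Algebra.norm ℚ r = - ((1 - b' ^ 3) / (1 - a' ^ 3)) := by
      refine nsum_norm K hK r hrat (-(3 * a' ^ 2 * b') / (1 - a' ^ 3)) (-(3 * a' * b' ^ 2) / (1 - a' ^ 3)) _ ?_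
      push_cast
      field_simp
      linear_combination hr3
    have hN2 : Algebra.norm ℚ ((a' : K) * r + b') = - ((a' ^ 3 - b' ^ 3) / (1 - a' ^ 3)) := by
      by_cases ha0 : a' = 0
      · subst ha0
        have : (((0 : ℚ) : K) * r + b') = algebraMap ℚ K b' := by
          rw [eq_ratCast]
          push_cast
          ring
        rw [this, Algebra.norm_algebraMap, hK]
        norm_num
      · refine nsum_norm K hK _ ?_ (-(3 * b') / (1 - a' ^ 3)) ((3 * b' ^ 2) / (1 - a' ^ 3)) _ ?_
        · rintro ⟨q, hq⟩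
          apply hrat
          refine ⟨(q - b') / a', ?_⟩
          rw [eq_ratCast] at hq ⊢
          have haK : (a' : K) ≠ 0 := by exact_mod_cast ha0
          push_cast
          field_simp
          linear_combination hq
        · push_cast
          field_simp
          linear_combination (a' : K) ^ 3 * hr3
    have hm1 : Algebra.norm ℚ (-1 : K) = -1 := by
      have : (-1 : K) = algebraMap ℚ K (-1) := by simp
      rw [this, Algebra.norm_algebraMap, hK]
      norm_num
    have hZ' : Z = (-1) * (((a' : K) * r + b') * Y) := by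
      rw [hz]
      ring
    rw [hr, hZ', map_mul, map_mul, map_mul, hm1, hN1, hN2]
    field_simp
    ring

theorem mainNSUM : S_NSUM := by
  intro K _ _ hK X Y Z hX hY hZ h3 a b c habc h
  by_cases hc : c = 0
  · by_cases hb : b = 0
    · have ha : a ≠ 0 := fun ha => habc ⟨ha, hb, hc⟩
      have := nsum_aux K hK Y Z X hY hZ hX (by linear_combination h3) b c a ha (by linear_combination h)
      linear_combination this
    · have := nsum_aux K hK Z X Y hZ hX hY (by linear_combination h3) c a b hb (by linear_combination h)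
      linear_combination this
  · exact nsum_aux K hK X Y Z hX hY hZ h3 a b c hc h

end Pool.Agent.H47N
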