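import Pool.Agent.H47N.Stm2

/-!
# Piece VN of project NS (helper51): the valuation of the norm when there is one prime above `3`
-/

set_option autoImplicit false

namespace Pool.Agent.H47N

open NumberField IsDedekindDomain

namespace VN

variable {K : Type} [Field K] [NumberField K]

theorem val_int_le (w : HeightOneSpectrum (𝓞 K)) (n : ℤ) : w.valuation K (n : K) ≤ 1 := by
  have h : w.valuation K (algebraMap (𝓞 K) K (n : 𝓞 K)) ≤ 1 := w.valuation_le_one (K := K) _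
  rwa [map_intCast] at h

theorem val_three_eq (w' : HeightOneSpectrum (𝓞 K)) (h : (3 : 𝓞 K) ∉ w'.asIdeal) :
    w'.valuation K (3 : K) = 1 := by
  have h1 := (w'.valuation_eq_one_iff_notMem (K := K) (r := (3 : 𝓞 K))).2 h
  rwa [map_ofNat] at h1

theorem val_int_eq (w : HeightOneSpectrum (𝓞 K)) (h3 : (3 : 𝓞 K) ∈ w.asIdeal) (s : ℕ)
    (hs : ¬ 3 ∣ s) : w.valuation K (s : K) = 1 := by
  have h1 : (s : 𝓞 K) ∉ w.asIdeal := by
    intro h
    have hco : Nat.Coprime s 3 := ((Nat.Prime.coprime_iff_not_dvd Nat.prime_three).2 hs).symm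
    have hb : IsCoprime ((s : ℕ) : ℤ) ((3 : ℕ) : ℤ) := Nat.isCoprime_iff_coprime.2 hco
    obtain ⟨a, b, hab⟩ := hb
    have h2 : (1 : 𝓞 K) = (a : 𝓞 K) * (s : 𝓞 K) + (b : 𝓞 K) * 3 := by
      have := congrArg (fun x : ℤ => (x : 𝓞 K)) hab
      push_cast at this
      exact this.symm
    have h4 : (1 : 𝓞 K) ∈ w.asIdeal := by
      rw [h2]
      exact Ideal.add_mem _ (Ideal.mul_mem_left _ _ h) (Ideal.mul_mem_left _ _ h3)
    exact w.isPrime.ne_top ((Ideal.eq_top_iff_one _).2 h4)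
  have h2 := (w.valuation_eq_one_iff_notMem (K := K) (r := (s : 𝓞 K))).2 h1
  rwa [map_natCast] at h2

/-- an integral multiple by a number prime to `3` -/
theorem exists_mult (w : HeightOneSpectrum (𝓞 K))
    (hw : ∀ w' : HeightOneSpectrum (𝓞 K), (3 : 𝓞 K) ∈ w'.asIdeal → w' = w) (η : K)
    (hη : w.valuation K η ≤ 1) :
    ∀ n : ℕ, n ≠ 0 → (∃ x : 𝓞 K, algebraMap (𝓞 K) K x = (n : K) * η) →
      ∃ s : ℕ, s ≠ 0 ∧ ¬ 3 ∣ s ∧ ∃ x : 𝓞 K, algebraMap (𝓞 K) K x = (s : K) * η := by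
  intro n
  induction n using Nat.strong_induction_on with
  | _ n ih =>
    intro hn hx
    by_cases h3 : 3 ∣ n
    · obtain ⟨m, rfl⟩ := h3
      refine ih m (by omega) (by omega) ?_
      have h1 : (m : K) * η ∈ (algebraMap (𝓞 K) K).range := by
        refine HeightOneSpectrum.mem_integers_of_valuation_le_one K _ fun w' => ?_
        by_cases h : (3 : 𝓞 K) ∈ w'.asIdeal
        · rw [hw w' h, map_mul]
          have := val_int_le w (m : ℤ)
          rw [Int.cast_natCast] at this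
          exact mul_le_one' this hη
        · obtain ⟨x, hx⟩ := hx
          have h4 : w'.valuation K (algebraMap (𝓞 K) K x) ≤ 1 := w'.valuation_le_one (K := K) x
          rw [hx] at h4
          have h5 : ((3 * m : ℕ) : K) * η = 3 * ((m : K) * η) := by push_cast; ring
          rw [h5, map_mul, val_three_eq w' h, one_mul] at h4
          exact h4
      obtain ⟨x, hx⟩ := h1
      exact ⟨x, hx⟩
    · exact ⟨n, hn, h3, hx⟩

theorem norm_le (w : HeightOneSpectrum (𝓞 K)) (h3 : (3 : 𝓞 K) ∈ w.asIdeal)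
    (hw : ∀ w' : HeightOneSpectrum (𝓞 K), (3 : 𝓞 K) ∈ w'.asIdeal → w' = w) (η : K)
    (hη : w.valuation K η ≤ 1) : w.valuation K (algebraMap ℚ K (Algebra.norm ℚ η)) ≤ 1 := by
  have h0 : ∃ n : ℕ, n ≠ 0 ∧ ∃ x : 𝓞 K, algebraMap (𝓞 K) K x = (n : K) * η := by
    obtain ⟨d, hd, hd2⟩ := exists_integral_multiples ℤ ℚ ({η} : Finset K)
    have h1 := hd2 η (by simp)
    have h2 : IsIntegral ℤ ((d.natAbs : K) * η) := by
      have h4 : (d.natAbs : K) = ((d.natAbs : ℤ) : K) := (Int.cast_natCast _).symm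
      rw [h4]
      rcases Int.natAbs_eq d with h | h
      · rw [← h, ← zsmul_eq_mul]
        exact h1
      · have h5 : ((d.natAbs : ℕ) : ℤ) = -d := by omega
        rw [h5, Int.cast_neg, neg_mul, ← zsmul_eq_mul]
        exact h1.neg
    exact ⟨d.natAbs, Int.natAbs_ne_zero.2 hd, ⟨_, h2⟩, rfl⟩
  obtain ⟨n, hn, hx⟩ := h0
  obtain ⟨s, hs0, hs, x, hx⟩ := exists_mult w hw η hη n hn hx
  have h1 : (Algebra.norm ℤ x : ℚ) = Algebra.norm ℚ ((s : K) * η) := by
    rw [← hx]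
    exact Algebra.coe_norm_int x
  have h2 : algebraMap ℚ K (Algebra.norm ℚ ((s : K) * η)) =
      (s : K) ^ Module.finrank ℚ K * algebraMap ℚ K (Algebra.norm ℚ η) := by
    have h4 : (s : K) = algebraMap ℚ K (s : ℚ) := by rw [map_natCast]
    rw [map_mul, h4, Algebra.norm_algebraMap, map_mul, map_pow]
  have h5 := val_int_le w (Algebra.norm ℤ x)
  have h6 : ((Algebra.norm ℤ x : ℤ) : K) = algebraMap ℚ K ((Algebra.norm ℤ x : ℤ) : ℚ) := by
    rw [map_intCast]
  rw [h6, h1, h2, map_mul, map_pow, val_int_eq w h3 s hs, one_pow, one_mul] at h5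
  exact h5

theorem norm_eq_one (w : HeightOneSpectrum (𝓞 K)) (h3 : (3 : 𝓞 K) ∈ w.asIdeal)
    (hw : ∀ w' : HeightOneSpectrum (𝓞 K), (3 : 𝓞 K) ∈ w'.asIdeal → w' = w) (η : K)
    (hη : w.valuation K η = 1) : w.valuation K (algebraMap ℚ K (Algebra.norm ℚ η)) = 1 := by
  have h0 : η ≠ 0 := by
    rintro rfl
    rw [map_zero] at hη
    exact zero_ne_one hη
  have h1 := norm_le w h3 hw η hη.le
  have h2 := norm_le w h3 hw η⁻¹ (by rw [map_inv₀, hη, inv_one])
  have h4 : w.valuation K (algebraMap ℚ K (Algebra.norm ℚ η)) *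
      w.valuation K (algebraMap ℚ K (Algebra.norm ℚ η⁻¹)) = 1 := by
    rw [← map_mul, ← map_mul, ← map_mul, mul_inv_cancel₀ h0, map_one, map_one, map_one]
  refine le_antisymm h1 ?_
  calc (1 : WithZero (Multiplicative ℤ)) = _ := h4.symm
    _ ≤ w.valuation K (algebraMap ℚ K (Algebra.norm ℚ η)) * 1 := mul_le_mul_right h2 _
    _ = _ := mul_one _

end VN

open VN in
theorem mainVN : S_VN := by
  intro K _ _ w h3 hw η
  have hfin : 0 < Module.finrank ℚ K := Module.finrank_pos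
  by_cases h0 : η = 0
  · subst h0
    rw [Algebra.norm_zero, map_zero, map_zero, zero_pow hfin.ne']
  have h30 : (3 : K) ≠ 0 := by norm_num
  have hlt : w.valuation K (3 : K) < 1 := by
    have : w.valuation K (algebraMap (𝓞 K) K 3) < 1 :=
      (w.valuation_lt_one_iff_mem (K := K) (3 : 𝓞 K)).2 h3
    rwa [map_ofNat] at this
  have hv3 : w.valuation K (3 : K) ≠ 0 := (Valuation.ne_zero_iff _).2 h30
  have hvη : w.valuation K η ≠ 0 := (Valuation.ne_zero_iff _).2 h0
  have hN0 : algebraMap ℚ K (Algebra.norm ℚ η) ≠ 0 := by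
    rw [Ne, map_eq_zero]
    exact Algebra.norm_ne_zero_iff.2 h0
  have hvN : w.valuation K (algebraMap ℚ K (Algebra.norm ℚ η)) ≠ 0 :=
    (Valuation.ne_zero_iff _).2 hN0
  obtain ⟨e, he⟩ : ∃ e : ℤ, w.valuation K (3 : K) = WithZero.exp e := ⟨_, (WithZero.exp_log hv3).symm⟩
  obtain ⟨k, hk⟩ : ∃ k : ℤ, w.valuation K η = WithZero.exp k := ⟨_, (WithZero.exp_log hvη).symm⟩
  obtain ⟨m, hm⟩ : ∃ m : ℤ, w.valuation K (algebraMap ℚ K (Algebra.norm ℚ η)) = WithZero.exp m :=
    ⟨_, (WithZero.exp_log hvN).symm⟩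
  have he0 : e ≠ 0 := by
    rintro rfl
    rw [he, WithZero.exp_zero] at hlt
    exact lt_irrefl _ hlt
  have h1 : w.valuation K (η ^ e * (3 : K) ^ (-k)) = 1 := by
    rw [map_mul, map_zpow₀, map_zpow₀, he, hk, ← WithZero.exp_zsmul, ← WithZero.exp_zsmul,
      ← WithZero.exp_add, ← WithZero.exp_zero]
    congr 1
    simp only [smul_eq_mul]
    ring
  have h2 := norm_eq_one w h3 hw _ h1
  have h33 : algebraMap ℚ K (Algebra.norm ℚ (3 : K)) = 3 ^ Module.finrank ℚ K := by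
    have h4 : (3 : K) = algebraMap ℚ K (3 : ℚ) := by rw [map_ofNat]
    conv_lhs => rw [h4]
    rw [Algebra.norm_algebraMap, map_pow, map_ofNat]
  have hz : ∀ (x : K) (j : ℤ), Algebra.norm ℚ (x ^ j) = (Algebra.norm ℚ x) ^ j := by
    intro x j
    let f : K →*₀ ℚ := { (Algebra.norm ℚ : K →* ℚ) with map_zero' := Algebra.norm_zero }
    exact map_zpow₀ f x j
  rw [map_mul, hz, hz, map_mul, map_zpow₀, map_zpow₀, map_mul, map_zpow₀, map_zpow₀,
    h33, map_pow, he, hm, ← WithZero.exp_nsmul, ← WithZero.exp_zsmul, ← WithZero.exp_zsmul,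
    ← WithZero.exp_add, WithZero.exp_eq_one] at h2
  simp only [smul_eq_mul, nsmul_eq_mul] at h2
  rw [hm, hk, ← WithZero.exp_nsmul]
  congr 1
  rw [nsmul_eq_mul]
  have h5 : e * (m - (Module.finrank ℚ K : ℤ) * k) = 0 := by linear_combination h2
  rcases mul_eq_zero.1 h5 with h6 | h6
  · exact absurd h6 he0
  · linear_combination h6

end Pool.Agent.H47N
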