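import Pool.Agent.H47N.COL2
import Pool.Agent.H47N.VN
import Pool.Agent.H47N.KIL
import Pool.Agent.H47N.NSUM

/-!
# Project NS, assembly: cubic fields with one prime above three
-/

set_option autoImplicit false

namespace Pool.Agent.H47N

open NumberField IsDedekindDomain

/-- `N(X) + N(Y) + N(Z) = 0` for a point over a cubic field with one prime above `3`. -/
theorem norm_sum_one (K : Type) [Field K]
    [NumberField K] (hK : Module.finrank ℚ K = 3) (w : HeightOneSpectrum (𝓞 K))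
    (h3 : (3 : 𝓞 K) ∈ w.asIdeal)
    (hw : ∀ w' : HeightOneSpectrum (𝓞 K), (3 : 𝓞 K) ∈ w'.asIdeal → w' = w)
    (X Y Z : K) (hX : X ≠ 0) (hY : Y ≠ 0) (hZ : Z ≠ 0) (h : X ^ 3 + Y ^ 3 + Z ^ 3 = 0) :
    Algebra.norm ℚ X + Algebra.norm ℚ Y + Algebra.norm ℚ Z = 0 := by
  have hN : ∀ η : K, w.valuation K (algebraMap ℚ K (Algebra.norm ℚ η)) =
      (w.valuation K η) ^ 3 := by
    intro η
    have := mainVN K w h3 hw η
    rwa [hK] at this
  rcases mainCOL2 K hK X Y Z hX hY hZ h with ⟨a, b, c, habc, h1⟩ | ⟨A, B, C, hA, h1⟩ |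
    ⟨A, B, C, hA, h1⟩
  · exact mainNSUM K hK X Y Z hX hY hZ h a b c habc h1
  · obtain ⟨a, b, c, habc, h2⟩ := mainKIL K hK w h3 hN X Y Z hX hY hZ h A B C hA h1
    exact mainNSUM K hK X Y Z hX hY hZ h a b c habc h2
  · have h' : Y ^ 3 + X ^ 3 + Z ^ 3 = 0 := by rw [← h]; ring
    obtain ⟨a, b, c, habc, h2⟩ := mainKIL K hK w h3 hN Y X Z hY hX hZ h' A B C hA
      (by linear_combination h1)
    have := mainNSUM K hK Y X Z hY hX hZ h' a b c habc h2
    linear_combination this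

end Pool.Agent.H47N
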