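import Pool.Agent.H47N.Stm2
import Pool.Agent.H47N.COL

/-! # Project NS, piece COL2 (helper86, after COL of helper11) -/

set_option autoImplicit false

namespace Pool.Agent.H47N

open NumberField IsDedekindDomain Polynomial

namespace COL2P

open COLP

lemma cubicQ {K : Type} [Field K] [NumberField K] (hK : Module.finrank ℚ K = 3) {m : K}
    (hm : ∀ q : ℚ, (q : K) ≠ m) :
    ∃ g1 g2 g3 : ℚ, m ^ 3 + g1 * m ^ 2 + g2 * m + g3 = 0 := by
  have hi : IsIntegral ℚ m := Algebra.IsIntegral.isIntegral m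
  have hd := minpoly_deg hK hm
  have h3 := minpoly.aeval ℚ m
  have h4 : (minpoly ℚ m).coeff 3 = 1 := by
    have := (minpoly.monic hi).leadingCoeff
    rwa [leadingCoeff, hd] at this
  rw [aeval_eq_sum_range, hd] at h3
  simp only [Finset.sum_range_succ, Finset.sum_range_zero, h4] at h3
  refine ⟨(minpoly ℚ m).coeff 2, (minpoly ℚ m).coeff 1, (minpoly ℚ m).coeff 0, ?_⟩
  simp only [Rat.smul_def, pow_zero, pow_one, Rat.cast_one, one_mul, mul_one, zero_add] at h3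
  linear_combination h3

/-- the rational points of the cubic -/
lemma euler2 {ρ ξ : ℚ} (h : ρ ^ 3 - 3 * ρ ^ 2 * ξ + 3 * ρ * ξ ^ 2 + 1 = 0) :
    ρ = -1 ∧ (ξ = 0 ∨ ξ = -1) := by
  have h1 : ξ = 0 ∨ ρ - ξ = 0 := by
    by_contra h0
    rw [not_or] at h0
    exact fermatLastTheoremFor_iff_rat.1 fermatLastTheoremThree ξ (ρ - ξ) (-1) h0.1 h0.2
      (by norm_num) (by linear_combination h)
  have h2 := euler h
  refine ⟨h2, ?_⟩
  rcases h1 with h1 | h1
  · exact Or.inl h1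
  · right
    rw [h2] at h1
    linarith

end COL2P

open COLP COL2P

theorem mainCOL2 : S_COL2 := by
  intro K _ _ hK X Y Z hX hY hZ hXYZ
  set m : K := (X + Y) / Z with hm
  have hmZ : m * Z = X + Y := by rw [hm]; field_simp
  by_cases hq : ∃ q : ℚ, (q : K) = m
  · obtain ⟨q, hq⟩ := hq
    refine Or.inl ⟨1, 1, -q, fun h => one_ne_zero h.1, ?_⟩
    push_cast
    rw [hq]
    linear_combination -hmZ
  push Not at hq
  set ξ : K := X / Z with hξ
  have hξZ : ξ * Z = X := by rw [hξ]; field_simp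
  have hstar : m ^ 3 - 3 * m ^ 2 * ξ + 3 * m * ξ ^ 2 + 1 = 0 := by
    have hYZ : Y = (m - ξ) * Z := by linear_combination -hmZ + hξZ
    have h1 : Z ^ 3 * (m ^ 3 - 3 * m ^ 2 * ξ + 3 * m * ξ ^ 2 + 1) = 0 := by
      rw [← hXYZ, hYZ, ← hξZ]
      ring
    exact (mul_eq_zero.1 h1).resolve_left (pow_ne_zero _ hZ)
  have hm0 : m ≠ 0 := fun h => hq 0 (by rw [h]; simp)
  obtain ⟨g, hg, i, hi⟩ := relation hK ![m * ξ, m ^ 2, m, 1]
  obtain ⟨A, hA⟩ : ∃ A : ℚ, A = g 0 := ⟨_, rfl⟩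
  obtain ⟨B, hB⟩ : ∃ B : ℚ, B = g 1 := ⟨_, rfl⟩
  obtain ⟨C, hC⟩ : ∃ C : ℚ, C = g 2 := ⟨_, rfl⟩
  obtain ⟨D, hD⟩ : ∃ D : ℚ, D = g 3 := ⟨_, rfl⟩
  have hrel : (A : K) * m * ξ + B * m ^ 2 + C * m + D = 0 := by
    rw [Fin.sum_univ_four] at hg
    simp only [Matrix.cons_val_zero, Matrix.cons_val_one, Matrix.cons_val] at hg
    rw [hA, hB, hC, hD]
    push_cast
    linear_combination hg
  have hnz : ¬ (A = 0 ∧ B = 0 ∧ C = 0 ∧ D = 0) := by
    rintro ⟨h1, h2, h3, h4⟩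
    apply hi
    rw [hA] at h1
    rw [hB] at h2
    rw [hC] at h3
    rw [hD] at h4
    have k1 : g 0 = 0 := by exact_mod_cast h1
    have k2 : g 1 = 0 := by exact_mod_cast h2
    have k3 : g 2 = 0 := by exact_mod_cast h3
    have k4 : g 3 = 0 := by exact_mod_cast h4
    fin_cases i
    · simp [k1]
    · simp [k2]
    · simp [k3]
    · simp [k4]
  have hA0 : A ≠ 0 := by
    intro h0
    have h1 := indep hK hq (a := B) (b := C) (c := D) (by
      rw [h0] at hrel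
      push_cast at hrel
      linear_combination hrel)
    exact hnz ⟨h0, h1.1, h1.2.1, h1.2.2⟩
  obtain ⟨g1, g2, g3, hG⟩ := cubicQ hK hq
  obtain ⟨L, hL⟩ : ∃ L : ℚ, L = A ^ 2 + 3 * A * B + 3 * B ^ 2 := ⟨_, rfl⟩
  obtain ⟨r, hr⟩ : ∃ r : ℚ, r = 3 * C * (A + 2 * B) - g1 * L := ⟨_, rfl⟩
  have hL0 : 0 < L := by
    have h1 : 0 < A ^ 2 := by positivity
    have h2 : L = A ^ 2 / 4 + 3 * (B + A / 2) ^ 2 := by rw [hL]; ring
    rw [h2]
    have h3 := sq_nonneg (B + A / 2)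
    linarith
  have hΦ : (A : K) ^ 2 * m ^ 4 + A ^ 2 * m + 3 * A * m ^ 2 * (B * m ^ 2 + C * m + D) +
      3 * (B * m ^ 2 + C * m + D) ^ 2 = 0 := by
    linear_combination (A : K) ^ 2 * m * hstar + (3 * A * m ^ 2 +
      3 * (B * m ^ 2 + C * m + D - A * m * ξ)) * hrel
  have hrem := indep hK hq
    (a := 3 * (A * D + C ^ 2 + 2 * B * D) - g2 * L - r * g1)
    (b := A ^ 2 + 6 * C * D - g3 * L - r * g2)
    (c := 3 * D ^ 2 - r * g3) (by
      rw [hr, hL]
      push_cast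
      linear_combination hΦ - (((A : K) ^ 2 + 3 * A * B + 3 * B ^ 2) * m +
        (3 * C * (A + 2 * B) - g1 * ((A : K) ^ 2 + 3 * A * B + 3 * B ^ 2))) * hG)
  obtain ⟨e2, e1, e0⟩ := hrem
  by_cases hr0 : r = 0
  · left
    have hD0 : D = 0 := by
      rw [hr0] at e0
      have h1 : 3 * D ^ 2 = 0 := by linear_combination e0
      have h2 := (mul_eq_zero.1 h1).resolve_left (by norm_num)
      exact pow_eq_zero_iff (two_ne_zero) |>.1 h2
    refine ⟨A + B, B, C, ?_, ?_⟩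
    · rintro ⟨h1, h2, -⟩
      apply hA0
      rwa [h2, add_zero] at h1
    · have h1 : m * (A * ξ + B * m + C) = 0 := by
        rw [hD0] at hrel
        push_cast at hrel
        linear_combination hrel
      have h2 := (mul_eq_zero.1 h1).resolve_left hm0
      push_cast
      linear_combination Z * h2 - (A : K) * hξZ - (B : K) * hmZ
  · right
    obtain ⟨ρ, hρ⟩ : ∃ ρ : ℚ, ρ = - r / L := ⟨_, rfl⟩
    have hρ0 : ρ ≠ 0 := by
      rw [hρ]
      exact div_ne_zero (neg_ne_zero.2 hr0) hL0.ne'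
    have hρr : L * ρ + r = 0 := by
      rw [hρ]
      field_simp
      ring
    have hΦρ : A ^ 2 * ρ ^ 4 + A ^ 2 * ρ + 3 * A * ρ ^ 2 * (B * ρ ^ 2 + C * ρ + D) +
        3 * (B * ρ ^ 2 + C * ρ + D) ^ 2 = 0 := by
      linear_combination ρ ^ 2 * e2 + ρ * e1 + e0 +
          (ρ ^ 3 + g1 * ρ ^ 2 + g2 * ρ + g3) * hρr - ρ ^ 4 * hL - ρ ^ 3 * hr
    obtain ⟨ξ', hξ'⟩ : ∃ ξ' : ℚ, A * ρ * ξ' = - (B * ρ ^ 2 + C * ρ + D) :=
      ⟨- (B * ρ ^ 2 + C * ρ + D) / (A * ρ), by field_simp⟩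
    have h2 : ρ ^ 3 - 3 * ρ ^ 2 * ξ' + 3 * ρ * ξ' ^ 2 + 1 = 0 := by
      have h3 : A ^ 2 * ρ * (ρ ^ 3 - 3 * ρ ^ 2 * ξ' + 3 * ρ * ξ' ^ 2 + 1) = 0 := by
        linear_combination hΦρ - (3 * A * ρ ^ 2 +
          3 * (B * ρ ^ 2 + C * ρ + D - A * ρ * ξ')) * hξ'
      exact (mul_eq_zero.1 h3).resolve_left (mul_ne_zero (pow_ne_zero _ hA0) hρ0)
    have hquad : (A : K) * ((X + Y) * X) + B * (X + Y) ^ 2 + C * ((X + Y) * Z) + D * Z ^ 2 = 0 := by
      rw [← hmZ]
      linear_combination Z ^ 2 * hrel - (A : K) * m * Z * hξZ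
    obtain ⟨h3, h4⟩ := euler2 h2
    rw [h3] at hξ'
    rcases h4 with h4 | h4
    · right
      rw [h4] at hξ'
      have hCK : (C : K) = B + D := by
        have : C = B + D := by linear_combination -hξ'
        rw [this]
        push_cast
        ring
      refine ⟨-A, A + B - D, D, neg_ne_zero.2 hA0, ?_⟩
      push_cast
      rw [hCK] at hquad
      linear_combination hquad
    · left
      rw [h4] at hξ'
      have hCK : (C : K) = A + B + D := by
        have : C = A + B + D := by linear_combination -hξ'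
        rw [this]
        push_cast
        ring
      refine ⟨A, B - D, D, hA0, ?_⟩
      push_cast
      rw [hCK] at hquad
      linear_combination hquad

end Pool.Agent.H47N
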