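import Pool.Agent.H47N.COL
import Pool.Agent.H47N.COL2
import Pool.Agent.H47N.Nrm

/-!
# Project NS: norms of `X + Y`, `Y + Z`, `Z + X` modulo cubes, at the prime three
-/

set_option autoImplicit false

namespace Pool.Agent.H47N

open NumberField IsDedekindDomain Polynomial

theorem sum_ne {K : Type} [Field K] [NumberField K] {x y z : K} (hz : z ≠ 0)
    (h1 : x ^ 3 + y ^ 3 + z ^ 3 = 0) : x + y ≠ 0 := by
  intro h2
  apply hz
  have h4 : z ^ 3 = 0 := by
    have : y = -x := by linear_combination h2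
    rw [this] at h1
    linear_combination h1
  exact (pow_eq_zero_iff (by norm_num)).1 h4

/-- the norm of `(X + Z) / (X + Y)` -/
theorem norm_quot (K : Type) [Field K] [NumberField K] (hK : Module.finrank ℚ K = 3)
    (X Y Z : K) (hX : X ≠ 0) (hY : Y ≠ 0) (hZ : Z ≠ 0) (h : X ^ 3 + Y ^ 3 + Z ^ 3 = 0)
    (A B C : ℚ) (hA : A ≠ 0)
    (hrel : (A : K) * ((X + Y) * (X + Z)) + B * ((X + Y) * (X + Y + Z)) + C * (X + Y + Z) ^ 2 = 0) :
    (∃ a b c : ℚ, ¬ (a = 0 ∧ b = 0 ∧ c = 0) ∧ (a : K) * X + b * Y + c * Z = 0) ∨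
    (∃ u : ℚ, u ≠ 0 ∧ 3 * Algebra.norm ℚ (X + Z) = u ^ 3 * Algebra.norm ℚ (X + Y)) := by
  have h3abc : 3 * ((X + Y) * (Y + Z) * (X + Z)) = (X + Y + Z) ^ 3 := by
    linear_combination -h
  have ha : X + Y ≠ 0 := sum_ne hZ h
  have hb : Y + Z ≠ 0 := sum_ne hX (by linear_combination h)
  have hc : X + Z ≠ 0 := sum_ne hY (by linear_combination h)
  have hσ : X + Y + Z ≠ 0 := by
    intro h0
    rw [h0] at h3abc
    have : (3 : K) * ((X + Y) * (Y + Z) * (X + Z)) ≠ 0 :=
      mul_ne_zero three_ne_zero (mul_ne_zero (mul_ne_zero ha hb) hc)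
    apply this
    rw [h3abc]
    ring
  obtain ⟨t, ht⟩ : ∃ t, t = (X + Y + Z) / (X + Y) := ⟨_, rfl⟩
  obtain ⟨r, hr⟩ : ∃ r, r = (X + Z) / (X + Y + Z) := ⟨_, rfl⟩
  have ht0 : t ≠ 0 := by rw [ht]; exact div_ne_zero hσ ha
  have hr0 : r ≠ 0 := by rw [hr]; exact div_ne_zero hc hσ
  have E1 : (A : K) * r + B + C * t = 0 := by
    rw [ht, hr]
    field_simp
    linear_combination hrel
  have E2 : 3 * r * (2 * t - 1 - r * t) = t ^ 2 := by
    rw [ht, hr]
    field_simp
    linear_combination h3abc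
  by_cases hq : ∃ q : ℚ, (q : K) = t
  · left
    obtain ⟨q, hq⟩ := hq
    refine ⟨1 - q, 1 - q, 1, fun h0 => one_ne_zero h0.2.2, ?_⟩
    have h5 : t * (X + Y) = X + Y + Z := by rw [ht]; field_simp
    push_cast
    rw [hq]
    linear_combination -h5
  push Not at hq
  right
  have hAK : (A : K) ≠ 0 := by exact_mod_cast hA
  have hC : C ≠ 0 := by
    rintro rfl
    have h6 : r = ((-B / A : ℚ) : K) := by
      push_cast
      field_simp
      push_cast at E1
      linear_combination E1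
    have h7 := COLP.indep hK hq (a := 1) (b := -(6 * (-B / A) - 3 * (-B / A) ^ 2)) (c := 3 * (-B / A)) (by
      rw [h6] at E2
      push_cast at E2 ⊢
      linear_combination -E2)
    exact one_ne_zero h7.1
  have hCK : (C : K) ≠ 0 := by exact_mod_cast hC
  have hrq : r ∉ (algebraMap ℚ K).range := by
    rintro ⟨q, hq'⟩
    apply hq (-(A * q + B) / C)
    rw [eq_ratCast] at hq'
    push_cast
    rw [hq']
    field_simp
    linear_combination -E1
  have htq : t ∉ (algebraMap ℚ K).range := by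
    rintro ⟨q, hq'⟩
    exact hq q (by rw [← hq', eq_ratCast])
  have hp : (Module.finrank ℚ K).Prime := by rw [hK]; exact Nat.prime_three
  have hNt : Algebra.norm ℚ t = A * B / C ^ 2 := by
    have h1 := norm_of_root K hp t htq
      (Polynomial.X ^ 3 +
        Polynomial.C ((A ^ 2 + 3 * C * (B + 2 * A) + 3 * B * C) / (3 * C ^ 2)) * Polynomial.X ^ 2 +
        Polynomial.C ((3 * B * (B + 2 * A) - 3 * A * C) / (3 * C ^ 2)) * Polynomial.X +
        Polynomial.C (-(A * B) / C ^ 2)) (by monicity!) (by rw [hK]; compute_degree!) (by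
        simp only [map_add, map_mul, map_pow, aeval_X, aeval_C, eq_ratCast]
        push_cast
        field_simp
        linear_combination (-(A : K) ^ 2) * E2 +
          (3 * (2 * A * t - A) - 3 * t * (A * r - (B + C * t))) * E1)
    rw [h1, hK]
    simp [coeff_X, coeff_C]
    ring
  have hNr : Algebra.norm ℚ r = B ^ 2 / (3 * A * C) := by
    have h1 := norm_of_root K hp r hrq
      (Polynomial.X ^ 3 +
        Polynomial.C ((3 * B * C - 6 * A * C - A ^ 2) / (3 * A * C)) * Polynomial.X ^ 2 +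
        Polynomial.C ((-6 * B * C - 3 * C ^ 2 - 2 * A * B) / (3 * A * C)) * Polynomial.X +
        Polynomial.C (-B ^ 2 / (3 * A * C))) (by monicity!) (by rw [hK]; compute_degree!) (by
        simp only [map_add, map_mul, map_pow, aeval_X, aeval_C, eq_ratCast]
        push_cast
        field_simp
        linear_combination ((C : K) ^ 2) * E2 -
          (3 * r * C * (2 - r) - (C * t - B - A * r)) * E1)
    rw [h1, hK]
    simp [coeff_X, coeff_C]
    ring
  have hB : B ≠ 0 := by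
    rintro rfl
    rw [mul_zero, zero_div, Algebra.norm_eq_zero_iff] at hNt
    exact ht0 hNt
  refine ⟨B / C, div_ne_zero hB hC, ?_⟩
  have h8 : X + Z = t * r * (X + Y) := by
    rw [ht, hr]
    field_simp
  have h9 : Algebra.norm ℚ (X + Z) = (A * B / C ^ 2) * (B ^ 2 / (3 * A * C)) * Algebra.norm ℚ (X + Y) := by
    conv_lhs => rw [h8]
    rw [map_mul, map_mul, hNt, hNr]
  rw [h9]
  field_simp

/-- **The second alternative.** -/
theorem alternatives (K : Type) [Field K] [NumberField K] (hK : Module.finrank ℚ K = 3)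
    (X Y Z : K) (hX : X ≠ 0) (hY : Y ≠ 0) (hZ : Z ≠ 0) (h : X ^ 3 + Y ^ 3 + Z ^ 3 = 0) :
    (∃ a b c : ℚ, ¬ (a = 0 ∧ b = 0 ∧ c = 0) ∧ (a : K) * X + b * Y + c * Z = 0) ∨
    (∃ u : ℚ, u ≠ 0 ∧ 3 * Algebra.norm ℚ (X + Z) = u ^ 3 * Algebra.norm ℚ (X + Y)) ∨
    (∃ u : ℚ, u ≠ 0 ∧ 3 * Algebra.norm ℚ (Y + Z) = u ^ 3 * Algebra.norm ℚ (X + Y)) := by
  rcases mainCOL2 K hK X Y Z hX hY hZ h with h1 | ⟨A, B, C, hA, h1⟩ | ⟨A, B, C, hA, h1⟩
  · exact Or.inl h1
  · rcases norm_quot K hK X Y Z hX hY hZ h A B C hA h1 with h2 | h2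
    · exact Or.inl h2
    · exact Or.inr (Or.inl h2)
  · rcases norm_quot K hK Y X Z hY hX hZ (by linear_combination h) A B C hA
      (by linear_combination h1) with ⟨a, b, c, h2, h3⟩ | ⟨u, hu, h2⟩
    · exact Or.inl ⟨b, a, c, fun h4 => h2 ⟨h4.2.1, h4.1, h4.2.2⟩, by linear_combination h3⟩
    · refine Or.inr (Or.inr ⟨u, hu, ?_⟩)
      rw [h2, add_comm Y X]

end Pool.Agent.H47N
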