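import Pool.Agent.H47N.VN
import Pool.Agent.H47N.KIL
import Pool.Agent.H47N.COL

/-!
# Project NS: `3` unramified, and all primes above `3` divide `Z`
-/

set_option autoImplicit false

namespace Pool.Agent.H47N

open NumberField IsDedekindDomain

namespace LOC2

variable {K : Type} [Field K] [NumberField K]

/-- an integral multiple by a number prime to `3` -/
theorem exists_mult (η : K)
    (hη : ∀ w : HeightOneSpectrum (𝓞 K), (3 : 𝓞 K) ∈ w.asIdeal → w.valuation K η ≤ 1) :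
    ∀ n : ℕ, n ≠ 0 → (∃ x : 𝓞 K, algebraMap (𝓞 K) K x = (n : K) * η) →
      ∃ s : ℕ, s ≠ 0 ∧ ¬ 3 ∣ s ∧ ∃ x : 𝓞 K, algebraMap (𝓞 K) K x = (s : K) * η := by
  intro n
  induction n using Nat.strong_induction_on with
  | _ n ih =>
    intro hn hx
    by_cases h3 : 3 ∣ n
    · obtain ⟨m, rfl⟩ := h3
      refine ih m (by omega) (by omega) ?_
      have h1 : (m : K) * η ∈ (algebraMap (𝓞 K) K).range := by
        refine HeightOneSpectrum.mem_integers_of_valuation_le_one K _ fun w' => ?_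
        by_cases h : (3 : 𝓞 K) ∈ w'.asIdeal
        · rw [map_mul]
          have := VN.val_int_le w' (m : ℤ)
          rw [Int.cast_natCast] at this
          exact mul_le_one' this (hη w' h)
        · obtain ⟨x, hx⟩ := hx
          have h4 : w'.valuation K (algebraMap (𝓞 K) K x) ≤ 1 := w'.valuation_le_one (K := K) x
          rw [hx] at h4
          have h5 : ((3 * m : ℕ) : K) * η = 3 * ((m : K) * η) := by push_cast; ring
          rw [h5, map_mul, VN.val_three_eq w' h, one_mul] at h4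
          exact h4
      obtain ⟨x, hx⟩ := h1
      exact ⟨x, hx⟩
    · exact ⟨n, hn, h3, hx⟩

theorem exists_nat (η : K) : ∃ n : ℕ, n ≠ 0 ∧ ∃ x : 𝓞 K, algebraMap (𝓞 K) K x = (n : K) * η := by
  obtain ⟨d, hd, hd2⟩ := exists_integral_multiples ℤ ℚ ({η} : Finset K)
  have h1 := hd2 η (by simp)
  have h2 : IsIntegral ℤ ((d.natAbs : K) * η) := by
    have h4 : (d.natAbs : K) = ((d.natAbs : ℤ) : K) := (Int.cast_natCast _).symm
    rw [h4]
    rcases Int.natAbs_eq d with h | h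
    · rw [← h, ← zsmul_eq_mul]
      exact h1
    · have h5 : ((d.natAbs : ℕ) : ℤ) = -d := by omega
      rw [h5, Int.cast_neg, neg_mul, ← zsmul_eq_mul]
      exact h1.neg
  exact ⟨d.natAbs, Int.natAbs_ne_zero.2 hd, ⟨_, h2⟩, rfl⟩

/-- the local computation -/
theorem loc (w : HeightOneSpectrum (𝓞 K)) (hV : w.valuation K (3 : K) = WithZero.exp (-1 : ℤ))
    (X Y Z : K) (hX : X ≠ 0) (hY : Y ≠ 0) (hZ : Z ≠ 0) (h : X ^ 3 + Y ^ 3 + Z ^ 3 = 0)
    (hXY : X + Y ≠ 0) (hlt : w.valuation K Z < w.valuation K X) :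
    w.valuation K ((X + Y) / (3 * Z)) ≤ 1 := by
  have ne : ∀ {x : K}, x ≠ 0 → w.valuation K x ≠ 0 := fun hx => (Valuation.ne_zero_iff _).2 hx
  obtain ⟨p, hp⟩ : ∃ p : ℤ, w.valuation K X = WithZero.exp (-p) :=
    ⟨-(WithZero.log (w.valuation K X)), by rw [neg_neg, WithZero.exp_log (ne hX)]⟩
  obtain ⟨q, hq⟩ : ∃ q : ℤ, w.valuation K Z = WithZero.exp (-q) :=
    ⟨-(WithZero.log (w.valuation K Z)), by rw [neg_neg, WithZero.exp_log (ne hZ)]⟩
  obtain ⟨m, hm⟩ : ∃ m : ℤ, w.valuation K (X + Y) = WithZero.exp (-m) :=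
    ⟨-(WithZero.log (w.valuation K (X + Y))), by rw [neg_neg, WithZero.exp_log (ne hXY)]⟩
  have hpq : p < q := by
    rw [hp, hq, WithZero.exp_lt_exp] at hlt
    omega
  have hYp : w.valuation K Y = WithZero.exp (-p) := by
    have h1 : w.valuation K (Z ^ 3) < w.valuation K (X ^ 3) := by
      rw [map_pow, map_pow, hp, hq, ← WithZero.exp_nsmul, ← WithZero.exp_nsmul,
        WithZero.exp_lt_exp]
      simp only [nsmul_eq_mul, Nat.cast_ofNat]
      omega
    have h2 : w.valuation K (Y ^ 3) = w.valuation K (X ^ 3) := by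
      have h4 : Y ^ 3 = -(X ^ 3 + Z ^ 3) := by linear_combination h
      rw [h4, Valuation.map_neg]
      exact Valuation.map_add_eq_of_lt_left _ h1
    obtain ⟨y, hy⟩ : ∃ y : ℤ, w.valuation K Y = WithZero.exp (-y) :=
      ⟨-(WithZero.log (w.valuation K Y)), by rw [neg_neg, WithZero.exp_log (ne hY)]⟩
    rw [map_pow, map_pow, hp, hy, ← WithZero.exp_nsmul, ← WithZero.exp_nsmul,
      WithZero.exp_inj] at h2
    simp only [nsmul_eq_mul, Nat.cast_ofNat] at h2
    rw [hy]
    congr 1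
    omega
  have hpm : p ≤ m := by
    have h1 := Valuation.map_add (w.valuation K) X Y
    rw [hp, hYp, hm, max_self, WithZero.exp_le_exp] at h1
    omega
  have h3XY : w.valuation K (-(3 * (X * Y))) = WithZero.exp (-(1 + 2 * p)) := by
    rw [Valuation.map_neg, map_mul, map_mul, hV, hp, hYp, ← WithZero.exp_add, ← WithZero.exp_add]
    congr 1; ring
  have hsq : w.valuation K ((X + Y) ^ 2) = WithZero.exp (-(2 * m)) := by
    rw [map_pow, hm, ← WithZero.exp_nsmul]
    congr 1; simp only [nsmul_eq_mul, Nat.cast_ofNat]; ring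
  have hsum := KILP.val_add_ne w hsq h3XY (by omega)
  have hprod : (X + Y) * ((X + Y) ^ 2 + -(3 * (X * Y))) = -(Z ^ 3) := by linear_combination h
  have hv := congrArg (w.valuation K) hprod
  rw [map_mul, hm, hsum, Valuation.map_neg, map_pow, hq, ← WithZero.exp_nsmul, ← WithZero.exp_add,
    WithZero.exp_inj] at hv
  simp only [nsmul_eq_mul, Nat.cast_ofNat] at hv
  rw [map_div₀, map_mul, hm, hV, hq, ← WithZero.exp_add, ← WithZero.exp_sub, ← WithZero.exp_zero,
    WithZero.exp_le_exp]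
  rcases min_cases (2 * m) (1 + 2 * p) with h5 | h5 <;> omega

end LOC2

/-- If `3` is unramified in the cubic field `K` and all primes above `3` divide `Z` then `X, Y, Z` are
linearly dependent. -/
theorem same_variable (K : Type) [Field K] [NumberField K] (hK : Module.finrank ℚ K = 3)
    (hunr : ∀ w : HeightOneSpectrum (𝓞 K), (3 : 𝓞 K) ∈ w.asIdeal → (3 : 𝓞 K) ∉ w.asIdeal ^ 2)
    (X Y Z : K) (hX : X ≠ 0) (hY : Y ≠ 0) (hZ : Z ≠ 0) (h : X ^ 3 + Y ^ 3 + Z ^ 3 = 0)
    (hlt : ∀ w : HeightOneSpectrum (𝓞 K), (3 : 𝓞 K) ∈ w.asIdeal →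
      w.valuation K Z < w.valuation K X) :
    ∃ a b c : ℚ, ¬ (a = 0 ∧ b = 0 ∧ c = 0) ∧ (a : K) * X + b * Y + c * Z = 0 := by
  have hXY : X + Y ≠ 0 := by
    intro h2
    apply hZ
    have h4 : Z ^ 3 = 0 := by
      have : Y = -X := by linear_combination h2
      rw [this] at h
      linear_combination h
    exact (pow_eq_zero_iff (by norm_num)).1 h4
  have hη : ∀ w : HeightOneSpectrum (𝓞 K), (3 : 𝓞 K) ∈ w.asIdeal →
      w.valuation K ((X + Y) / (3 * Z)) ≤ 1 := by
    intro w hw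
    have hV : w.valuation K (3 : K) = WithZero.exp (-1 : ℤ) := by
      have e : (3 : K) = algebraMap (𝓞 K) K 3 := by rw [map_ofNat]
      rw [e, HeightOneSpectrum.valuation_of_algebraMap]
      have h1 : w.intValuation 3 ≤ WithZero.exp (-(1 : ℕ) : ℤ) :=
        (w.intValuation_le_pow_iff_mem 3 1).2 (by rwa [pow_one])
      have h2 : ¬ w.intValuation 3 ≤ WithZero.exp (-(2 : ℕ) : ℤ) := fun h =>
        hunr w hw ((w.intValuation_le_pow_iff_mem 3 2).1 h)
      have h0 : w.intValuation 3 ≠ 0 := w.intValuation_ne_zero 3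
        (fun h => hunr w hw (by rw [h]; exact Ideal.zero_mem _))
      obtain ⟨k, hk⟩ : ∃ k : ℤ, w.intValuation 3 = WithZero.exp k :=
        ⟨_, (WithZero.exp_log h0).symm⟩
      rw [hk] at h1 h2 ⊢
      rw [WithZero.exp_le_exp] at h1 h2
      congr 1
      push_cast at h1 h2
      omega
    exact LOC2.loc w hV X Y Z hX hY hZ h hXY (hlt w hw)
  obtain ⟨n, hn, hx⟩ := LOC2.exists_nat ((X + Y) / (3 * Z))
  obtain ⟨s, hs0, hs, θ, hθ⟩ := LOC2.exists_mult _ hη n hn hx
  refine mainCOL K hK X Y Z hX hY hZ h (s : ℤ) θ (by exact_mod_cast hs) ?_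
  have h5 : (θ : K) = (s : K) * ((X + Y) / (3 * Z)) := hθ
  rw [h5]
  push_cast
  field_simp

end Pool.Agent.H47N
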