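import Pool.Agent.H47N.AsmC
import Pool.Agent.H47N.INC
import Pool.Agent.H47N.LOC2

/-!
# Project NS, final assembly for cubic fields
-/

set_option autoImplicit false

namespace Pool.Agent.H47N

open NumberField IsDedekindDomain

theorem exists_above3 (F : Type) [Field F] [NumberField F] :
    ∃ w : HeightOneSpectrum (𝓞 F), (3 : 𝓞 F) ∈ w.asIdeal := by
  have h1 : (Ideal.span {((3 : ℕ) : 𝓞 F)}) ≠ ⊤ := by
    intro h2
    have h3 : Ideal.absNorm (Ideal.span {((3 : ℕ) : 𝓞 F)}) = 3 ^ Module.finrank ℚ F := by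
      rw [Ideal.absNorm_span_natCast, RingOfIntegers.rank]
    rw [h2, Ideal.absNorm_top] at h3
    have h4 : 1 < 3 ^ Module.finrank ℚ F := Nat.one_lt_pow Module.finrank_pos.ne' (by norm_num)
    omega
  obtain ⟨M, hM, hle⟩ := Ideal.exists_le_maximal _ h1
  have h2 : ((3 : ℕ) : 𝓞 F) ∈ M := hle (Ideal.mem_span_singleton_self _)
  have h3 : M ≠ ⊥ := by
    rintro rfl
    have h4 : ((3 : ℕ) : 𝓞 F) = 0 := Ideal.mem_bot.1 h2
    exact absurd (show (3 : ℕ) = 0 by exact_mod_cast h4) (by norm_num)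
  exact ⟨⟨M, hM.isPrime, h3⟩, by exact_mod_cast h2⟩

/-- The second alternative for a solution of `X ^ 3 + Y ^ 3 + Z ^ 3 = 0` over the cubic field `K`. -/
def Exc (K : Type) [Field K] [NumberField K] (X Y Z : K) : Prop :=
  (∃ w w' : HeightOneSpectrum (𝓞 K), w ≠ w' ∧ (3 : 𝓞 K) ∈ w.asIdeal ∧ (3 : 𝓞 K) ∈ w'.asIdeal) ∧
  ((∀ w : HeightOneSpectrum (𝓞 K), (3 : 𝓞 K) ∈ w.asIdeal → (3 : 𝓞 K) ∉ w.asIdeal ^ 2) →
    (∃ w : HeightOneSpectrum (𝓞 K), (3 : 𝓞 K) ∈ w.asIdeal ∧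
      ¬ w.valuation K Z < w.valuation K X) ∧
    (∃ w : HeightOneSpectrum (𝓞 K), (3 : 𝓞 K) ∈ w.asIdeal ∧
      ¬ w.valuation K X < w.valuation K Y) ∧
    (∃ w : HeightOneSpectrum (𝓞 K), (3 : 𝓞 K) ∈ w.asIdeal ∧
      ¬ w.valuation K Y < w.valuation K Z)) ∧
  ¬ (3 : ℤ) ∣ padicValRat 3 (Algebra.norm ℚ (X + Y)) - padicValRat 3 (Algebra.norm ℚ (Y + Z)) ∧
  ¬ (3 : ℤ) ∣ padicValRat 3 (Algebra.norm ℚ (Y + Z)) - padicValRat 3 (Algebra.norm ℚ (X + Z)) ∧
  ¬ (3 : ℤ) ∣ padicValRat 3 (Algebra.norm ℚ (X + Z)) - padicValRat 3 (Algebra.norm ℚ (X + Y))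

theorem padic3 {a b u : ℚ} (ha : a ≠ 0) (hb : b ≠ 0) (hu : u ≠ 0) (h : 3 * a = u ^ 3 * b) :
    1 + padicValRat 3 a = 3 * padicValRat 3 u + padicValRat 3 b := by
  have : Fact (Nat.Prime 3) := ⟨Nat.prime_three⟩
  have h1 := congrArg (padicValRat 3) h
  have h3 : padicValRat 3 (3 : ℚ) = 1 := by
    have := padicValRat.self (p := 3) (by norm_num)
    exact_mod_cast this
  rw [padicValRat.mul (by norm_num) ha, padicValRat.mul (pow_ne_zero _ hu) hb,
    padicValRat.pow u, h3] at h1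
  exact_mod_cast h1

theorem norm_or_exc (K : Type) [Field K] [NumberField K] (hK : Module.finrank ℚ K = 3)
    (X Y Z : K) (hX : X ≠ 0) (hY : Y ≠ 0) (hZ : Z ≠ 0) (h : X ^ 3 + Y ^ 3 + Z ^ 3 = 0) :
    Algebra.norm ℚ X + Algebra.norm ℚ Y + Algebra.norm ℚ Z = 0 ∨ Exc K X Y Z := by
  by_cases hN : Algebra.norm ℚ X + Algebra.norm ℚ Y + Algebra.norm ℚ Z = 0
  · exact Or.inl hN
  right
  have hlin : ¬ ∃ a b c : ℚ, ¬ (a = 0 ∧ b = 0 ∧ c = 0) ∧ (a : K) * X + b * Y + c * Z = 0 := by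
    rintro ⟨a, b, c, habc, h1⟩
    exact hN (mainNSUM K hK X Y Z hX hY hZ h a b c habc h1)
  refine ⟨?_, ?_, ?_⟩
  · by_contra h1
    push Not at h1
    obtain ⟨w, hw⟩ := exists_above3 K
    exact hN (norm_sum_one K hK w hw (fun w' hw' => by
      by_contra h2
      exact h1 w' w h2 hw' hw) X Y Z hX hY hZ h)
  · intro hunr
    refine ⟨?_, ?_, ?_⟩
    · by_contra h1
      push Not at h1
      exact hlin (same_variable K hK hunr X Y Z hX hY hZ h h1)
    · by_contra h1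
      push Not at h1
      obtain ⟨a, b, c, h2, h3⟩ := same_variable K hK hunr Y Z X hY hZ hX
        (by linear_combination h) h1
      exact hlin ⟨c, a, b, fun h4 => h2 ⟨h4.2.1, h4.2.2, h4.1⟩, by linear_combination h3⟩
    · by_contra h1
      push Not at h1
      obtain ⟨a, b, c, h2, h3⟩ := same_variable K hK hunr Z X Y hZ hX hY
        (by linear_combination h) h1
      exact hlin ⟨b, c, a, fun h4 => h2 ⟨h4.2.2, h4.1, h4.2.1⟩, by linear_combination h3⟩
  · have : Fact (Nat.Prime 3) := ⟨Nat.prime_three⟩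
    have ha : Algebra.norm ℚ (X + Y) ≠ 0 := Algebra.norm_ne_zero_iff.2 (sum_ne hZ h)
    have hb : Algebra.norm ℚ (Y + Z) ≠ 0 :=
      Algebra.norm_ne_zero_iff.2 (sum_ne hX (by linear_combination h))
    have hc : Algebra.norm ℚ (X + Z) ≠ 0 :=
      Algebra.norm_ne_zero_iff.2 (sum_ne hY (by linear_combination h))
    have h3abc : 3 * ((X + Y) * (Y + Z) * (X + Z)) = (X + Y + Z) ^ 3 := by
      linear_combination -h
    have hσ : Algebra.norm ℚ (X + Y + Z) ≠ 0 := by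
      rw [Algebra.norm_ne_zero_iff]
      intro h0
      rw [h0] at h3abc
      have : (3 : K) * ((X + Y) * (Y + Z) * (X + Z)) ≠ 0 :=
        mul_ne_zero three_ne_zero (mul_ne_zero (mul_ne_zero
          (Algebra.norm_ne_zero_iff.1 ha) (Algebra.norm_ne_zero_iff.1 hb))
          (Algebra.norm_ne_zero_iff.1 hc))
      apply this
      rw [h3abc]
      ring
    have hprod := congrArg (Algebra.norm ℚ) h3abc
    have h27 : Algebra.norm ℚ (3 : K) = 27 := by
      have e : (3 : K) = algebraMap ℚ K 3 := by rw [map_ofNat]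
      rw [e, Algebra.norm_algebraMap, hK]
      norm_num
    rw [map_mul, map_mul, map_mul, map_pow, h27] at hprod
    have h5 := congrArg (padicValRat 3) hprod
    have h3 : padicValRat 3 (3 : ℚ) = 1 := by
      have := padicValRat.self (p := 3) (by norm_num)
      exact_mod_cast this
    have h27' : padicValRat 3 (27 : ℚ) = 3 := by
      have e : (27 : ℚ) = 3 ^ 3 := by norm_num
      rw [e, padicValRat.pow, h3]
      norm_num
    rw [padicValRat.mul (by norm_num) (mul_ne_zero (mul_ne_zero ha hb) hc),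
      padicValRat.mul (mul_ne_zero ha hb) hc, padicValRat.mul ha hb, padicValRat.pow, h27'] at h5
    push_cast at h5
    rcases alternatives K hK X Y Z hX hY hZ h with h6 | ⟨u, hu, h6⟩ | ⟨u, hu, h6⟩
    · exact absurd h6 hlin
    · have h7 := padic3 hc ha hu h6
      omega
    · have h7 := padic3 hb ha hu h6
      omega

end Pool.Agent.H47N
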