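import Pool.Agent.H47N.Stm3

/-!
# Project NS, part 3: assembly of the arithmetic
-/

set_option autoImplicit false

namespace Pool.Agent.H47N

open NumberField IsDedekindDomain

/-- a nontrivial coprime solution of `c ^ (2 n) + 3 b ^ 2 = 4 d ^ n` -/
def Sol (n : ℕ) : Prop := ∃ c d b : ℤ, IsCoprime c d ∧ 1 < d ∧ c ≠ 0 ∧ b ≠ 0 ∧ ¬ (3 : ℤ) ∣ c ∧
    c ^ (2 * n) + 3 * b ^ 2 = 4 * d ^ n

theorem core (hARA : S_ARA) (hARB : S_ARB) (hFINQ : S_FINQ) (n : ℕ) (hn : Odd n) (h3 : 3 ≤ n)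
    (A B C : ℤ) (hA : A ≠ 0) (hB : B ≠ 0) (hC : C ≠ 0)
    (hcop : ∀ l : ℕ, l.Prime → ¬ ((l : ℤ) ∣ A ∧ (l : ℤ) ∣ B ∧ (l : ℤ) ∣ C)) (h3A : ¬ (3 : ℤ) ∣ A)
    (u v : ℚ) (j₁ j₂ : ℤ) (hu : (B : ℚ) ^ 3 = 3 * (C : ℚ) ^ 3 * (u ^ (3 * n) * (3 : ℚ) ^ j₁))
    (hv : (A : ℚ) ^ 3 = 9 * (C : ℚ) ^ 3 * (v ^ (3 * n) * (3 : ℚ) ^ j₂))
    (x y z w NS : ℚ) (j₃ : ℤ) (hx : x ≠ 0) (hy : y ≠ 0) (hz : z ≠ 0) (hw : w ≠ 0) (hNS : NS ≠ 0)
    (e1 : (A : ℚ) * B * (w ^ n * (3 : ℚ) ^ j₃) = (C : ℚ) ^ 2 * NS)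
    (e2 : 3 * (A : ℚ) * B * z ^ n = -((A : ℚ) ^ 2 + 3 * A * (B + C) + 3 * (B + C) ^ 2) * NS)
    (e3 : 3 * (A : ℚ) * C * y ^ n = -(((A : ℚ) + B) ^ 2 + 3 * C * (A + B) + 3 * (C : ℚ) ^ 2) * NS)
    (e4 : 9 * (B : ℚ) * C * x ^ n = -(((A : ℚ) + 3 * C) ^ 2 + 3 * B * (A + 3 * C) + 3 * (B : ℚ) ^ 2) * NS) :
    Sol n := by
  obtain ⟨a, b, c, j, k, ha, hb, hc, h3b, h3c⟩ := hARA n hn A B C hA hB hC hcop h3A u v j₁ j₂ hu hv
  obtain ⟨⟨q, hq⟩, ⟨q', hq'⟩, hk, hQY⟩ := hARB n hn h3 A B C a b c j k hA hB hC ha hb hc h3A h3b h3c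
    x y z w NS j₃ hx hy hz hw hNS e1 e2 e3 e4
  have ha0 : a ≠ 0 := by
    rintro rfl
    apply hA
    rw [ha, zero_pow (by omega)]
  have h3a : ¬ (3 : ℤ) ∣ a := fun h => h3A (by rw [ha]; exact dvd_pow h (by omega))
  have h3C : (3 : ℤ) ∣ C := by
    rw [hc]
    apply Dvd.dvd.mul_right
    apply dvd_pow_self
    rintro rfl
    have h5 : (n : ℤ) ∣ 1 := by simpa using hk
    have h6 := Int.le_of_dvd one_pos h5
    omega
  have hA2 : a ^ (2 * n) = A ^ 2 := by rw [ha]; ring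
  rcases hFINQ n hn h3 a q (A + 2 * (B + C)) ha0 h3a (by rw [hA2, ← hq]; ring) with h5 | h5
  · exact h5
  rw [hA2] at h5
  have h6 : (B + C) * (A + (B + C)) = 0 := by
    have h60 : 4 * ((B + C) * (A + (B + C))) = 0 := by linear_combination h5
    rcases mul_eq_zero.1 h60 with h61 | h61
    · norm_num at h61
    · exact h61
  rcases mul_eq_zero.1 h6 with h7 | h7
  · -- `B + C = 0`
    have h8 : B = -C := by linarith
    rcases hFINQ n hn h3 a q' (A + 2 * C) ha0 h3a (by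
      rw [hA2, ← hq', h8]; ring) with h9 | h9
    · exact h9
    rw [hA2] at h9
    have h10 : C * (A + C) = 0 := by
      have h60 : 4 * (C * (A + C)) = 0 := by linear_combination h9
      rcases mul_eq_zero.1 h60 with h61 | h61
      · norm_num at h61
      · exact h61
    rcases mul_eq_zero.1 h10 with h11 | h11
    · exact absurd h11 hC
    · exfalso
      apply h3A
      have : A = -C := by linarith
      rw [this]
      exact (dvd_neg).2 h3C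
  · -- `A + B + C = 0`
    exfalso
    have h8 : A + B = -C := by linarith
    apply hQY
    · intro h9
      apply h3A
      have : A = -(B + C) := by linarith
      rw [this, dvd_neg]
      exact dvd_add h9 h3C
    · rw [h8]; ring

/-- the linear alternative -/
def Lin (K : Type) [Field K] (X Y Z : K) : Prop :=
  ∃ a b c : ℚ, ¬ (a = 0 ∧ b = 0 ∧ c = 0) ∧ (a : K) * X + b * Y + c * Z = 0

theorem sum3_ne {K : Type} [Field K] {x y z : K} (hz : z ≠ 0)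
    (h1 : x ^ 3 + y ^ 3 + z ^ 3 = 0) : x + y ≠ 0 := by
  intro h2
  apply hz
  have h4 : z ^ 3 = 0 := by
    have : y = -x := by linear_combination h2
    rw [this] at h1
    linear_combination h1
  exact (pow_eq_zero_iff (by norm_num)).1 h4

theorem sig_ne {K : Type} [Field K] [NumberField K] {X Y Z : K} (hX : X ≠ 0) (hY : Y ≠ 0)
    (hZ : Z ≠ 0) (h : X ^ 3 + Y ^ 3 + Z ^ 3 = 0) : X + Y + Z ≠ 0 := by
  have h3abc : 3 * ((X + Y) * (Y + Z) * (X + Z)) = (X + Y + Z) ^ 3 := by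
    linear_combination -h
  have ha : X + Y ≠ 0 := sum3_ne hZ h
  have hb : Y + Z ≠ 0 := sum3_ne hX (by linear_combination h)
  have hc : X + Z ≠ 0 := sum3_ne hY (by linear_combination h)
  intro h0
  rw [h0] at h3abc
  have : (3 : K) * ((X + Y) * (Y + Z) * (X + Z)) ≠ 0 :=
    mul_ne_zero three_ne_zero (mul_ne_zero (mul_ne_zero ha hb) hc)
  apply this
  rw [h3abc]
  ring

theorem coreK (hLIN : S_LIN) (hNF6 : S_NF6) (hVALR : S_VALR) (hGENN : S_GENN) (hARA : S_ARA)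
    (hARB : S_ARB) (hFINQ : S_FINQ) (K : Type) [Field K] [NumberField K]
    (hK : Module.finrank ℚ K = 3) (n : ℕ) (hn : Odd n) (h3 : 3 ≤ n) (x y z : K) (hx : x ≠ 0)
    (hy : y ≠ 0) (hz : z ≠ 0) (h : (x ^ n) ^ 3 + (y ^ n) ^ 3 + (z ^ n) ^ 3 = 0) (A B C : ℤ)
    (hA : A ≠ 0) (hcop : ∀ l : ℕ, l.Prime → ¬ ((l : ℤ) ∣ A ∧ (l : ℤ) ∣ B ∧ (l : ℤ) ∣ C))
    (h3A : ¬ (3 : ℤ) ∣ A)
    (hrel : ((A : ℚ) : K) * ((x ^ n + y ^ n) * (x ^ n + z ^ n)) +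
      ((B : ℚ) : K) * ((x ^ n + y ^ n) * (x ^ n + y ^ n + z ^ n)) +
      ((C : ℚ) : K) * (x ^ n + y ^ n + z ^ n) ^ 2 = 0) :
    Lin K (x ^ n) (y ^ n) (z ^ n) ∨ Sol n := by
  have hX : x ^ n ≠ 0 := pow_ne_zero _ hx
  have hY : y ^ n ≠ 0 := pow_ne_zero _ hy
  have hZ : z ^ n ≠ 0 := pow_ne_zero _ hz
  have hAq : (A : ℚ) ≠ 0 := by exact_mod_cast hA
  rcases hNF6 hLIN K hK _ _ _ hX hY hZ h A B C hAq hrel with h1 | ⟨hB, hC, e1, e2, e3, e4, e5, e6⟩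
  · left; exact h1
  right
  have hn0 : 0 < n := by omega
  have hV := hVALR K n hn0 x y z hx hy hz h
  have ha : x ^ n + y ^ n ≠ 0 := sum3_ne hZ h
  have hb : y ^ n + z ^ n ≠ 0 := sum3_ne hX (by linear_combination h)
  have hc : x ^ n + z ^ n ≠ 0 := sum3_ne hY (by linear_combination h)
  have hσ := sig_ne hX hY hZ h
  obtain ⟨w, j₃, hw⟩ := hGENN K n hn _ ha (fun v hv => (hV v hv).1)
  have hodd3 : Odd (3 * n) := Odd.mul (by decide) hn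
  obtain ⟨u, j₁, hu⟩ := hGENN K (3 * n) hodd3 _ (div_ne_zero hc ha) (fun v hv => (hV v hv).2.1)
  obtain ⟨v, j₂, hv⟩ := hGENN K (3 * n) hodd3 _ (div_ne_zero hb ha) (fun v hv => (hV v hv).2.2)
  have hNa : Algebra.norm ℚ (x ^ n + y ^ n) ≠ 0 := Algebra.norm_ne_zero_iff.2 ha
  have hNσ : Algebra.norm ℚ (x ^ n + y ^ n + z ^ n) ≠ 0 := Algebra.norm_ne_zero_iff.2 hσ
  have hB0 : B ≠ 0 := by exact_mod_cast hB
  have hC0 : C ≠ 0 := by exact_mod_cast hC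
  have hdiv : ∀ s t : K, t ≠ 0 → Algebra.norm ℚ s = Algebra.norm ℚ (s / t) * Algebra.norm ℚ t := by
    intro s t ht
    rw [← map_mul, div_mul_cancel₀ _ ht]
  have hNc := hdiv (x ^ n + z ^ n) _ ha
  have hNb := hdiv (y ^ n + z ^ n) _ ha
  rw [hu] at hNc
  rw [hv] at hNb
  have hw0 : w ≠ 0 := by
    rintro rfl
    rw [zero_pow (by omega), zero_mul] at hw
    exact hNa hw
  refine core hARA hARB hFINQ n hn h3 A B C hA hB0 hC0 hcop h3A u v j₁ j₂ ?_ ?_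
    (Algebra.norm ℚ x) (Algebra.norm ℚ y) (Algebra.norm ℚ z) w
    (Algebra.norm ℚ (x ^ n + y ^ n + z ^ n)) j₃ (Algebra.norm_ne_zero_iff.2 hx)
    (Algebra.norm_ne_zero_iff.2 hy) (Algebra.norm_ne_zero_iff.2 hz) hw0 hNσ ?_ ?_ ?_ ?_
  · rw [hNc] at e2
    apply mul_right_cancel₀ (mul_ne_zero hAq hNa)
    apply mul_right_cancel₀ hNσ
    generalize Algebra.norm ℚ (x ^ n + y ^ n) = Na at *
    generalize Algebra.norm ℚ (x ^ n + y ^ n + z ^ n) = Ns at *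
    generalize u ^ (3 * n) * (3 : ℚ) ^ j₁ = U at *
    linear_combination (-(B : ℚ) * A * Na) * e2 + (3 * (A : ℚ) * C * U * Na) * e1
  · rw [hNb] at e3
    apply mul_right_cancel₀ (mul_ne_zero hB hNa)
    apply mul_right_cancel₀ hNσ
    generalize Algebra.norm ℚ (x ^ n + y ^ n) = Na at *
    generalize Algebra.norm ℚ (x ^ n + y ^ n + z ^ n) = Ns at *
    generalize v ^ (3 * n) * (3 : ℚ) ^ j₂ = U at *
    linear_combination (-(A : ℚ) * B * Na) * e3 + (9 * (B : ℚ) * C * U * Na) * e1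
  · rw [← hw]; exact e1
  · rw [← map_pow]; exact e4
  · rw [← map_pow]; exact e5
  · rw [← map_pow]; exact e6

end Pool.Agent.H47N
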