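import Pool.Agent.H47N.AsmE

/-!
# Project NS, part 3: scaling and rotation
-/

set_option autoImplicit false

namespace Pool.Agent.H47N

open NumberField IsDedekindDomain

theorem scale (A B C : ℚ) (hA : A ≠ 0) : ∃ (A' B' C' : ℤ) (s : ℚ), s ≠ 0 ∧ (A' : ℚ) = s * A ∧
    (B' : ℚ) = s * B ∧ (C' : ℚ) = s * C ∧
    ∀ l : ℕ, l.Prime → ¬ ((l : ℤ) ∣ A' ∧ (l : ℤ) ∣ B' ∧ (l : ℤ) ∣ C') := by
  obtain ⟨a, b, c, d, hd, ha, hb, hc⟩ : ∃ a b c d : ℤ, d ≠ 0 ∧ (a : ℚ) = d * A ∧ (b : ℚ) = d * B ∧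
      (c : ℚ) = d * C := by
    refine ⟨A.num * B.den * C.den, B.num * A.den * C.den, C.num * A.den * B.den,
      A.den * B.den * C.den, ?_, ?_, ?_, ?_⟩
    · have h1 := A.den_ne_zero
      have h2 := B.den_ne_zero
      have h3 := C.den_ne_zero
      exact_mod_cast mul_ne_zero (mul_ne_zero h1 h2) h3
    · push_cast
      have h1 := Rat.mul_den_eq_num A
      linear_combination (-(B.den : ℚ) * C.den) * h1
    · push_cast
      have h1 := Rat.mul_den_eq_num B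
      linear_combination (-(A.den : ℚ) * C.den) * h1
    · push_cast
      have h1 := Rat.mul_den_eq_num C
      linear_combination (-(A.den : ℚ) * B.den) * h1
  have hdq : (d : ℚ) ≠ 0 := by exact_mod_cast hd
  have ha0 : a ≠ 0 := by
    intro h
    rw [h] at ha
    exact mul_ne_zero hdq hA (by simpa using ha.symm)
  obtain ⟨g, hg⟩ : ∃ g : ℕ, g = Nat.gcd (Nat.gcd a.natAbs b.natAbs) c.natAbs := ⟨_, rfl⟩
  have hg0 : g ≠ 0 := by
    rw [hg]
    intro h
    have h1 := Nat.eq_zero_of_gcd_eq_zero_left h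
    have h2 := Nat.eq_zero_of_gcd_eq_zero_left h1
    exact ha0 (Int.natAbs_eq_zero.1 h2)
  have hga : (g : ℤ) ∣ a := Int.natCast_dvd.2 (hg ▸ (Nat.gcd_dvd_left _ _).trans (Nat.gcd_dvd_left _ _))
  have hgb : (g : ℤ) ∣ b := Int.natCast_dvd.2 (hg ▸ (Nat.gcd_dvd_left _ _).trans (Nat.gcd_dvd_right _ _))
  have hgc : (g : ℤ) ∣ c := Int.natCast_dvd.2 (hg ▸ Nat.gcd_dvd_right _ _)
  obtain ⟨a', ha'⟩ := hga
  obtain ⟨b', hb'⟩ := hgb
  obtain ⟨c', hc'⟩ := hgc
  have hgq : (g : ℚ) ≠ 0 := by exact_mod_cast hg0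
  refine ⟨a', b', c', d / g, div_ne_zero hdq hgq, ?_, ?_, ?_, ?_⟩
  · have : (a : ℚ) = g * a' := by rw [ha']; push_cast; ring
    rw [this] at ha
    field_simp
    linear_combination ha
  · have : (b : ℚ) = g * b' := by rw [hb']; push_cast; ring
    rw [this] at hb
    field_simp
    linear_combination hb
  · have : (c : ℚ) = g * c' := by rw [hc']; push_cast; ring
    rw [this] at hc
    field_simp
    linear_combination hc
  · rintro l hl ⟨h1, h2, h3⟩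
    have k1 : g * l ∣ a.natAbs := by
      rw [← Int.natCast_dvd]
      push_cast
      rw [ha']
      exact mul_dvd_mul_left _ h1
    have k2 : g * l ∣ b.natAbs := by
      rw [← Int.natCast_dvd]
      push_cast
      rw [hb']
      exact mul_dvd_mul_left _ h2
    have k3 : g * l ∣ c.natAbs := by
      rw [← Int.natCast_dvd]
      push_cast
      rw [hc']
      exact mul_dvd_mul_left _ h3
    have k4 : g * l ∣ g := by
      have := Nat.dvd_gcd (Nat.dvd_gcd k1 k2) k3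
      rwa [← hg] at this
    have k5 := Nat.le_of_dvd (Nat.pos_of_ne_zero hg0) k4
    have k6 := hl.two_le
    nlinarith [Nat.pos_of_ne_zero hg0]

/-- the rotation of the relation -/
theorem rot {K : Type} [Field K] [NumberField K] {X Y Z : K} (hX : X ≠ 0) (hY : Y ≠ 0)
    (hZ : Z ≠ 0) (h : X ^ 3 + Y ^ 3 + Z ^ 3 = 0) {A B C D : K} (hD : A = 3 * D)
    (hrel : A * ((X + Y) * (X + Z)) + B * ((X + Y) * (X + Y + Z)) + C * (X + Y + Z) ^ 2 = 0) :
    B * ((Y + Z) * (Y + X)) + C * ((Y + Z) * (Y + Z + X)) + D * (Y + Z + X) ^ 2 = 0 := by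
  have hσ := sig_ne hX hY hZ h
  apply mul_left_cancel₀ hσ
  rw [hD] at hrel
  linear_combination (Y + Z) * hrel + D * h

variable (hLIN : S_LIN) (hNF6 : S_NF6) (hVALR : S_VALR) (hGENN : S_GENN) (hARA : S_ARA)
    (hARB : S_ARB) (hFINQ : S_FINQ)

include hLIN hNF6 hVALR hGENN hARA hARB hFINQ in
theorem rotK (K : Type) [Field K] [NumberField K]
    (hK : Module.finrank ℚ K = 3) (n : ℕ) (hn : Odd n) (h3 : 3 ≤ n) (x y z : K) (hx : x ≠ 0)
    (hy : y ≠ 0) (hz : z ≠ 0) (h : (x ^ n) ^ 3 + (y ^ n) ^ 3 + (z ^ n) ^ 3 = 0) (A B C : ℚ)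
    (hA : A ≠ 0)
    (hrel : (A : K) * ((x ^ n + y ^ n) * (x ^ n + z ^ n)) +
      (B : K) * ((x ^ n + y ^ n) * (x ^ n + y ^ n + z ^ n)) +
      (C : K) * (x ^ n + y ^ n + z ^ n) ^ 2 = 0) :
    Lin K (x ^ n) (y ^ n) (z ^ n) ∨ Sol n := by
  have hX : x ^ n ≠ 0 := pow_ne_zero _ hx
  have hY : y ^ n ≠ 0 := pow_ne_zero _ hy
  have hZ : z ^ n ≠ 0 := pow_ne_zero _ hz
  rcases hNF6 hLIN K hK _ _ _ hX hY hZ h A B C hA hrel with h1 | ⟨hB, hC, -⟩
  · left; exact h1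
  obtain ⟨a, b, c, s, hs, ha, hb, hc, hcop⟩ := scale A B C hA
  have ha0 : a ≠ 0 := by
    intro h0
    rw [h0] at ha
    exact mul_ne_zero hs hA (by simpa using ha.symm)
  have hb0 : b ≠ 0 := by
    intro h0
    rw [h0] at hb
    exact mul_ne_zero hs hB (by simpa using hb.symm)
  have hc0 : c ≠ 0 := by
    intro h0
    rw [h0] at hc
    exact mul_ne_zero hs hC (by simpa using hc.symm)
  have hrel' : ((a : ℚ) : K) * ((x ^ n + y ^ n) * (x ^ n + z ^ n)) +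
      ((b : ℚ) : K) * ((x ^ n + y ^ n) * (x ^ n + y ^ n + z ^ n)) +
      ((c : ℚ) : K) * (x ^ n + y ^ n + z ^ n) ^ 2 = 0 := by
    rw [ha, hb, hc]
    push_cast
    linear_combination (s : K) * hrel
  by_cases h3a : (3 : ℤ) ∣ a
  · obtain ⟨a', ha'⟩ := h3a
    have hr2 := rot hX hY hZ h (A := ((a : ℚ) : K)) (D := ((a' : ℚ) : K)) (by
      rw [ha']; push_cast; ring) hrel'
    have hcyc : (y ^ n) ^ 3 + (z ^ n) ^ 3 + (x ^ n) ^ 3 = 0 := by linear_combination h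
    have ha'0 : a' ≠ 0 := by rintro rfl; exact ha0 (by rw [ha']; ring)
    by_cases h3b : (3 : ℤ) ∣ b
    · obtain ⟨b', hb'⟩ := h3b
      have hr3 := rot hY hZ hX hcyc (A := ((b : ℚ) : K)) (D := ((b' : ℚ) : K)) (by
        rw [hb']; push_cast; ring) hr2
      have h3c : ¬ (3 : ℤ) ∣ c := fun h3c =>
        hcop 3 Nat.prime_three ⟨⟨a', by rw [ha']; rfl⟩, ⟨b', by rw [hb']; rfl⟩, by exact_mod_cast h3c⟩
      rcases coreK hLIN hNF6 hVALR hGENN hARA hARB hFINQ K hK n hn h3 z x y hz hx hy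
        (by linear_combination h) c a' b' hc0 (fun l hl ⟨k1, k2, k3⟩ =>
          hcop l hl ⟨ha' ▸ k2.mul_left 3, hb' ▸ k3.mul_left 3, k1⟩) h3c hr3 with
        ⟨p, q, r, hpqr, hl⟩ | h1
      · left
        refine ⟨q, r, p, fun h0 => hpqr ⟨h0.2.2, h0.1, h0.2.1⟩, ?_⟩
        linear_combination hl
      · right; exact h1
    · rcases coreK hLIN hNF6 hVALR hGENN hARA hARB hFINQ K hK n hn h3 y z x hy hz hx
        hcyc b c a' hb0 (fun l hl ⟨k1, k2, k3⟩ =>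
          hcop l hl ⟨ha' ▸ k3.mul_left 3, k1, k2⟩) h3b hr2 with
        ⟨p, q, r, hpqr, hl⟩ | h1
      · left
        refine ⟨r, p, q, fun h0 => hpqr ⟨h0.2.1, h0.2.2, h0.1⟩, ?_⟩
        linear_combination hl
      · right; exact h1
  · exact coreK hLIN hNF6 hVALR hGENN hARA hARB hFINQ K hK n hn h3 x y z hx hy hz h a b c ha0
      hcop h3a hrel'

end Pool.Agent.H47N
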