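import Pool.Agent.H47N.AsmF
import Pool.Agent.H47N.COL2
import Pool.Agent.H47N.NSUM

/-!
# Project NS, part 3: the theorem for all cubic fields
-/

set_option autoImplicit false

namespace Pool.Agent.H47N

open NumberField IsDedekindDomain

theorem allCubic (hLIN : S_LIN) (hNF6 : S_NF6) (hVALR : S_VALR) (hGENN : S_GENN) (hARA : S_ARA)
    (hARB : S_ARB) (hFINQ : S_FINQ) (K : Type) [Field K] [NumberField K]
    (hK : Module.finrank ℚ K = 3) (n : ℕ) (hn : Odd n) (h3 : 3 ≤ n) (x y z : K) (hx : x ≠ 0)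
    (hy : y ≠ 0) (hz : z ≠ 0) (h : x ^ (3 * n) + y ^ (3 * n) = z ^ (3 * n)) :
    Algebra.norm ℚ x ^ n + Algebra.norm ℚ y ^ n = Algebra.norm ℚ z ^ n ∨ Sol n := by
  have hz' : -z ≠ 0 := neg_ne_zero.2 hz
  have h1 : (x ^ n) ^ 3 + (y ^ n) ^ 3 + ((-z) ^ n) ^ 3 = 0 := by
    have e : ∀ w : K, w ^ (3 * n) = (w ^ n) ^ 3 := fun w => by rw [mul_comm, pow_mul]
    rw [e, e, e] at h
    rw [hn.neg_pow, Odd.neg_pow (by decide), h]
    ring
  have hX : x ^ n ≠ 0 := pow_ne_zero _ hx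
  have hY : y ^ n ≠ 0 := pow_ne_zero _ hy
  have hZ : (-z) ^ n ≠ 0 := pow_ne_zero _ hz'
  have key : Lin K (x ^ n) (y ^ n) ((-z) ^ n) ∨ Sol n := by
    rcases mainCOL2 K hK _ _ _ hX hY hZ h1 with h2 | ⟨A, B, C, hA, h2⟩ | ⟨A, B, C, hA, h2⟩
    · left; exact h2
    · exact rotK hLIN hNF6 hVALR hGENN hARA hARB hFINQ K hK n hn h3 x y (-z) hx hy hz' h1 A B C hA h2
    · rcases rotK hLIN hNF6 hVALR hGENN hARA hARB hFINQ K hK n hn h3 y x (-z) hy hx hz'
        (by linear_combination h1) A B C hA (by linear_combination h2) with ⟨p, q, r, hpqr, hl⟩ | h4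
      · left
        refine ⟨q, p, r, fun h0 => hpqr ⟨h0.2.1, h0.1, h0.2.2⟩, ?_⟩
        linear_combination hl
      · right; exact h4
  rcases key with ⟨a, b, c, habc, hl⟩ | h4
  · left
    have h5 := mainNSUM K hK _ _ _ hX hY hZ h1 a b c habc hl
    have h6 : Algebra.norm ℚ (-z) = -Algebra.norm ℚ z := by
      have e : -z = algebraMap ℚ K (-1) * z := by
        rw [map_neg, map_one]; ring
      rw [e, map_mul, Algebra.norm_algebraMap, hK]
      ring
    rw [map_pow, map_pow, map_pow, h6, hn.neg_pow] at h5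
    linarith
  · right; exact h4

end Pool.Agent.H47N
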