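import Pool.Agent.H47N.RED5

/-!
# A point with rational `u + v`, at an unramified prime above `3`
-/

set_option autoImplicit false

namespace Pool.Agent.H47N

open NumberField IsDedekindDomain

theorem mulLt {a b : WithZero (Multiplicative ℤ)} (ha : a ≤ 1) (hb : b < 1) : a * b < 1 :=
  lt_of_le_of_lt (by calc a * b ≤ 1 * b := mul_le_mul_left ha b
                        _ = b := one_mul b) hb

theorem val_three {K : Type} [Field K] [NumberField K] (w : HeightOneSpectrum (𝓞 K))
    (h3 : (3 : 𝓞 K) ∈ w.asIdeal) (h9 : (3 : 𝓞 K) ∉ w.asIdeal ^ 2) :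
    w.valuation K (3 : K) = WithZero.exp (-1 : ℤ) := by
  have e : (3 : K) = algebraMap (𝓞 K) K 3 := by rw [map_ofNat]
  rw [e, HeightOneSpectrum.valuation_of_algebraMap]
  have h1 : w.intValuation 3 ≤ WithZero.exp (-(1 : ℕ) : ℤ) :=
    (w.intValuation_le_pow_iff_mem 3 1).2 (by rwa [pow_one])
  have h2 : ¬ w.intValuation 3 ≤ WithZero.exp (-(2 : ℕ) : ℤ) := fun h =>
    h9 ((w.intValuation_le_pow_iff_mem 3 2).1 h)
  have h0 : w.intValuation 3 ≠ 0 := w.intValuation_ne_zero 3
    (fun h => h9 (by rw [h]; exact Ideal.zero_mem _))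
  obtain ⟨k, hk⟩ : ∃ k : ℤ, w.intValuation 3 = WithZero.exp k :=
    ⟨_, (WithZero.exp_log h0).symm⟩
  rw [hk] at h1 h2 ⊢
  rw [WithZero.exp_le_exp] at h1 h2
  congr 1
  push_cast at h1 h2
  omega

theorem local3 {K : Type} [Field K] [NumberField K] (w : HeightOneSpectrum (𝓞 K))
    (h3 : (3 : 𝓞 K) ∈ w.asIdeal) (h9 : (3 : 𝓞 K) ∉ w.asIdeal ^ 2) (u v : K) (hu : u ≠ 0)
    (hv : v ≠ 0) (c : ℚ) (huv : u + v = algebraMap ℚ K c) (h : u ^ 3 + v ^ 3 = 1)
    (hden : (3 : ℤ) ∣ c.den) : False := by
  have hV3 := val_three w h3 h9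
  have hint : ∀ m : ℤ, w.valuation K (m : K) ≤ 1 := by
    intro m
    have e : (m : K) = algebraMap (𝓞 K) K m := by rw [map_intCast]
    rw [e]
    exact w.valuation_le_one _
  have hb : w.valuation K ((c.den : ℤ) : K) < 1 := by
    obtain ⟨k, hk⟩ := hden
    rw [hk, Int.cast_mul, map_mul]
    have e : ((3 : ℤ) : K) = 3 := by norm_num
    rw [e, hV3]
    calc WithZero.exp (-1 : ℤ) * w.valuation K (k : K) ≤ WithZero.exp (-1 : ℤ) * 1 :=
          mul_le_mul_right (hint k) _
      _ < 1 := by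
          rw [mul_one, ← WithZero.exp_zero, WithZero.exp_lt_exp]
          norm_num
  have ha : w.valuation K (c.num : K) = 1 := by
    have hcop : IsCoprime c.num (c.den : ℤ) := by
      rw [Int.isCoprime_iff_gcd_eq_one]
      exact c.reduced
    obtain ⟨r, s, hrs⟩ := hcop
    refine le_antisymm (hint _) ?_
    by_contra hlt
    rw [not_le] at hlt
    have h1 : w.valuation K ((r * c.num + s * (c.den : ℤ) : ℤ) : K) < 1 := by
      rw [Int.cast_add, Int.cast_mul, Int.cast_mul]
      refine lt_of_le_of_lt (Valuation.map_add _ _ _) (max_lt ?_ ?_)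
      · rw [map_mul]
        exact mulLt (hint r) hlt
      · rw [map_mul]
        exact mulLt (hint s) hb
    rw [hrs, Int.cast_one, map_one] at h1
    exact lt_irrefl _ h1
  have hc0 : c ≠ 0 := by
    rintro rfl
    rw [Rat.num_zero, Int.cast_zero, map_zero] at ha
    exact zero_ne_one ha
  have hcK : algebraMap ℚ K c ≠ 0 := (map_ne_zero _).2 hc0
  have hcV : 1 < w.valuation K (algebraMap ℚ K c) := by
    have e : algebraMap ℚ K c * ((c.den : ℤ) : K) = (c.num : K) := by
      have : c * c.den = c.num := Rat.mul_den_eq_num c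
      have h2 := congrArg (algebraMap ℚ K) this
      rw [map_mul, map_natCast, map_intCast] at h2
      rw [← h2]
      norm_num
    have e2 := congrArg (w.valuation K) e
    rw [map_mul, ha] at e2
    by_contra hle
    rw [not_lt] at hle
    have : w.valuation K (algebraMap ℚ K c) * w.valuation K ((c.den : ℤ) : K) < 1 :=
      mulLt hle hb
    rw [e2] at this
    exact lt_irrefl _ this
  -- the equation
  have h5 : 3 * algebraMap ℚ K c * (u * v) = (algebraMap ℚ K c) ^ 3 - 1 := by
    rw [← huv]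
    linear_combination -h
  have h6 : w.valuation K ((algebraMap ℚ K c) ^ 3 - 1) = w.valuation K (algebraMap ℚ K c) ^ 3 := by
    have h7 : w.valuation K (1 : K) < w.valuation K ((algebraMap ℚ K c) ^ 3) := by
      rw [map_one, map_pow]
      exact one_lt_pow₀ hcV (by norm_num)
    rw [Valuation.map_sub_eq_of_lt_left _ h7, map_pow]
  have h8 := congrArg (w.valuation K) h5
  rw [h6, map_mul, map_mul, map_mul, hV3] at h8
  have hVu : w.valuation K u ≠ 0 := (Valuation.ne_zero_iff _).2 hu
  have hVv : w.valuation K v ≠ 0 := (Valuation.ne_zero_iff _).2 hv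
  have hVc : w.valuation K (algebraMap ℚ K c) ≠ 0 := (Valuation.ne_zero_iff _).2 hcK
  obtain ⟨i, hi⟩ : ∃ k : ℤ, w.valuation K u = WithZero.exp k := ⟨_, (WithZero.exp_log hVu).symm⟩
  obtain ⟨j, hj⟩ : ∃ k : ℤ, w.valuation K v = WithZero.exp k := ⟨_, (WithZero.exp_log hVv).symm⟩
  obtain ⟨k, hk⟩ : ∃ k : ℤ, w.valuation K (algebraMap ℚ K c) = WithZero.exp k :=
    ⟨_, (WithZero.exp_log hVc).symm⟩
  rw [hi, hj, hk, ← WithZero.exp_add, ← WithZero.exp_add, ← WithZero.exp_add, ← WithZero.exp_nsmul,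
    WithZero.exp_inj] at h8
  simp only [nsmul_eq_mul, Nat.cast_ofNat] at h8
  rcases lt_trichotomy i j with hij | hij | hij
  · have h10 : w.valuation K u < w.valuation K v := by
      rw [hi, hj, WithZero.exp_lt_exp]; exact hij
    have h9 : w.valuation K (u + v) = w.valuation K v := Valuation.map_add_eq_of_lt_right _ h10
    rw [huv, hk, hj, WithZero.exp_inj] at h9
    omega
  · omega
  · have h10 : w.valuation K v < w.valuation K u := by
      rw [hi, hj, WithZero.exp_lt_exp]; exact hij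
    have h9 : w.valuation K (u + v) = w.valuation K u := Valuation.map_add_eq_of_lt_left _ h10
    rw [huv, hk, hi, WithZero.exp_inj] at h9
    omega

end Pool.Agent.H47N
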