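import Pool.Agent.H47N.B1
import Pool.Agent.H47C.RED1
import Pool.Agent.H47C.ROOT

/-!
# Exponent `3 p` over quadratic fields: reduction to two equations over `ℤ`
-/

set_option autoImplicit false

namespace Pool.Agent.H47N

open NumberField IsDedekindDomain Pool.Agent.H47C

/-- The two alternatives for the exponent `p` and the quadratic field `K`: a nonzero integer solution
of Fermat's equation of exponent `p`, or `3` ramifies in `K` and there are integers with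
`α ^ p - d ^ p = 3 ^ m * β ^ p` and `h ^ p - d ^ (2 p) = 3 ^ (m + 1) * (α * β) ^ p`. -/
def Alt (K : Type) [Field K] [NumberField K] (p : ℕ) : Prop :=
  (∃ a b d : ℤ, a ≠ 0 ∧ b ≠ 0 ∧ d ≠ 0 ∧ a ^ p + b ^ p = d ^ p) ∨
    ((∀ w : HeightOneSpectrum (𝓞 K), (3 : 𝓞 K) ∈ w.asIdeal → (3 : 𝓞 K) ∈ w.asIdeal ^ 2) ∧
      ∃ (α β d h : ℤ) (m : ℕ), p = 2 * m + 1 ∧ α ≠ 0 ∧ β ≠ 0 ∧ d ≠ 0 ∧ h ≠ 0 ∧
        IsCoprime α d ∧ IsCoprime h d ∧ ¬ (3 : ℤ) ∣ d ∧ ¬ (3 : ℤ) ∣ h ∧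
        α ^ p - d ^ p = 3 ^ m * β ^ p ∧ h ^ p - (d ^ 2) ^ p = 3 ^ (m + 1) * (α * β) ^ p)

/-- the case `α ^ p + β ^ p ∈ ℚ` -/
theorem altAB {K : Type} [Field K] [NumberField K]
    (hK : Module.finrank ℚ K = 2) {p : ℕ} (hp : p.Prime) (h5 : 5 ≤ p)
    {α β : K} (hα : α ≠ 0) (hβ : β ≠ 0)
    (h : α ^ (3 * p) + β ^ (3 * p) = 1) {c : ℚ} (hc : α ^ p + β ^ p = algebraMap ℚ K c) :
    Alt K p := by
  have h1 : (α ^ p) ^ 3 + (β ^ p) ^ 3 = 1 := by
    rw [← pow_mul, ← pow_mul, mul_comm p 3, h]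
  have h2 : (algebraMap ℚ K c) ^ 3 - 3 * algebraMap ℚ K c * (α * β) ^ p = 1 := by
    rw [← hc, mul_pow]
    linear_combination h1
  have hc0 : c ≠ 0 := by
    rintro rfl
    rw [map_zero] at h2
    simp at h2
  have hcK : algebraMap ℚ K c ≠ 0 := (map_ne_zero _).2 hc0
  have h3 : (α * β) ^ p = algebraMap ℚ K ((c ^ 3 - 1) / (3 * c)) := by
    rw [map_div₀, map_sub, map_pow, map_one, map_mul, map_ofNat (algebraMap ℚ K) 3]
    rw [eq_div_iff (mul_ne_zero three_ne_zero hcK)]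
    linear_combination -h2
  obtain ⟨t, ht⟩ := mainROOT K hK p hp h5 _ _ h3
  have ht0 : t ≠ 0 := by
    rintro rfl
    rw [map_zero] at ht
    exact mul_ne_zero hα hβ ht
  have h4 : c ^ 3 - 3 * c * t ^ p = 1 := by
    apply (algebraMap ℚ K).injective
    rw [map_sub, map_mul, map_mul, map_pow, map_pow, map_one, map_ofNat (algebraMap ℚ K) 3, ← ht, h2]
  rcases RED5.main5 p hp h5 c t ht0 h4 with h6 | ⟨hden, h6⟩
  · exact Or.inl h6
  · refine Or.inr ⟨?_, h6⟩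
    intro w h3w
    by_contra h9
    exact local3 w h3w h9 (α ^ p) (β ^ p) (pow_ne_zero _ hα) (pow_ne_zero _ hβ) c hc h1 hden

/-- **Theorem B.** -/
theorem mainB {K : Type} [Field K]
    [NumberField K] (hK : Module.finrank ℚ K = 2) {p : ℕ} (hp : p.Prime) (h5 : 5 ≤ p)
    {x y z : K} (hx : x ≠ 0) (hy : y ≠ 0)
    (hz : z ≠ 0) (h : x ^ (3 * p) + y ^ (3 * p) = z ^ (3 * p)) : Alt K p := by
  have hodd : Odd p := hp.odd_of_ne_two (by omega)
  have hodd3 : Odd (3 * p) := Odd.mul (by decide) hodd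
  have hu : (x / z) ^ p ≠ 0 := pow_ne_zero _ (div_ne_zero hx hz)
  have hv : (y / z) ^ p ≠ 0 := pow_ne_zero _ (div_ne_zero hy hz)
  have h1 : (x / z) ^ (3 * p) + (y / z) ^ (3 * p) = 1 := by
    rw [div_pow, div_pow, ← add_div, h, div_self (pow_ne_zero _ hz)]
  have h2 : ((x / z) ^ p) ^ 3 + ((y / z) ^ p) ^ 3 = 1 := by
    rw [← pow_mul, ← pow_mul, mul_comm p 3, h1]
  rcases mainRED1 K hK _ _ hu hv h2 with ⟨c, hc⟩ | ⟨c, hc⟩ | ⟨c, hc⟩
  · exact altAB hK hp h5 (div_ne_zero hx hz) (div_ne_zero hy hz) h1 hc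
  · -- `z ^ n + (-y) ^ n = x ^ n`
    refine altAB hK hp h5 (α := z / x) (β := -y / x) (div_ne_zero hz hx)
      (div_ne_zero (neg_ne_zero.2 hy) hx) (c := c) ?_ ?_
    · rw [div_pow, div_pow, hodd3.neg_pow, ← add_div, ← h, div_eq_one_iff_eq (pow_ne_zero _ hx)]
      ring
    · have h3 : x ^ p ≠ 0 := pow_ne_zero _ hx
      have h4 : z ^ p ≠ 0 := pow_ne_zero _ hz
      rw [div_pow, div_pow] at hc
      rw [div_pow, div_pow, hodd.neg_pow, ← add_div, div_eq_iff h3]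
      field_simp at hc
      linear_combination hc
  · refine altAB hK hp h5 (α := z / y) (β := -x / y) (div_ne_zero hz hy)
      (div_ne_zero (neg_ne_zero.2 hx) hy) (c := c) ?_ ?_
    · rw [div_pow, div_pow, hodd3.neg_pow, ← add_div, ← h, div_eq_one_iff_eq (pow_ne_zero _ hy)]
      ring
    · have h3 : y ^ p ≠ 0 := pow_ne_zero _ hy
      have h4 : z ^ p ≠ 0 := pow_ne_zero _ hz
      rw [div_pow, div_pow] at hc
      rw [div_pow, div_pow, hodd.neg_pow, ← add_div, div_eq_iff h3]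
      field_simp at hc
      linear_combination hc

end Pool.Agent.H47N
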