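import Pool.Agent.H47N.Stm3

set_option autoImplicit false

namespace Pool.Agent.H47N

namespace FINQx

lemma sq_dvd (n : ℕ) (hn : Odd n) (hn3 : 3 ≤ n) (a q D : ℤ) (ha : a ≠ 0) (l : ℕ) (hl : l.Prime)
    (hl3 : l ≠ 3) (hla : (l : ℤ) ∣ a) (hlq : (l : ℤ) ∣ q)
    (h : a ^ (2 * n) + 3 * D ^ 2 = 4 * q ^ n) : (l : ℤ) ^ 2 ∣ q := by
  have hf : Fact l.Prime := ⟨hl⟩
  have hq : q ≠ 0 := by
    rintro rfl
    rw [zero_pow (by omega), mul_zero] at h
    have h1 : 0 < a ^ (2 * n) := by
      rw [pow_mul]; positivity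
    have h2 : 0 ≤ 3 * D ^ 2 := by positivity
    omega
  by_contra hcon
  have hvq1 : 1 ≤ padicValInt l q := by
    have := (padicValInt_dvd_iff (p := l) 1 q).mp (by simpa using hlq)
    rcases this with h0 | h0
    · exact absurd h0 hq
    · exact h0
  have hvq2 : ¬ 2 ≤ padicValInt l q := fun h0 =>
    hcon ((padicValInt_dvd_iff (p := l) 2 q).mpr (Or.inr h0))
  have hvq : padicValInt l q = 1 := by omega
  have hva : 1 ≤ padicValInt l a := by
    have := (padicValInt_dvd_iff (p := l) 1 a).mp (by simpa using hla)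
    rcases this with h0 | h0
    · exact absurd h0 ha
    · exact h0
  have hpow : ∀ (x : ℤ) (k : ℕ), x ≠ 0 → padicValInt l (x ^ k) = k * padicValInt l x := by
    intro x k hx
    unfold padicValInt
    rw [Int.natAbs_pow, padicValNat.pow]
  have hv2 : padicValInt l 2 ≤ 1 := by
    by_contra h0
    have h1 : (l : ℤ) ^ 2 ∣ 2 := (padicValInt_dvd_iff (p := l) 2 2).mpr (Or.inr (by omega))
    have h2 := Int.le_of_dvd (by norm_num) h1
    have h3 : (2 : ℤ) ≤ l := by exact_mod_cast hl.two_le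
    nlinarith
  have hv3 : padicValInt l 3 = 0 := by
    apply padicValInt.eq_zero_of_not_dvd
    intro h0
    have h1 : l ∣ 3 := by exact_mod_cast h0
    exact hl3 ((Nat.prime_dvd_prime_iff_eq hl Nat.prime_three).mp h1)
  have hv4 : padicValInt l (4 * q ^ n) = 2 * padicValInt l 2 + n := by
    rw [padicValInt.mul (by norm_num) (pow_ne_zero _ hq), hpow q n hq, hvq, mul_one,
      show (4 : ℤ) = 2 ^ 2 by norm_num, hpow 2 2 (by norm_num)]
  have hvan : 2 * n ≤ padicValInt l (a ^ (2 * n)) := by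
    rw [hpow a _ ha]; nlinarith
  have hda : (l : ℤ) ^ (2 * n) ∣ a ^ (2 * n) :=
    (padicValInt_dvd_iff (p := l) _ _).mpr (Or.inr hvan)
  set m := 2 * padicValInt l 2 + n with hm
  have hd4 : (l : ℤ) ^ m ∣ 4 * q ^ n :=
    (padicValInt_dvd_iff (p := l) _ _).mpr (Or.inr hv4.ge)
  have hnd4 : ¬ (l : ℤ) ^ (m + 1) ∣ 4 * q ^ n := by
    intro h0
    rcases (padicValInt_dvd_iff (p := l) _ _).mp h0 with h1 | h1
    · exact (mul_ne_zero (by norm_num) (pow_ne_zero _ hq)) h1
    · omega
  have h3D : 3 * D ^ 2 = 4 * q ^ n - a ^ (2 * n) := by linarith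
  have hmn : m + 1 ≤ 2 * n := by omega
  have hd3 : (l : ℤ) ^ m ∣ 3 * D ^ 2 := by
    rw [h3D]
    exact dvd_sub hd4 ((pow_dvd_pow _ (by omega)).trans hda)
  have hnd3 : ¬ (l : ℤ) ^ (m + 1) ∣ 3 * D ^ 2 := by
    intro h0
    apply hnd4
    rw [← h]
    exact dvd_add ((pow_dvd_pow _ hmn).trans hda) h0
  have hD : D ≠ 0 := by
    rintro rfl
    exact hnd3 (by simp)
  have hv3D : padicValInt l (3 * D ^ 2) = 2 * padicValInt l D := by
    rw [padicValInt.mul (by norm_num) (pow_ne_zero _ hD), hpow D 2 hD, hv3, zero_add]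
  have e1 : m ≤ padicValInt l (3 * D ^ 2) := by
    rcases (padicValInt_dvd_iff (p := l) _ _).mp hd3 with h1 | h1
    · exact absurd h1 (mul_ne_zero (by norm_num) (pow_ne_zero _ hD))
    · exact h1
  have e2 : ¬ m + 1 ≤ padicValInt l (3 * D ^ 2) := fun h0 =>
    hnd3 ((padicValInt_dvd_iff (p := l) _ _).mpr (Or.inr h0))
  obtain ⟨k, hk⟩ := hn
  omega

lemma main (n : ℕ) (hn : Odd n) (hn3 : 3 ≤ n) : ∀ (N : ℕ) (a q D : ℤ), a.natAbs ≤ N → a ≠ 0 →
    ¬ (3 : ℤ) ∣ a → a ^ (2 * n) + 3 * D ^ 2 = 4 * q ^ n →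
  (∃ c d b : ℤ, IsCoprime c d ∧ 1 < d ∧ c ≠ 0 ∧ b ≠ 0 ∧ ¬ (3 : ℤ) ∣ c ∧
    c ^ (2 * n) + 3 * b ^ 2 = 4 * d ^ n) ∨ D ^ 2 = a ^ (2 * n) := by
  intro N
  induction N with
  | zero =>
    intro a q D haN ha
    exact absurd (Int.natAbs_eq_zero.mp (by omega)) ha
  | succ N ih =>
    intro a q D haN ha h3a h
    have hpos : 0 < a ^ (2 * n) := by rw [pow_mul]; positivity
    by_cases hco : IsCoprime a q
    · have hqn : 0 < q ^ n := by
        have h2 : 0 ≤ 3 * D ^ 2 := by positivity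
        omega
      have hq : 0 < q := hn.pow_pos_iff.mp hqn
      rcases lt_or_eq_of_le (show 1 ≤ q by omega) with hq1 | hq1
      · left
        refine ⟨a, q, D, hco, hq1, ha, ?_, h3a, h⟩
        rintro rfl
        have h1 : q ∣ a ^ (2 * n) := by
          have : a ^ (2 * n) = 4 * q ^ n := by linarith
          rw [this]
          exact Dvd.dvd.mul_left (dvd_pow_self q (by omega)) _
        have h2 : IsCoprime (a ^ (2 * n)) q := hco.pow_left
        have h3 : IsUnit q := h2.isUnit_of_dvd' h1 dvd_rfl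
        rcases Int.isUnit_iff.mp h3 with h4 | h4 <;> omega
      · right
        subst hq1
        rw [one_pow, mul_one] at h
        have hD : D ^ 2 ≤ 1 := by
          by_contra hc
          push Not at hc
          omega
        have hD0 : 0 ≤ D ^ 2 := by positivity
        rcases (show D ^ 2 = 0 ∨ D ^ 2 = 1 by omega) with h0 | h0
        · exfalso
          rw [h0] at h
          have h4 : (a ^ n) ^ 2 = 4 := by rw [← pow_mul, mul_comm n 2]; linarith
          have h5 : a ^ n = 2 ∨ a ^ n = -2 := by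
            have : (a ^ n - 2) * (a ^ n + 2) = 0 := by linarith
            rcases mul_eq_zero.mp this with h6 | h6
            · left; linarith
            · right; linarith
          have h6 : (a.natAbs) ^ n = 2 := by
            rw [← Int.natAbs_pow]
            rcases h5 with h5 | h5 <;> rw [h5] <;> rfl
          rcases Nat.lt_or_ge a.natAbs 2 with h7 | h7
          · have h8 : a.natAbs = 1 := by
              have := Int.natAbs_ne_zero.mpr ha
              omega
            rw [h8, one_pow] at h6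
            omega
          · have h8 : 2 ^ 3 ≤ a.natAbs ^ n :=
              (Nat.pow_le_pow_left h7 3).trans (Nat.pow_le_pow_right (by omega) hn3)
            omega
        · rw [h0] at h ⊢; linarith
    · obtain ⟨l, hl, hla, hlq⟩ : ∃ l : ℕ, l.Prime ∧ (l : ℤ) ∣ a ∧ (l : ℤ) ∣ q := by
        have h1 : Int.gcd a q ≠ 1 := fun h0 => hco (Int.isCoprime_iff_gcd_eq_one.mpr h0)
        obtain ⟨l, hl, hd⟩ := Nat.exists_prime_and_dvd h1
        refine ⟨l, hl, ?_, ?_⟩
        · exact (Int.natCast_dvd_natCast.mpr hd).trans (Int.gcd_dvd_left ..)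
        · exact (Int.natCast_dvd_natCast.mpr hd).trans (Int.gcd_dvd_right ..)
      have hl3 : l ≠ 3 := by
        rintro rfl
        exact h3a (by exact_mod_cast hla)
      obtain ⟨q', hq'⟩ := sq_dvd n hn hn3 a q D ha l hl hl3 hla hlq h
      obtain ⟨a', ha'⟩ := hla
      have hl0 : (l : ℤ) ≠ 0 := by exact_mod_cast hl.ne_zero
      have hD3 : (l : ℤ) ^ (2 * n) ∣ 3 * D ^ 2 := by
        have : 3 * D ^ 2 = (l : ℤ) ^ (2 * n) * (4 * q' ^ n - a' ^ (2 * n)) := by
          have e : 3 * D ^ 2 = 4 * q ^ n - a ^ (2 * n) := by linarith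
          rw [e, hq', ha', mul_pow, mul_pow, ← pow_mul]; ring
        rw [this]; exact dvd_mul_right _ _
      have hco3 : IsCoprime ((l : ℤ) ^ (2 * n)) 3 := by
        apply IsCoprime.pow_left
        have : Nat.Coprime l 3 := (Nat.coprime_primes hl Nat.prime_three).mpr hl3
        exact_mod_cast Nat.isCoprime_iff_coprime.mpr this
      have hD2 : (l : ℤ) ^ (2 * n) ∣ D ^ 2 := hco3.dvd_of_dvd_mul_left hD3
      have hD1 : (l : ℤ) ^ n ∣ D := by
        rw [mul_comm 2 n, pow_mul] at hD2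
        exact (Int.pow_dvd_pow_iff (by norm_num)).mp hD2
      obtain ⟨D', hD'⟩ := hD1
      have ha'0 : a' ≠ 0 := by
        rintro rfl; exact ha (by rw [ha']; ring)
      have hlt : a'.natAbs ≤ N := by
        have e : a.natAbs = l * a'.natAbs := by rw [ha', Int.natAbs_mul]; simp
        have h1 : 1 ≤ a'.natAbs := Int.natAbs_pos.mpr ha'0
        have h2 := hl.two_le
        nlinarith
      have heq : a' ^ (2 * n) + 3 * D' ^ 2 = 4 * q' ^ n := by
        have e : (l : ℤ) ^ (2 * n) * (a' ^ (2 * n) + 3 * D' ^ 2) = (l : ℤ) ^ (2 * n) * (4 * q' ^ n) := by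
          rw [hq', ha', hD'] at h
          have e1 : ((l : ℤ) ^ n * D') ^ 2 = (l : ℤ) ^ (2 * n) * D' ^ 2 := by
            rw [mul_pow, ← pow_mul, mul_comm n 2]
          have e2 : ((l : ℤ) ^ 2 * q') ^ n = (l : ℤ) ^ (2 * n) * q' ^ n := by
            rw [mul_pow, ← pow_mul]
          rw [mul_pow, e1, e2] at h
          linarith
        exact mul_left_cancel₀ (pow_ne_zero _ hl0) e
      rcases ih a' q' D' hlt ha'0 (fun h0 => h3a (by rw [ha']; exact Dvd.dvd.mul_left h0 _)) heq with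
        h1 | h1
      · exact Or.inl h1
      · right
        rw [hD', ha', mul_pow, mul_pow, h1, ← pow_mul, mul_comm n 2]

end FINQx

theorem t_FINQ : S_FINQ := by
  intro n hn hn3 a q D ha h3a h
  exact FINQx.main n hn hn3 _ a q D le_rfl ha h3a h

end Pool.Agent.H47N
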