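import Pool.Agent.H47N.Stm3

/-!
# Piece FINQ of project NS, part 3 (second seat)
-/

set_option autoImplicit false

namespace Pool.Agent.H47N

namespace FINQx21

theorem odd_pow_dvd {l : ℤ} (hl : Prime l) (m : ℕ) {D : ℤ} (h : l ^ (2 * m + 1) ∣ D ^ 2) :
    l ^ (m + 1) ∣ D := by
  by_cases hD : D = 0
  · rw [hD]; exact dvd_zero _
  have hf : FiniteMultiplicity l D := Int.finiteMultiplicity_iff.2 ⟨by
    intro h1
    exact hl.not_isUnit (Int.isUnit_iff_natAbs_eq.2 h1), hD⟩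
  obtain ⟨c, hc, hc'⟩ := hf.exists_eq_pow_mul_and_not_dvd
  set k := multiplicity l D with hk
  by_cases hkm : m + 1 ≤ k
  · rw [hc]
    exact Dvd.dvd.mul_right (pow_dvd_pow l hkm) c
  · exfalso
    have hkm' : k ≤ m := by omega
    rw [hc, mul_pow, ← pow_mul] at h
    have h1 : l ^ (2 * m + 1) = l ^ (k * 2) * l ^ (2 * m + 1 - k * 2) := by
      rw [← pow_add]
      congr 1
      omega
    rw [h1] at h
    have h2 : l ^ (2 * m + 1 - k * 2) ∣ c ^ 2 :=
      (mul_dvd_mul_iff_left (pow_ne_zero _ hl.ne_zero)).1 h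
    have h3 : l ∣ c ^ 2 := dvd_trans (dvd_pow_self l (by omega)) h2
    exact hc' (hl.dvd_of_dvd_pow h3)

/-- The main step: a common prime divides `q` at least twice. -/
theorem sq_dvd {l : ℤ} (hl : Prime l) (hl3 : ¬ l ∣ 3) (n : ℕ) (hn : Odd n) (hn3 : 3 ≤ n)
    {a q D : ℤ} (ha : l ∣ a) (hq : l ∣ q) (h : a ^ (2 * n) + 3 * D ^ 2 = 4 * q ^ n) :
    l ^ 2 ∣ q := by
  obtain ⟨q', rfl⟩ := hq
  obtain ⟨a', rfl⟩ := ha
  by_contra hcon
  have hq' : ¬ l ∣ q' := by
    intro hh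
    apply hcon
    rw [pow_two]
    exact mul_dvd_mul_left l hh
  obtain ⟨m, hm⟩ := hn
  have hl0 := hl.ne_zero
  have e1 : (l * a') ^ (2 * n) = l ^ n * (l ^ n * a' ^ (2 * n)) := by
    rw [mul_pow, two_mul, pow_add]; ring
  have e2 : (l * q') ^ n = l ^ n * q' ^ n := mul_pow _ _ _
  rw [e1, e2] at h
  have h1 : l ^ n ∣ 3 * D ^ 2 := by
    have : 3 * D ^ 2 = l ^ n * (4 * q' ^ n - l ^ n * a' ^ (2 * n)) := by linear_combination h
    rw [this]; exact dvd_mul_right _ _
  have hcop : IsCoprime (l ^ n) 3 := by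
    apply IsCoprime.pow_left
    exact (Prime.coprime_iff_not_dvd hl).2 hl3
  have h2 : l ^ n ∣ D ^ 2 := hcop.dvd_of_dvd_mul_left h1
  rw [hm] at h2
  obtain ⟨D', rfl⟩ := odd_pow_dvd hl m h2
  have h3 : l ^ n * (l ^ n * a' ^ (2 * n) + 3 * l * D' ^ 2) = l ^ n * (4 * q' ^ n) := by
    have e3 : (l ^ (m + 1) * D') ^ 2 = l ^ n * l * D' ^ 2 := by
      have e4 : (m + 1) * 2 = 2 * m + 1 + 1 := by omega
      rw [mul_pow, ← pow_mul, hm, ← pow_succ, e4]
    rw [e3] at h
    linear_combination h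
  have h4 := mul_left_cancel₀ (pow_ne_zero n hl0) h3
  have h5 : l ∣ 4 * q' ^ n := by
    rw [← h4]
    apply dvd_add
    · exact Dvd.dvd.mul_right (dvd_pow_self l (by omega)) _
    · exact ⟨3 * D' ^ 2, by ring⟩
  have h6 : l ∣ 4 := by
    rcases hl.dvd_or_dvd h5 with h7 | h7
    · exact h7
    · exact absurd (hl.dvd_of_dvd_pow h7) hq'
  have h7 : l ∣ 2 := by
    have : (4 : ℤ) = 2 ^ 2 := by norm_num
    rw [this] at h6
    exact hl.dvd_of_dvd_pow h6
  have h8 : Prime (2 : ℤ) := Int.prime_two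
  have h9 : Associated l 2 := (hl.dvd_prime_iff_associated h8).1 h7
  have h10 : (2 : ℤ) ∣ l := h9.symm.dvd
  have hq2 : ¬ (2 : ℤ) ∣ q' := fun hh => hq' (dvd_trans h7 hh)
  obtain ⟨u, hu⟩ := h10
  -- `l = 2 u`, `u` a unit
  have hodd : ¬ (2 : ℤ) ∣ q' ^ n := fun hh => hq2 (h8.dvd_of_dvd_pow hh)
  have h12 : (4 : ℤ) ∣ l ^ 2 := ⟨u ^ 2, by rw [hu]; ring⟩
  have h13 : (8 : ℤ) ∣ l ^ n := by
    have e : l ^ n = l ^ 3 * l ^ (n - 3) := by rw [← pow_add]; congr 1; omega
    rw [e]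
    apply Dvd.dvd.mul_right
    exact ⟨u ^ 3, by rw [hu]; ring⟩
  -- `D'` is even
  have h14 : (2 : ℤ) ∣ D' := by
    have h15 : (4 : ℤ) ∣ 3 * l * D' ^ 2 := by
      have e : 3 * l * D' ^ 2 = 4 * q' ^ n - l ^ n * a' ^ (2 * n) := by linear_combination h4
      rw [e]
      apply dvd_sub (dvd_mul_right _ _)
      exact Dvd.dvd.mul_right (dvd_trans ⟨2, by norm_num⟩ h13) _
    have h16 : l * 2 ∣ l * (3 * D' ^ 2) := by
      have hl4 : l * 2 ∣ 4 := by
        have : (4 : ℤ) = 2 * 2 := by norm_num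
        rw [this]; exact mul_dvd_mul_right h7 2
      have : l * (3 * D' ^ 2) = 3 * l * D' ^ 2 := by ring
      rw [this]; exact dvd_trans hl4 h15
    have h17 : (2 : ℤ) ∣ 3 * D' ^ 2 := (mul_dvd_mul_iff_left hl0).1 h16
    rcases h8.dvd_or_dvd h17 with h18 | h18
    · norm_num at h18
    · exact h8.dvd_of_dvd_pow h18
  obtain ⟨D₂, rfl⟩ := h14
  have h19 : (8 : ℤ) ∣ 4 * q' ^ n := by
    rw [← h4]
    apply dvd_add
    · exact Dvd.dvd.mul_right h13 _
    · exact ⟨3 * u * D₂ ^ 2, by rw [hu]; ring⟩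
  have h20 : (2 : ℤ) ∣ q' ^ n := by
    have e : (8 : ℤ) = 4 * 2 := by norm_num
    rw [e] at h19
    exact (mul_dvd_mul_iff_left (by norm_num)).1 h19
  exact hodd h20

theorem main (n : ℕ) (hn : Odd n) (hn3 : 3 ≤ n) : ∀ (N : ℕ) (a q D : ℤ), a.natAbs ≤ N → a ≠ 0 →
    ¬ (3 : ℤ) ∣ a → a ^ (2 * n) + 3 * D ^ 2 = 4 * q ^ n →
    (∃ c d b : ℤ, IsCoprime c d ∧ 1 < d ∧ c ≠ 0 ∧ b ≠ 0 ∧ ¬ (3 : ℤ) ∣ c ∧
      c ^ (2 * n) + 3 * b ^ 2 = 4 * d ^ n) ∨ D ^ 2 = a ^ (2 * n) := by
  intro N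
  induction N with
  | zero =>
    intro a q D hN ha
    exact absurd (Int.natAbs_eq_zero.1 (Nat.le_zero.1 hN)) ha
  | succ N ih =>
    intro a q D hN ha ha3 h
    by_cases hcop : IsCoprime a q
    · have hapos : 0 < a ^ (2 * n) := by
        have : Even (2 * n) := even_two_mul n
        exact this.pow_pos ha
      have hqn : 0 < q ^ n := by nlinarith [sq_nonneg D]
      have hq : 0 < q := hn.pow_pos_iff.1 hqn
      rcases (by omega : q = 1 ∨ 1 < q) with hq1 | hq1
      · right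
        rw [hq1, one_pow, mul_one] at h
        have ha1 : a ^ 2 = 1 := by
          by_contra hne
          have h1 : 1 ≤ a ^ 2 := by
            have : 0 < a ^ 2 := by positivity
            omega
          have h2 : 2 ≤ a ^ 2 := by omega
          have h3 : (2 : ℤ) ^ n ≤ (a ^ 2) ^ n := pow_le_pow_left₀ (by norm_num) h2 n
          have h4 : (2 : ℤ) ^ 3 ≤ 2 ^ n := pow_le_pow_right₀ (by norm_num) hn3
          rw [← pow_mul] at h3
          nlinarith [sq_nonneg D]
        rw [pow_mul, ha1, one_pow] at h ⊢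
        linarith
      · left
        refine ⟨a, q, D, hcop, hq1, ha, ?_, ha3, h⟩
        rintro rfl
        have h1 : q ∣ a ^ (2 * n) := by
          have : a ^ (2 * n) = 4 * q ^ n := by linear_combination h
          rw [this]
          exact Dvd.dvd.mul_left (dvd_pow_self q (by omega)) _
        have h2 : IsCoprime q (a ^ (2 * n)) := (hcop.symm).pow_right
        have h3 : IsUnit q := h2.isUnit_of_dvd' dvd_rfl h1
        rcases Int.isUnit_iff.1 h3 with h4 | h4 <;> omega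
    · -- a common prime
      have hg : ¬ IsUnit (gcd a q) := by
        intro hu
        apply hcop
        exact (gcd_isUnit_iff a q).1 hu
      have hg0 : gcd a q ≠ 0 := by
        intro h0
        rw [gcd_eq_zero_iff] at h0
        exact ha h0.1
      obtain ⟨l, hl, hlg⟩ := WfDvdMonoid.exists_irreducible_factor hg hg0
      have hlp : Prime l := hl.prime
      have hla : l ∣ a := dvd_trans hlg (gcd_dvd_left _ _)
      have hlq : l ∣ q := dvd_trans hlg (gcd_dvd_right _ _)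
      have hl3 : ¬ l ∣ 3 := by
        intro hh
        have h3 : Prime (3 : ℤ) := Int.prime_three
        exact ha3 (dvd_trans ((hlp.dvd_prime_iff_associated h3).1 hh).symm.dvd hla)
      obtain ⟨q', hq'⟩ := sq_dvd hlp hl3 n hn hn3 hla hlq h
      obtain ⟨a', ha'⟩ := hla
      have hD : l ^ n ∣ D := by
        have h1 : (l ^ n) ^ 2 ∣ 3 * D ^ 2 := by
          have : 3 * D ^ 2 = (l ^ n) ^ 2 * (4 * q' ^ n - a' ^ (2 * n)) := by
            have e1 : a ^ (2 * n) = (l ^ n) ^ 2 * a' ^ (2 * n) := by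
              rw [ha', mul_pow, ← pow_mul, mul_comm n 2]
            have e2 : q ^ n = (l ^ n) ^ 2 * q' ^ n := by
              rw [hq', mul_pow, ← pow_mul, ← pow_mul, mul_comm n 2]
            rw [e1, e2] at h
            linear_combination h
          rw [this]; exact dvd_mul_right _ _
        have hcop : IsCoprime ((l ^ n) ^ 2) 3 := by
          apply IsCoprime.pow_left
          apply IsCoprime.pow_left
          exact (Prime.coprime_iff_not_dvd hlp).2 hl3
        have h2 : (l ^ n) ^ 2 ∣ D ^ 2 := hcop.dvd_of_dvd_mul_left h1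
        exact (Int.pow_dvd_pow_iff (by norm_num)).1 h2
      obtain ⟨D', hD'⟩ := hD
      have e1 : a ^ (2 * n) = (l ^ n) ^ 2 * a' ^ (2 * n) := by
        rw [ha', mul_pow, ← pow_mul, mul_comm n 2]
      have e2 : q ^ n = (l ^ n) ^ 2 * q' ^ n := by
        rw [hq', mul_pow, ← pow_mul, ← pow_mul, mul_comm n 2]
      have h' : a' ^ (2 * n) + 3 * D' ^ 2 = 4 * q' ^ n := by
        apply mul_left_cancel₀ (pow_ne_zero 2 (pow_ne_zero n hlp.ne_zero))
        rw [e1, e2, hD'] at h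
        linear_combination h
      have ha'0 : a' ≠ 0 := by
        rintro rfl
        exact ha (by rw [ha', mul_zero])
      have hlt : a'.natAbs ≤ N := by
        have h1 : a.natAbs = l.natAbs * a'.natAbs := by rw [ha', Int.natAbs_mul]
        have h2 : 2 ≤ l.natAbs := by
          have h3 : l.natAbs ≠ 0 := fun h0 => hlp.ne_zero (Int.natAbs_eq_zero.1 h0)
          have h4 : l.natAbs ≠ 1 := fun h0 => hlp.not_isUnit (Int.isUnit_iff_natAbs_eq.2 h0)
          omega
        have h3 : 1 ≤ a'.natAbs := Nat.one_le_iff_ne_zero.2 fun h0 => ha'0 (Int.natAbs_eq_zero.1 h0)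
        nlinarith
      rcases ih a' q' D' hlt ha'0 (fun hh => ha3 (by rw [ha']; exact Dvd.dvd.mul_left hh _)) h' with
        h1 | h1
      · exact Or.inl h1
      · right
        rw [hD', e1, mul_pow, h1]

end FINQx21

theorem t_FINQ21 : S_FINQ := fun n hn hn3 a q D ha ha3 h =>
  FINQx21.main n hn hn3 a.natAbs a q D le_rfl ha ha3 h

end Pool.Agent.H47N
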