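import Pool.Agent.H47N.Stm3

/-!
# NS3, piece FINQ (helper94)
-/

set_option autoImplicit false

namespace Pool.Agent.H47N

namespace FINQd

lemma val3 {l : ℕ} [Fact l.Prime] (hl : l ≠ 3) : padicValRat l (3 : ℚ) = 0 := by
  have : Fact (Nat.Prime 3) := ⟨by norm_num⟩
  have h : padicValRat l ((3 : ℕ) : ℚ) = 0 := by
    rw [padicValRat.of_nat, padicValNat_primes hl]
    rfl
  exact_mod_cast h

lemma odd_val {l : ℕ} (hl : l.Prime) (hl3 : l ≠ 3) {w : ℕ} (hw : Odd w) {D m : ℤ}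
    (hm : ¬ (l : ℤ) ∣ m) : 3 * D ^ 2 ≠ (l : ℤ) ^ w * m := by
  intro h
  have : Fact l.Prime := ⟨hl⟩
  have hm0 : m ≠ 0 := fun h0 => hm (h0 ▸ dvd_zero _)
  have hl0 : (l : ℤ) ≠ 0 := by exact_mod_cast hl.ne_zero
  have hD : D ≠ 0 := by
    rintro rfl
    exact mul_ne_zero (pow_ne_zero w hl0) hm0 (by rw [← h]; ring)
  have hDq : (D : ℚ) ≠ 0 := by exact_mod_cast hD
  have hmq : (m : ℚ) ≠ 0 := by exact_mod_cast hm0
  have hlq : (l : ℚ) ≠ 0 := by exact_mod_cast hl.ne_zero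
  have h' : (3 : ℚ) * (D : ℚ) ^ 2 = (l : ℚ) ^ w * m := by exact_mod_cast h
  have h1 := congrArg (padicValRat l) h'
  rw [padicValRat.mul (by norm_num) (pow_ne_zero _ hDq), padicValRat.mul (pow_ne_zero _ hlq) hmq,
    padicValRat.pow, padicValRat.pow, val3 hl3, padicValRat.self hl.one_lt, padicValRat.of_int,
    padicValRat.of_int, padicValInt.eq_zero_of_not_dvd hm] at h1
  obtain ⟨k, hk⟩ := hw
  push_cast at h1
  omega

lemma four_pow {l : ℕ} (hl : l.Prime) {n : ℕ} (hn : Odd n) (hn3 : 3 ≤ n) {q : ℤ} (hq : (l : ℤ) ∣ q)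
    (hq2 : ¬ (l : ℤ) ^ 2 ∣ q) : ∃ (w : ℕ) (m : ℤ), Odd w ∧ w < 2 * n ∧ ¬ (l : ℤ) ∣ m ∧
      4 * q ^ n = (l : ℤ) ^ w * m := by
  have hp : Prime (l : ℤ) := Nat.prime_iff_prime_int.1 hl
  obtain ⟨r, rfl⟩ := hq
  have hr : ¬ (l : ℤ) ∣ r := by
    rintro ⟨s, rfl⟩
    exact hq2 ⟨s, by ring⟩
  by_cases h2 : l = 2
  · subst h2
    refine ⟨n + 2, r ^ n, ?_, by omega, fun h => hr (hp.dvd_of_dvd_pow h), ?_⟩
    · obtain ⟨k, hk⟩ := hn
      exact ⟨k + 1, by omega⟩
    · push_cast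
      ring
  · refine ⟨n, 4 * r ^ n, hn, by omega, fun h => ?_, by ring⟩
    rcases hp.dvd_or_dvd h with h | h
    · have h4 : l ∣ 2 ^ 2 := by exact_mod_cast h
      exact h2 ((Nat.prime_dvd_prime_iff_eq hl Nat.prime_two).1 (hl.dvd_of_dvd_pow h4))
    · exact hr (hp.dvd_of_dvd_pow h)

lemma main {n : ℕ} (hn : Odd n) (hn3 : 3 ≤ n) : ∀ (N : ℕ) (a q D : ℤ), a.natAbs ≤ N → a ≠ 0 →
    ¬ (3 : ℤ) ∣ a → a ^ (2 * n) + 3 * D ^ 2 = 4 * q ^ n →
  (∃ c d b : ℤ, IsCoprime c d ∧ 1 < d ∧ c ≠ 0 ∧ b ≠ 0 ∧ ¬ (3 : ℤ) ∣ c ∧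
    c ^ (2 * n) + 3 * b ^ 2 = 4 * d ^ n) ∨ D ^ 2 = a ^ (2 * n) := by
  intro N
  induction N with
  | zero =>
    intro a q D h0 ha
    exact absurd (Int.natAbs_eq_zero.1 (Nat.le_zero.1 h0)) ha
  | succ N ih =>
    intro a q D hN ha h3 h
    have ha2 : 0 < a ^ (2 * n) := by
      rw [pow_mul]
      positivity
    have hq : 0 < q := by
      have h1 : 0 < q ^ n := by nlinarith [sq_nonneg D]
      exact (hn.pow_pos_iff).1 h1
    by_cases hc : IsCoprime a q
    · rcases lt_or_ge 1 q with h1 | h1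
      · left
        refine ⟨a, q, D, hc, h1, ha, ?_, h3, h⟩
        rintro rfl
        have h4 : q ∣ a ^ (2 * n) := by
          have : a ^ (2 * n) = 4 * q ^ n := by rw [← h]; ring
          rw [this]
          exact Dvd.dvd.mul_left (dvd_pow_self q (by omega)) 4
        have h5 : IsUnit q := (hc.pow_left (m := 2 * n)).symm.isUnit_of_dvd' dvd_rfl h4
        rcases Int.isUnit_iff.1 h5 with h6 | h6 <;> omega
      · right
        have hq1 : q = 1 := by omega
        rw [hq1, one_pow] at h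
        have hD : D ^ 2 = 0 ∨ D ^ 2 = 1 := by
          have h4 : D ^ 2 ≤ 1 := by omega
          have h5 : 0 ≤ D ^ 2 := sq_nonneg D
          omega
        rcases hD with hD | hD
        · exfalso
          rw [hD] at h
          have h6 : a ^ (2 * n) = 4 := by linarith
          have h7 : a.natAbs ^ (2 * n) = 4 := by
            have := congrArg Int.natAbs h6
            rwa [Int.natAbs_pow] at this
          rcases Nat.lt_or_ge a.natAbs 2 with h8 | h8
          · have h9 : a.natAbs = 1 := by omega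
            rw [h9, one_pow] at h7
            omega
          · have h9 : 2 ^ 6 ≤ a.natAbs ^ (2 * n) :=
              (Nat.pow_le_pow_left h8 6).trans (Nat.pow_le_pow_right (by omega) (by omega))
            omega
        · rw [hD] at h ⊢
          linarith
    · -- a common prime
      obtain ⟨l, hl, hla, hlq⟩ : ∃ l : ℕ, l.Prime ∧ (l : ℤ) ∣ a ∧ (l : ℤ) ∣ q := by
        have h1 : ¬ Nat.Coprime a.natAbs q.natAbs := by
          intro h2
          exact hc (Int.isCoprime_iff_gcd_eq_one.2 h2)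
        obtain ⟨l, hl, h2, h3'⟩ := Nat.Prime.not_coprime_iff_dvd.1 h1
        exact ⟨l, hl, Int.natCast_dvd.2 h2, Int.natCast_dvd.2 h3'⟩
      have hl3 : l ≠ 3 := by
        rintro rfl
        exact h3 (by exact_mod_cast hla)
      have hp : Prime (l : ℤ) := Nat.prime_iff_prime_int.1 hl
      obtain ⟨a', rfl⟩ := hla
      have hl0 : (l : ℤ) ≠ 0 := hp.ne_zero
      have hq2 : (l : ℤ) ^ 2 ∣ q := by
        by_contra hq2
        obtain ⟨w, m, hw, hwn, hm, hqm⟩ := four_pow hl hn hn3 hlq hq2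
        obtain ⟨s, hs⟩ : ∃ s, 2 * n = w + (s + 1) := ⟨2 * n - w - 1, by omega⟩
        refine odd_val hl hl3 hw (D := D) (m := m - (l : ℤ) ^ (s + 1) * a' ^ (2 * n)) ?_ ?_
        · intro h4
          apply hm
          have h5 : (l : ℤ) ∣ (l : ℤ) ^ (s + 1) * a' ^ (2 * n) :=
            Dvd.dvd.mul_right (dvd_pow_self _ (by omega)) _
          have h6 := dvd_add h4 h5
          rwa [sub_add_cancel] at h6
        · have h4 : 3 * D ^ 2 = 4 * q ^ n - ((l : ℤ) * a') ^ (2 * n) := by linarith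
          rw [h4, hqm, mul_pow, mul_sub, ← mul_assoc, ← pow_add, ← hs]
      obtain ⟨q', rfl⟩ := hq2
      have hD : (l : ℤ) ^ n ∣ D := by
        have h4 : 3 * D ^ 2 = ((l : ℤ) ^ n) ^ 2 * (4 * q' ^ n - a' ^ (2 * n)) := by
          have h5 : 3 * D ^ 2 = 4 * ((l : ℤ) ^ 2 * q') ^ n - ((l : ℤ) * a') ^ (2 * n) := by linarith
          rw [h5, mul_pow, mul_pow, ← pow_mul, ← pow_mul, mul_comm n 2]
          ring
        have h5 : ((l : ℤ) ^ n) ^ 2 ∣ 3 * D ^ 2 := ⟨_, h4⟩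
        have h6 : IsCoprime (((l : ℤ) ^ n) ^ 2) 3 := by
          apply IsCoprime.pow_left
          apply IsCoprime.pow_left
          rw [Int.isCoprime_iff_gcd_eq_one]
          exact (Nat.coprime_primes hl Nat.prime_three).2 hl3
        exact (Int.pow_dvd_pow_iff (by norm_num)).1 (h6.dvd_of_dvd_mul_left h5)
      obtain ⟨D', rfl⟩ := hD
      have h4 : a' ^ (2 * n) + 3 * D' ^ 2 = 4 * q' ^ n := by
        have h5 : (l : ℤ) ^ (2 * n) * (a' ^ (2 * n) + 3 * D' ^ 2) = (l : ℤ) ^ (2 * n) * (4 * q' ^ n) := by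
          calc (l : ℤ) ^ (2 * n) * (a' ^ (2 * n) + 3 * D' ^ 2)
              = ((l : ℤ) * a') ^ (2 * n) + 3 * ((l : ℤ) ^ n * D') ^ 2 := by
                rw [mul_pow, mul_pow, ← pow_mul, mul_comm n 2]
                ring
            _ = 4 * ((l : ℤ) ^ 2 * q') ^ n := h
            _ = _ := by
                rw [mul_pow, ← pow_mul]
                ring
        exact mul_left_cancel₀ (pow_ne_zero _ hl0) h5
      have ha' : a' ≠ 0 := right_ne_zero_of_mul ha
      have hN' : a'.natAbs ≤ N := by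
        rw [Int.natAbs_mul, Int.natAbs_natCast] at hN
        have h5 : 2 ≤ l := hl.two_le
        have h6 : 0 < a'.natAbs := Int.natAbs_pos.2 ha'
        nlinarith
      rcases ih a' q' D' hN' ha' (fun h5 => h3 (Dvd.dvd.mul_left h5 _)) h4 with h5 | h5
      · exact Or.inl h5
      · right
        rw [mul_pow, mul_pow, h5, ← pow_mul, mul_comm n 2]

end FINQd

open FINQd in
theorem t_FINQ : S_FINQ := by
  intro n hn hn3 a q D ha h3 h
  exact main hn hn3 a.natAbs a q D le_rfl ha h3 h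

end Pool.Agent.H47N
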