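import Mathlib

/-!
# Project NS, part 3: the exceptional solutions over cubic fields

**Theorem.** `K` cubic, `n ≥ 3` odd, `x, y, z ∈ K` nonzero, `x ^ (3 n) + y ^ (3 n) = z ^ (3 n)`. Then
`N(x) ^ n + N(y) ^ n = N(z) ^ n` or there are coprime nonzero integers `c, d`, `d > 1`, and `b ≠ 0` with
`c ^ (2 n) + 3 b ^ 2 = 4 d ^ n` (impossible for primes `n ≥ 7` by Bennett and Skinner, signature `(n, n, 2)`).

`X = x ^ n, Y = y ^ n, Z = (-z) ^ n`, `σ = X + Y + Z`, `3 (X + Y) (Y + Z) (Z + X) = σ ^ 3`. If the conjugate points are not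
collinear there are integers `A, B, C` without common factor with `A (X+Y)(X+Z) + B (X+Y) σ + C σ ^ 2 = 0`. The
norms (NF6), the valuations outside `3` (VALR, GENN) show that `A, B, C` are `n`-th powers up to powers of
`3` (ARA), and after a cyclic permutation `3 ∤ A`; then `A ^ 2 + 3 A δ + 3 δ ^ 2`, `δ = B + C`, is an `n`-th power `q ^ n`
(ARB), and `4 q ^ n = A ^ 2 + 3 (A + 2 δ) ^ 2` (FINQ).

Please prove `S_XXX` as `theorem t_XXX : S_XXX` in `Pool/Agent/H47N/XXX.lean` (namespace `Pool.Agent.H47N`,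
auxiliary lemmas in namespace `XXXx`), used pieces as hypotheses.
-/

set_option autoImplicit false

namespace Pool.Agent.H47N

open NumberField IsDedekindDomain

/-- LIN (50 lines). The norm of `α t + β`, if `t` is not rational and `t ^ 3 + g1 t ^ 2 + g2 t + g3 = 0`, `[K : ℚ] = 3`.
Proof. `α = 0`: the norm of a rational number. `α ≠ 0`: `s = α t + β` is not rational and a root of the monic cubic
`α ^ 3 G ((T - β) / α)`; use the lemma `norm_of_root` of `Pool/Agent/H47N/Nrm.lean` (import it). -/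
def S_LIN : Prop := ∀ (K : Type) [Field K] [NumberField K], Module.finrank ℚ K = 3 →
  ∀ (t : K), (¬ ∃ q : ℚ, (q : K) = t) → ∀ g1 g2 g3 : ℚ,
    t ^ 3 + (g1 : K) * t ^ 2 + g2 * t + g3 = 0 → ∀ α β : ℚ,
    Algebra.norm ℚ ((α : K) * t + β) = β ^ 3 - g1 * α * β ^ 2 + g2 * α ^ 2 * β - g3 * α ^ 3

/-- NF6 (150 lines). Proof. See `norm_quot` in `Pool/Agent/H47N/INC.lean` (helper: copy its beginning).
`a = X + Y`, `b = Y + Z`, `c = X + Z`, `σ = X + Y + Z`: `a + b + c = 2 σ`, `3 a b c = σ ^ 3`, all nonzero. `t = σ / a`, `r = c / σ`: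
`A r + B + C t = 0`, `3 r (2 t - 1 - r t) = t ^ 2`. If `t ∈ ℚ` then `X + Y + Z = t (X + Y)` is a linear relation; so `t ∉ ℚ`;
`C ≠ 0` (otherwise `r` is rational and `t ^ 2 + 3 r ^ 2 t - 6 r t + 3 r = 0`, a quadratic equation for `t`, impossible in a
cubic field: `norm`/minimal polynomial degree 3), `B ≠ 0` (below), and
`3 C² t³ + (6 B C + 6 A C + A²) t² + (3 B² + 6 A B - 3 A C) t - 3 A B = 0` (substitute `r = -(B + C t) / A`).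
`B = 0` would give a quadratic equation for `t`. By LIN (`g3 = - A B / C²` etc.): `N t = A B / C²`,
`N (t - 1) = - Q_Z / (3 C²)`, `N (B + C t) = - (A³) N r`, `N r = B² / (3 A C)`, `N ((A + B) + C t) = - A³ · ...` and so on:
`Z / σ = (t - 1) / t`, `Y / σ = 1 - r = ((A + B) + C t) / A`, `X / σ = 1 - b / σ = (3 r - t) / (3 r)` as `b / σ = t / (3 r)`,
`3 r - t = - (3 B + (A + 3 C) t) / A`. (All six formulas have been checked by computer.) -/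
def S_NF6 : Prop := S_LIN → ∀ (K : Type) [Field K] [NumberField K], Module.finrank ℚ K = 3 →
  ∀ X Y Z : K, X ≠ 0 → Y ≠ 0 → Z ≠ 0 → X ^ 3 + Y ^ 3 + Z ^ 3 = 0 → ∀ A B C : ℚ, A ≠ 0 →
    (A : K) * ((X + Y) * (X + Z)) + B * ((X + Y) * (X + Y + Z)) + C * (X + Y + Z) ^ 2 = 0 →
  (∃ a b c : ℚ, ¬ (a = 0 ∧ b = 0 ∧ c = 0) ∧ (a : K) * X + b * Y + c * Z = 0) ∨
  (B ≠ 0 ∧ C ≠ 0 ∧
    A * B * Algebra.norm ℚ (X + Y) = C ^ 2 * Algebra.norm ℚ (X + Y + Z) ∧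
    3 * A * C * Algebra.norm ℚ (X + Z) = B ^ 2 * Algebra.norm ℚ (X + Y + Z) ∧
    9 * B * C * Algebra.norm ℚ (Y + Z) = A ^ 2 * Algebra.norm ℚ (X + Y + Z) ∧
    3 * A * B * Algebra.norm ℚ Z =
      -(A ^ 2 + 3 * A * (B + C) + 3 * (B + C) ^ 2) * Algebra.norm ℚ (X + Y + Z) ∧
    3 * A * C * Algebra.norm ℚ Y =
      -((A + B) ^ 2 + 3 * C * (A + B) + 3 * C ^ 2) * Algebra.norm ℚ (X + Y + Z) ∧
    9 * B * C * Algebra.norm ℚ X =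
      -((A + 3 * C) ^ 2 + 3 * B * (A + 3 * C) + 3 * B ^ 2) * Algebra.norm ℚ (X + Y + Z))

/-- VALR (120 lines). Proof. `v = w.valuation K`, `v 3 = 1`. Let `X, Y, Z` be the three powers and `M` the largest of
`v X, v Y, v Z`; it is attained at least twice. Claim: `v (X + Y) = M` or `v (X + Y) = M (v Z / M) ^ 3` (and the same for
the other pairs). Indeed if `v X < M` (or `v Y < M`) then `v (X + Y) = M`. Let `v X = v Y = M`. If `v (X + Y) < M` then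
`v ((X + Y) ^ 2 - 3 X Y) = M ^ 2` and `(X + Y) ((X + Y) ^ 2 - 3 X Y) = - Z ^ 3` gives `v (X + Y) = v Z ^ 3 / M ^ 2`.
All of `v X, v Y, v Z, M` are `n`-th powers of valuations, so `v (X + Y) = M · exp (3 n i)`. -/
def S_VALR : Prop := ∀ (K : Type) [Field K] [NumberField K] (n : ℕ), 0 < n →
  ∀ x y z : K, x ≠ 0 → y ≠ 0 → z ≠ 0 → (x ^ n) ^ 3 + (y ^ n) ^ 3 + (z ^ n) ^ 3 = 0 →
  ∀ w : HeightOneSpectrum (𝓞 K), (3 : 𝓞 K) ∉ w.asIdeal →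
    (∃ i : ℤ, w.valuation K (x ^ n + y ^ n) = WithZero.exp ((n : ℤ) * i)) ∧
    (∃ i : ℤ, w.valuation K ((x ^ n + z ^ n) / (x ^ n + y ^ n)) = WithZero.exp (((3 * n : ℕ) : ℤ) * i)) ∧
    (∃ i : ℤ, w.valuation K ((y ^ n + z ^ n) / (x ^ n + y ^ n)) = WithZero.exp (((3 * n : ℕ) : ℤ) * i))

/-- GENN (70 lines). Proof. `norm_B` of `Pool/Agent/H47T/Asm6.lean` (with `NFAC` of `Pool/Agent/H47T/NFAC.lean`) for
`T` = the (finitely many) primes above `3`, `e v ∈ [0, m)` with `v (η) = exp (m j - e v)`; the absolute norms of the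
primes above `3` are powers of `3`. The sign is absorbed in `u` since `m` is odd. -/
def S_GENN : Prop := ∀ (K : Type) [Field K] [NumberField K] (m : ℕ), Odd m → ∀ η : K, η ≠ 0 →
  (∀ w : HeightOneSpectrum (𝓞 K), (3 : 𝓞 K) ∉ w.asIdeal →
    ∃ i : ℤ, w.valuation K η = WithZero.exp ((m : ℤ) * i)) →
  ∃ (u : ℚ) (j : ℤ), Algebra.norm ℚ η = u ^ m * (3 : ℚ) ^ j

/-- ARA (100 lines). Proof. For a prime `ℓ ≠ 3` the equations give `3 n ∣ 3 (v_ℓ B - v_ℓ C)`, `3 n ∣ 3 (v_ℓ A - v_ℓ C)`, so the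
three valuations are congruent modulo `n`, and one of them is `0`: `n` divides all. An integer all of whose valuations
outside `3` are divisible by the odd number `n` is `3 ^ j b ^ n` with `3 ∤ b` (sign absorbed). -/
def S_ARA : Prop := ∀ (n : ℕ), Odd n → ∀ A B C : ℤ, A ≠ 0 → B ≠ 0 → C ≠ 0 →
  (∀ l : ℕ, l.Prime → ¬ ((l : ℤ) ∣ A ∧ (l : ℤ) ∣ B ∧ (l : ℤ) ∣ C)) → ¬ (3 : ℤ) ∣ A →
  ∀ (u v : ℚ) (j₁ j₂ : ℤ), (B : ℚ) ^ 3 = 3 * (C : ℚ) ^ 3 * (u ^ (3 * n) * (3 : ℚ) ^ j₁) →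
    (A : ℚ) ^ 3 = 9 * (C : ℚ) ^ 3 * (v ^ (3 * n) * (3 : ℚ) ^ j₂) →
  ∃ (a b c : ℤ) (j k : ℕ), A = a ^ n ∧ B = 3 ^ j * b ^ n ∧ C = 3 ^ k * c ^ n ∧
    ¬ (3 : ℤ) ∣ b ∧ ¬ (3 : ℤ) ∣ c

/-- ARB (130 lines). Write `Q_Z, Q_Y, Q_X` for the three quadratic forms. Proof. From the first equation
`NS = A B w ^ n 3 ^ j₃ / C ^ 2`, so `Q_Z w ^ n 3 ^ j₃ = - 3 z ^ n C ^ 2`, `Q_X A w ^ n 3 ^ j₃ = - 9 C ^ 3 x ^ n`,
`Q_Y B w ^ n 3 ^ j₃ = - 3 C ^ 3 y ^ n`. `Q_Z`, `Q_X` are positive and prime to `3` (`≡ A ^ 2` mod `3`); at primes `ℓ ≠ 3` their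
valuations are divisible by `n` (as `A, B, C` are `n`-th powers up to `3`), so they are `n`-th powers. At `3`:
`0 ≡ 1 + 2 k - j₃`, `0 ≡ 2 + 3 k - j₃` mod `n`, so `n ∣ k + 1`. If `Q_Y = C ^ 2` then `B w ^ n 3 ^ j₃ = - 3 C y ^ n`,
so `j + j₃ ≡ 1 + k`, with `j₃ ≡ 1 + 2 k`, `k ≡ -1`: `j ≡ 1` mod `n`, so `j ≠ 0` and `3 ∣ B`. -/
def S_ARB : Prop := ∀ (n : ℕ), Odd n → 3 ≤ n → ∀ (A B C a b c : ℤ) (j k : ℕ),
  A ≠ 0 → B ≠ 0 → C ≠ 0 → A = a ^ n → B = 3 ^ j * b ^ n → C = 3 ^ k * c ^ n →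
  ¬ (3 : ℤ) ∣ A → ¬ (3 : ℤ) ∣ b → ¬ (3 : ℤ) ∣ c →
  ∀ (x y z w NS : ℚ) (j₃ : ℤ), x ≠ 0 → y ≠ 0 → z ≠ 0 → w ≠ 0 → NS ≠ 0 →
    (A : ℚ) * B * (w ^ n * (3 : ℚ) ^ j₃) = (C : ℚ) ^ 2 * NS →
    3 * (A : ℚ) * B * z ^ n = -((A : ℚ) ^ 2 + 3 * A * (B + C) + 3 * (B + C) ^ 2) * NS →
    3 * (A : ℚ) * C * y ^ n = -(((A : ℚ) + B) ^ 2 + 3 * C * (A + B) + 3 * (C : ℚ) ^ 2) * NS →
    9 * (B : ℚ) * C * x ^ n = -(((A : ℚ) + 3 * C) ^ 2 + 3 * B * (A + 3 * C) + 3 * (B : ℚ) ^ 2) * NS →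
  (∃ q : ℤ, A ^ 2 + 3 * A * (B + C) + 3 * (B + C) ^ 2 = q ^ n) ∧
  (∃ q : ℤ, (A + 3 * C) ^ 2 + 3 * B * (A + 3 * C) + 3 * B ^ 2 = q ^ n) ∧
  (n : ℤ) ∣ k + 1 ∧
  (¬ (3 : ℤ) ∣ B → (A + B) ^ 2 + 3 * C * (A + B) + 3 * C ^ 2 ≠ C ^ 2)

/-- FINQ (120 lines). Proof. Induction on `|a|`. If some prime `l` divides `a` and `q` (`l ≠ 3`): if `l ^ 2 ∤ q`
the valuation of `4 q ^ n` at `l` is `n` or `n + 2`, odd and less than `2 n ≤` the valuation of `a ^ (2 n)` (`n ≥ 3`), so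
that of `3 D ^ 2` is odd, impossible; so `l ^ 2 ∣ q`, `l ^ (2 n) ∣ 3 D ^ 2`, `l ^ n ∣ D`: divide (`a = l a'`, `q = l ^ 2 q'`,
`D = l ^ n D'`). If `a, q` are coprime: `q > 0`; if `q > 1` take `c, d, b = a, q, D` (`D ≠ 0` since otherwise `q ∣ a ^ (2 n)`); if
`q = 1`: `a ^ (2 n) + 3 D ^ 2 = 4`, so `a ^ 2 = 1`, `D ^ 2 = 1`. -/
def S_FINQ : Prop := ∀ (n : ℕ), Odd n → 3 ≤ n → ∀ (a q D : ℤ), a ≠ 0 → ¬ (3 : ℤ) ∣ a →
  a ^ (2 * n) + 3 * D ^ 2 = 4 * q ^ n →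
  (∃ c d b : ℤ, IsCoprime c d ∧ 1 < d ∧ c ≠ 0 ∧ b ≠ 0 ∧ ¬ (3 : ℤ) ∣ c ∧
    c ^ (2 * n) + 3 * b ^ 2 = 4 * d ^ n) ∨ D ^ 2 = a ^ (2 * n)

end Pool.Agent.H47N
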