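import Pool.Agent.H47T.NFAC
import Pool.Agent.H47N.Stm3

/-!
# Project NS, part 3, piece GENN (helper31 for helper47)
-/

set_option autoImplicit false

namespace Pool.Agent.H47N

open NumberField IsDedekindDomain

namespace GENNx

variable {K : Type} [Field K] [NumberField K]

theorem exists_exp (v : HeightOneSpectrum (𝓞 K)) {η : K} (hη : η ≠ 0) :
    ∃ k : ℤ, v.valuation K η = WithZero.exp (-k) := by
  have h : v.valuation K η ≠ 0 := (Valuation.ne_zero_iff _).2 hη
  refine ⟨-WithZero.log (v.valuation K η), ?_⟩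
  rw [neg_neg, WithZero.exp_log h]

theorem norm3 (v : HeightOneSpectrum (𝓞 K)) (hv : (3 : 𝓞 K) ∈ v.asIdeal) :
    ∃ f : ℕ, Ideal.absNorm v.asIdeal = 3 ^ f := by
  have h1 : Ideal.absNorm v.asIdeal ∣ Ideal.absNorm (Ideal.span {(3 : 𝓞 K)}) := by
    apply Ideal.absNorm_dvd_absNorm_of_le
    rw [Ideal.span_singleton_le_iff_mem]
    exact hv
  rw [Ideal.absNorm_span_singleton] at h1
  have h2 : Algebra.norm ℤ (algebraMap ℤ (𝓞 K) 3) =
      3 ^ Fintype.card (Module.Free.ChooseBasisIndex ℤ (𝓞 K)) :=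
    Algebra.norm_algebraMap_of_basis (RingOfIntegers.basis K) 3
  have h3 : algebraMap ℤ (𝓞 K) 3 = (3 : 𝓞 K) := map_ofNat _ 3
  rw [h3] at h2
  rw [h2, Int.natAbs_pow] at h1
  obtain ⟨f, -, hf⟩ := (Nat.dvd_prime_pow Nat.prime_three).1 h1
  exact ⟨f, hf⟩

theorem prod_zpow' {ι : Type*} (s : Finset ι) (j : ι → ℤ) :
    ∏ v ∈ s, (3 : ℚ) ^ j v = (3 : ℚ) ^ (∑ v ∈ s, j v) := by
  classical
  induction s using Finset.induction_on with
  | empty => simp
  | insert a s ha ih =>
    rw [Finset.prod_insert ha, Finset.sum_insert ha, ih, zpow_add₀ (by norm_num)]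

end GENNx

theorem t_GENN : S_GENN := by
  classical
  intro K _ _ m hm η hη h
  have hfin : {v : HeightOneSpectrum (𝓞 K) | v.valuation K η ≠ 1}.Finite := by
    have h1 : {v : HeightOneSpectrum (𝓞 K) | 1 < v.valuation K η}.Finite :=
      HeightOneSpectrum.Support.finite (𝓞 K) η
    have h2 : {v : HeightOneSpectrum (𝓞 K) | 1 < v.valuation K η⁻¹}.Finite :=
      HeightOneSpectrum.Support.finite (𝓞 K) η⁻¹
    refine (h1.union h2).subset fun v hv => ?_
    rcases lt_or_gt_of_ne hv with h3 | h3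
    · right
      have h4 : v.valuation K η ≠ 0 := (Valuation.ne_zero_iff _).2 hη
      change 1 < v.valuation K η⁻¹
      rw [map_inv₀]
      exact (one_lt_inv₀ (zero_lt_iff.2 h4)).2 h3
    · left
      exact h3
  choose k hk using fun v : HeightOneSpectrum (𝓞 K) => GENNx.exists_exp v hη
  have key := Pool.Agent.H47T.mainNFAC K η hη hfin.toFinset k (fun v _ => hk v) (fun v hv => by
    by_contra h5
    exact hv (hfin.mem_toFinset.2 h5))
  have hfac : ∀ v : HeightOneSpectrum (𝓞 K), ∃ (u : ℚ) (j : ℤ),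
      (Ideal.absNorm v.asIdeal : ℚ) ^ k v = u ^ m * (3 : ℚ) ^ j := by
    intro v
    by_cases hv : (3 : 𝓞 K) ∈ v.asIdeal
    · obtain ⟨f, hf⟩ := GENNx.norm3 v hv
      refine ⟨1, f * k v, ?_⟩
      rw [hf, one_pow, one_mul, zpow_mul]
      push_cast
      rfl
    · obtain ⟨i, hi⟩ := h v hv
      refine ⟨(Ideal.absNorm v.asIdeal : ℚ) ^ (-i), 0, ?_⟩
      have h6 : k v = -((m : ℤ) * i) := by
        rw [hk v] at hi
        have h7 := WithZero.exp_injective hi
        linarith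
      rw [h6, zpow_zero, mul_one, ← zpow_natCast, ← zpow_mul]
      congr 1
      ring
  choose u j huj using hfac
  have habs : |Algebra.norm ℚ η| = (∏ v ∈ hfin.toFinset, u v) ^ m *
      (3 : ℚ) ^ (∑ v ∈ hfin.toFinset, j v) := by
    rw [key, Finset.prod_congr rfl (fun v _ => huj v), Finset.prod_mul_distrib, Finset.prod_pow,
      GENNx.prod_zpow']
  rcases abs_choice (Algebra.norm ℚ η) with hs | hs
  · exact ⟨_, _, by rw [← hs]; exact habs⟩
  · refine ⟨-(∏ v ∈ hfin.toFinset, u v), ∑ v ∈ hfin.toFinset, j v, ?_⟩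
    rw [hm.neg_pow, neg_mul, ← habs, hs, neg_neg]

end Pool.Agent.H47N
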