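import Pool.Agent.H47N.Stm3
import Pool.Agent.H47N.Nrm

/-!
# Project NS, part 3: the piece LIN (norm of `α t + β` in a cubic field)
-/

set_option autoImplicit false

namespace Pool.Agent.H47N

open Polynomial

theorem t_LIN : S_LIN := by
  intro K _ _ h3 t ht g1 g2 g3 hG α β
  by_cases hα : α = 0
  · subst hα
    have h1 : ((0 : ℚ) : K) * t + (β : K) = algebraMap ℚ K β := by
      rw [Rat.cast_zero, zero_mul, zero_add, eq_ratCast (algebraMap ℚ K)]
    rw [h1, Algebra.norm_algebraMap, h3]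
    ring
  · have hs : ((α : K) * t + β) ∉ (algebraMap ℚ K).range := by
      rintro ⟨q, hq⟩
      refine ht ⟨(q - β) / α, ?_⟩
      rw [eq_ratCast (algebraMap ℚ K)] at hq
      have hα' : (α : K) ≠ 0 := by exact_mod_cast hα
      push_cast
      rw [div_eq_iff hα', hq]
      ring
    have hp : (Module.finrank ℚ K).Prime := by rw [h3]; exact Nat.prime_three
    set P : ℚ[X] := X ^ 3 + C (-3 * β + g1 * α) * X ^ 2 + C (3 * β ^ 2 - 2 * g1 * α * β + g2 * α ^ 2) * X +
      C (-β ^ 3 + g1 * α * β ^ 2 - g2 * α ^ 2 * β + g3 * α ^ 3) with hP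
    have hd : P.natDegree = 3 := by rw [hP]; compute_degree!
    have hm : P.Monic := by rw [hP]; monicity!
    have h0 : Polynomial.aeval ((α : K) * t + β) P = 0 := by
      rw [hP]
      simp only [map_add, map_mul, map_pow, aeval_X, aeval_C, eq_ratCast (algebraMap ℚ K)]
      push_cast
      linear_combination (α : K) ^ 3 * hG
    have h1 := norm_of_root K hp ((α : K) * t + β) hs P hm (by rw [hd, h3]) h0
    rw [h1, h3]
    have h2 : P.coeff 0 = -β ^ 3 + g1 * α * β ^ 2 - g2 * α ^ 2 * β + g3 * α ^ 3 := by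
      have h3 : ∀ p2 p1 p0 : ℚ, (X ^ 3 + C p2 * X ^ 2 + C p1 * X + C p0 : ℚ[X]).coeff 0 = p0 := by
        intro p2 p1 p0
        simp
      rw [hP, h3]
    rw [h2]
    ring

end Pool.Agent.H47N
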