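import Pool.Agent.H47N.Stm

/-!
# Piece LOC of project NS
-/

set_option autoImplicit false

namespace Pool.Agent.H47N

open NumberField

namespace LOC

variable {R : Type} [CommRing R] [IsDomain R]

/-- an integer prime to `3` divisible by `q` -/
theorem exists_int (hp : Prime (3 : R)) (q : R) (hq : ¬ (3 : R) ∣ q) :
    ∀ n : ℕ, n ≠ 0 → q ∣ (n : R) → ∃ s : ℤ, ¬ (3 : ℤ) ∣ s ∧ q ∣ (s : R) := by
  intro n
  induction n using Nat.strong_induction_on with
  | _ n ih =>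
    intro hn hqn
    by_cases h3 : 3 ∣ n
    · obtain ⟨m, rfl⟩ := h3
      obtain ⟨r, hr⟩ := hqn
      have h1 : (3 : R) ∣ q * r := ⟨(m : R), by rw [← hr]; push_cast; ring⟩
      rcases hp.dvd_or_dvd h1 with h | h
      · exact absurd h hq
      · obtain ⟨r', rfl⟩ := h
        refine ih m (by omega) (by omega) ⟨r', ?_⟩
        have h2 : (3 : R) * (m : R) = 3 * (q * r') := by
          have : ((3 * m : ℕ) : R) = 3 * (m : R) := by push_cast; ring
          rw [← this, hr]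
          ring
        exact mul_left_cancel₀ hp.ne_zero h2
    · refine ⟨(n : ℤ), by omega, ?_⟩
      rw [Int.cast_natCast]
      exact hqn

/-- the case `3 ∣ x + y` -/
theorem core (hp : Prime (3 : R)) (hI : ∀ q : R, q ≠ 0 → ∃ n : ℕ, n ≠ 0 ∧ q ∣ (n : R))
    (x y z : R) (h : x ^ 3 + y ^ 3 + z ^ 3 = 0) (hall : ¬ ((3 : R) ∣ x ∧ (3 : R) ∣ y ∧ (3 : R) ∣ z))
    (hs : (3 : R) ∣ x + y + z) (hxy : (3 : R) ∣ x + y) :
    ∃ (s : ℤ) (θ : R), ¬ (3 : ℤ) ∣ s ∧ (s : R) * (x + y) = 3 * θ * z := by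
  obtain ⟨u, hu⟩ := hxy
  have hz3 : (3 : R) ∣ z := by
    have h1 : z = (x + y + z) - (x + y) := by ring
    rw [h1]
    exact dvd_sub hs ⟨u, hu⟩
  have hx3 : ¬ (3 : R) ∣ x := by
    intro h1
    refine hall ⟨h1, ?_, hz3⟩
    have h2 : y = (x + y) - x := by ring
    rw [h2]
    exact dvd_sub ⟨u, hu⟩ h1
  have hy3 : ¬ (3 : R) ∣ y := by
    intro h1
    refine hall ⟨?_, h1, hz3⟩
    have h2 : x = (x + y) - y := by ring
    rw [h2]
    exact dvd_sub ⟨u, hu⟩ h1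
  obtain ⟨w, rfl⟩ := hz3
  have h9 : (9 : R) ≠ 0 := by
    have h1 : (9 : R) = 3 * 3 := by norm_num
    rw [h1]
    exact mul_ne_zero hp.ne_zero hp.ne_zero
  have hkey : 3 * w ^ 3 = u * (x * y - 3 * u ^ 2) := by
    have hy : y = 3 * u - x := by linear_combination hu
    subst hy
    have : (9 : R) * (3 * w ^ 3) = 9 * (u * (x * (3 * u - x) - 3 * u ^ 2)) := by
      linear_combination h
    exact mul_left_cancel₀ h9 this
  have hq3 : ¬ (3 : R) ∣ x * y - 3 * u ^ 2 := by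
    intro h1
    have h2 : (3 : R) ∣ x * y := by
      have h3 : x * y = (x * y - 3 * u ^ 2) + 3 * u ^ 2 := by ring
      rw [h3]
      exact dvd_add h1 ⟨u ^ 2, rfl⟩
    rcases hp.dvd_or_dvd h2 with h3 | h3
    · exact hx3 h3
    · exact hy3 h3
  have hq0 : x * y - 3 * u ^ 2 ≠ 0 := fun h1 => hq3 (by rw [h1]; exact dvd_zero _)
  obtain ⟨n, hn, hqn⟩ := hI _ hq0
  obtain ⟨s, hs3, r, hr⟩ := exists_int hp _ hq3 n hn hqn
  refine ⟨s, r * w ^ 2, hs3, ?_⟩
  rw [hr, hu]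
  linear_combination (-3 * r) * hkey

/-- the statement for integral elements -/
theorem integral (hp : Prime (3 : R)) (hI : ∀ q : R, q ≠ 0 → ∃ n : ℕ, n ≠ 0 ∧ q ∣ (n : R)) :
    ∀ (n : ℕ) (x y z : R), ¬ (3 : R) ^ n ∣ x → x ^ 3 + y ^ 3 + z ^ 3 = 0 →
    ∃ (s : ℤ) (θ : R), ¬ (3 : ℤ) ∣ s ∧ ((s : R) * (x + y) = 3 * θ * z ∨
      (s : R) * (y + z) = 3 * θ * x ∨ (s : R) * (z + x) = 3 * θ * y) := by
  intro n
  induction n with
  | zero =>
    intro x y z hx
    exact absurd (by rw [pow_zero]; exact one_dvd x) hx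
  | succ n ih =>
    intro x y z hx h
    by_cases hall : (3 : R) ∣ x ∧ (3 : R) ∣ y ∧ (3 : R) ∣ z
    · obtain ⟨⟨x', rfl⟩, ⟨y', rfl⟩, ⟨z', rfl⟩⟩ := hall
      have h27 : (27 : R) ≠ 0 := by
        have h1 : (27 : R) = 3 * 3 * 3 := by norm_num
        rw [h1]
        exact mul_ne_zero (mul_ne_zero hp.ne_zero hp.ne_zero) hp.ne_zero
      obtain ⟨s, θ, hs, h1⟩ := ih x' y' z' (fun hd => hx (by
          rw [pow_succ, mul_comm]
          exact mul_dvd_mul_left 3 hd))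
        (mul_left_cancel₀ h27 (by linear_combination h))
      refine ⟨s, θ, hs, ?_⟩
      rcases h1 with h1 | h1 | h1
      · left; linear_combination 3 * h1
      · right; left; linear_combination 3 * h1
      · right; right; linear_combination 3 * h1
    · have hσ : (3 : R) ∣ (x + y + z) ^ 3 :=
        ⟨(x + y) * (y + z) * (z + x), by linear_combination h⟩
      have hs := hp.dvd_of_dvd_pow hσ
      obtain ⟨t, ht⟩ := hs
      have h3 : (3 : R) ∣ (x + y) * (y + z) * (z + x) := by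
        refine ⟨3 * t ^ 3, mul_left_cancel₀ hp.ne_zero ?_⟩
        have h4 : (x + y + z) ^ 3 = 3 * ((x + y) * (y + z) * (z + x)) := by
          linear_combination h
        rw [← h4, ht]
        ring
      rcases hp.dvd_or_dvd h3 with h4 | h4
      · rcases hp.dvd_or_dvd h4 with h5 | h5
        · obtain ⟨s, θ, h6, h7⟩ := core hp hI x y z h hall ⟨t, ht⟩ h5
          exact ⟨s, θ, h6, Or.inl h7⟩
        · obtain ⟨s, θ, h6, h7⟩ := core hp hI y z x (by linear_combination h)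
            (fun h8 => hall ⟨h8.2.2, h8.1, h8.2.1⟩) ⟨t, by linear_combination ht⟩ h5
          exact ⟨s, θ, h6, Or.inr (Or.inl h7)⟩
      · obtain ⟨s, θ, h6, h7⟩ := core hp hI z x y (by linear_combination h)
          (fun h8 => hall ⟨h8.2.1, h8.2.2, h8.1⟩) ⟨t, by linear_combination ht⟩ h4
        exact ⟨s, θ, h6, Or.inr (Or.inr h7)⟩

end LOC

open LOC in
theorem mainLOC : S_LOC := by
  classical
  intro K _ _ hP X Y Z hX hY hZ h
  have h30 : (3 : 𝓞 K) ≠ 0 := by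
    exact_mod_cast (by norm_num : (3 : ℕ) ≠ 0)
  have hp : Prime (3 : 𝓞 K) := (Ideal.span_singleton_prime h30).1 hP
  have hI : ∀ q : 𝓞 K, q ≠ 0 → ∃ n : ℕ, n ≠ 0 ∧ q ∣ (n : 𝓞 K) := by
    intro q hq
    refine ⟨Ideal.absNorm (Ideal.span {q}), ?_, ?_⟩
    · rw [Ne, Ideal.absNorm_eq_zero_iff, Ideal.span_singleton_eq_bot]
      exact hq
    · exact Ideal.mem_span_singleton.1 (Ideal.absNorm_mem _)
  obtain ⟨d, hd, hd2⟩ := exists_integral_multiples ℤ ℚ ({X, Y, Z} : Finset K)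
  have hx := hd2 X (by simp)
  have hy := hd2 Y (by simp)
  have hz := hd2 Z (by simp)
  obtain ⟨x, hx1⟩ : ∃ x : 𝓞 K, (x : K) = (d : K) * X := ⟨⟨d • X, hx⟩, zsmul_eq_mul X d⟩
  obtain ⟨y, hy1⟩ : ∃ x : 𝓞 K, (x : K) = (d : K) * Y := ⟨⟨d • Y, hy⟩, zsmul_eq_mul Y d⟩
  obtain ⟨z, hz1⟩ : ∃ x : 𝓞 K, (x : K) = (d : K) * Z := ⟨⟨d • Z, hz⟩, zsmul_eq_mul Z d⟩
  have hdK : (d : K) ≠ 0 := by exact_mod_cast hd
  have hx0 : x ≠ 0 := by
    intro h0
    rw [h0] at hx1
    have : (d : K) * X = 0 := by rw [← hx1]; exact map_zero _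
    exact mul_ne_zero hdK hX this
  have hxyz : x ^ 3 + y ^ 3 + z ^ 3 = 0 := by
    apply FaithfulSMul.algebraMap_injective (𝓞 K) K
    have hx2 : algebraMap (𝓞 K) K x = (d : K) * X := hx1
    have hy2 : algebraMap (𝓞 K) K y = (d : K) * Y := hy1
    have hz2 : algebraMap (𝓞 K) K z = (d : K) * Z := hz1
    rw [map_add, map_add, map_pow, map_pow, map_pow, map_zero, hx2, hy2, hz2]
    linear_combination (d : K) ^ 3 * h
  obtain ⟨n, a, hna, hxa⟩ := WfDvdMonoid.max_power_factor' hx0 hp.not_isUnit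
  have hxn : ¬ (3 : 𝓞 K) ^ (n + 1) ∣ x := by
    rw [hxa, pow_succ]
    intro h1
    exact hna ((mul_dvd_mul_iff_left (pow_ne_zero n h30)).1 h1)
  obtain ⟨s, θ, hs, h1⟩ := integral hp hI (n + 1) x y z hxn hxyz
  refine ⟨s, θ, hs, ?_⟩
  have key : ∀ (A B C : K) (a b c : 𝓞 K), (a : K) = d * A → (b : K) = d * B → (c : K) = d * C →
      (s : 𝓞 K) * (a + b) = 3 * θ * c → (s : K) * (A + B) = 3 * (θ : K) * C := by
    intro A B C a b c ha hb hc h2
    have h3 := congrArg (algebraMap (𝓞 K) K) h2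
    have ha2 : algebraMap (𝓞 K) K a = (d : K) * A := ha
    have hb2 : algebraMap (𝓞 K) K b = (d : K) * B := hb
    have hc2 : algebraMap (𝓞 K) K c = (d : K) * C := hc
    have h33 : algebraMap (𝓞 K) K 3 = 3 := map_ofNat _ 3
    rw [map_mul, map_add, map_mul, map_mul, map_intCast, ha2, hb2, hc2, h33] at h3
    show (s : K) * (A + B) = 3 * algebraMap (𝓞 K) K θ * C
    exact mul_left_cancel₀ hdK (by linear_combination h3)
  rcases h1 with h1 | h1 | h1
  · exact Or.inl (key _ _ _ _ _ _ hx1 hy1 hz1 h1)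
  · exact Or.inr (Or.inl (key _ _ _ _ _ _ hy1 hz1 hx1 h1))
  · exact Or.inr (Or.inr (key _ _ _ _ _ _ hz1 hx1 hy1 h1))

end Pool.Agent.H47N
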