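import Pool.Agent.H47N.Stm3
import Pool.Agent.H47N.INC

/-!
# Project NS, part 3, piece NF6 (helper31 for helper47)
-/

set_option autoImplicit false

namespace Pool.Agent.H47N

open NumberField IsDedekindDomain

theorem t_NF6 : S_NF6 := by
  intro hLIN K _ _ hK X Y Z hX hY hZ h A B C hA hrel
  have h3abc : 3 * ((X + Y) * (Y + Z) * (X + Z)) = (X + Y + Z) ^ 3 := by
    linear_combination -h
  have ha : X + Y ≠ 0 := sum_ne hZ h
  have hb : Y + Z ≠ 0 := sum_ne hX (by linear_combination h)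
  have hc : X + Z ≠ 0 := sum_ne hY (by linear_combination h)
  have hσ : X + Y + Z ≠ 0 := by
    intro h0
    rw [h0] at h3abc
    have : (3 : K) * ((X + Y) * (Y + Z) * (X + Z)) ≠ 0 :=
      mul_ne_zero three_ne_zero (mul_ne_zero (mul_ne_zero ha hb) hc)
    apply this
    rw [h3abc]
    ring
  obtain ⟨t, ht⟩ : ∃ t, t = (X + Y + Z) / (X + Y) := ⟨_, rfl⟩
  obtain ⟨r, hr⟩ : ∃ r, r = (X + Z) / (X + Y + Z) := ⟨_, rfl⟩
  have ht0 : t ≠ 0 := by rw [ht]; exact div_ne_zero hσ ha
  have hr0 : r ≠ 0 := by rw [hr]; exact div_ne_zero hc hσ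
  have E1 : (A : K) * r + B + C * t = 0 := by
    rw [ht, hr]
    field_simp
    linear_combination hrel
  have E2 : 3 * r * (2 * t - 1 - r * t) = t ^ 2 := by
    rw [ht, hr]
    field_simp
    linear_combination h3abc
  have F1 : t * (X + Y) = X + Y + Z := by rw [ht]; field_simp
  have F2 : r * (X + Y + Z) = X + Z := by rw [hr]; field_simp
  have F3 : 3 * r * (Y + Z) = t * (X + Y + Z) := by
    rw [ht, hr]
    field_simp
    linear_combination h3abc
  by_cases hq : ∃ q : ℚ, (q : K) = t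
  · left
    obtain ⟨q, hq⟩ := hq
    refine ⟨1 - q, 1 - q, 1, fun h0 => one_ne_zero h0.2.2, ?_⟩
    push_cast
    rw [hq]
    linear_combination -F1
  right
  have hq' := hq
  push Not at hq
  have hAK : (A : K) ≠ 0 := by exact_mod_cast hA
  have hC : C ≠ 0 := by
    rintro rfl
    have h6 : r = ((-B / A : ℚ) : K) := by
      push_cast
      field_simp
      push_cast at E1
      linear_combination E1
    have h7 := COLP.indep hK hq (a := 1) (b := -(6 * (-B / A) - 3 * (-B / A) ^ 2)) (c := 3 * (-B / A)) (by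
      rw [h6] at E2
      push_cast at E2 ⊢
      linear_combination -E2)
    exact one_ne_zero h7.1
  have hCK : (C : K) ≠ 0 := by exact_mod_cast hC
  have hG : t ^ 3 + (((6 * B * C + 6 * A * C + A ^ 2) / (3 * C ^ 2) : ℚ) : K) * t ^ 2 +
      (((3 * B ^ 2 + 6 * A * B - 3 * A * C) / (3 * C ^ 2) : ℚ) : K) * t +
      ((-(A * B) / C ^ 2 : ℚ) : K) = 0 := by
    push_cast
    field_simp
    linear_combination (-(A : K) ^ 2) * E2 +
      (3 * (2 * A * t - A) - 3 * t * (A * r - (B + C * t))) * E1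
  have key := hLIN K hK t hq' _ _ _ hG
  have hNq : ∀ q : ℚ, Algebra.norm ℚ (q : K) = q ^ 3 := by
    intro q
    have h1 : Algebra.norm ℚ (algebraMap ℚ K q) = q ^ Module.finrank ℚ K :=
      Algebra.norm_algebraMap q
    rw [hK, eq_ratCast] at h1
    exact h1
  have hNt : Algebra.norm ℚ t = A * B / C ^ 2 := by
    have h1 := key 1 0
    push_cast at h1
    rw [one_mul, add_zero] at h1
    rw [h1]
    ring
  have hB : B ≠ 0 := by
    rintro rfl
    rw [mul_zero, zero_div, Algebra.norm_eq_zero_iff] at hNt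
    exact ht0 hNt
  have hNr : Algebra.norm ℚ r = B ^ 2 / (3 * A * C) := by
    have h1 := key (-C / A) (-B / A)
    have h2 : (((-C / A : ℚ) : K) * t + ((-B / A : ℚ) : K)) = r := by
      push_cast
      field_simp
      linear_combination -E1
    rw [h2] at h1
    rw [h1]
    field_simp
    ring
  have hN3 : Algebra.norm ℚ (3 : K) = 27 := by
    have h1 := hNq 3
    push_cast at h1
    rw [h1]
    norm_num
  have n1 : A * B / C ^ 2 * Algebra.norm ℚ (X + Y) = Algebra.norm ℚ (X + Y + Z) := by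
    rw [← hNt, ← map_mul, F1]
  have n2 : B ^ 2 / (3 * A * C) * Algebra.norm ℚ (X + Y + Z) = Algebra.norm ℚ (X + Z) := by
    rw [← hNr, ← map_mul, F2]
  have n3 : 27 * (B ^ 2 / (3 * A * C)) * Algebra.norm ℚ (Y + Z) =
      A * B / C ^ 2 * Algebra.norm ℚ (X + Y + Z) := by
    rw [← hNr, ← hNt, ← hN3, ← map_mul, ← map_mul, ← map_mul, F3]
  have n4 : A * B / C ^ 2 * Algebra.norm ℚ Z =
      -(A ^ 2 + 3 * A * (B + C) + 3 * (B + C) ^ 2) / (3 * C ^ 2) * Algebra.norm ℚ (X + Y + Z) := by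
    have h1 := key 1 (-1)
    have h2 : (((1 : ℚ) : K) * t + ((-1 : ℚ) : K)) = t - 1 := by push_cast; ring
    have h3 : Algebra.norm ℚ (t - 1) =
        -(A ^ 2 + 3 * A * (B + C) + 3 * (B + C) ^ 2) / (3 * C ^ 2) := by
      rw [h2] at h1
      rw [h1]
      field_simp
      ring
    rw [← hNt, ← h3, ← map_mul, ← map_mul]
    congr 1
    linear_combination -F1
  have n5 : A ^ 3 * Algebra.norm ℚ Y =
      -(A ^ 2 * ((A + B) ^ 2 + 3 * C * (A + B) + 3 * C ^ 2)) / (3 * C) *
        Algebra.norm ℚ (X + Y + Z) := by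
    have h1 := key C (A + B)
    have h3 : Algebra.norm ℚ ((C : K) * t + ((A + B : ℚ) : K)) =
        -(A ^ 2 * ((A + B) ^ 2 + 3 * C * (A + B) + 3 * C ^ 2)) / (3 * C) := by
      rw [h1]
      field_simp
      ring
    rw [← hNq A, ← h3, ← map_mul, ← map_mul]
    congr 1
    push_cast
    linear_combination (-(X + Y + Z)) * E1 + (A : K) * F2
  have n6 : (-A) ^ 3 * (27 * (B ^ 2 / (3 * A * C)) * Algebra.norm ℚ X) =
      A ^ 2 * B / C ^ 2 * ((A + 3 * C) ^ 2 + 3 * B * (A + 3 * C) + 3 * B ^ 2) *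
        Algebra.norm ℚ (X + Y + Z) := by
    have h1 := key (A + 3 * C) (3 * B)
    have h3 : Algebra.norm ℚ (((A + 3 * C : ℚ) : K) * t + ((3 * B : ℚ) : K)) =
        A ^ 2 * B / C ^ 2 * ((A + 3 * C) ^ 2 + 3 * B * (A + 3 * C) + 3 * B ^ 2) := by
      rw [h1]
      field_simp
      ring
    rw [← hNq (-A), ← h3, ← hNr, ← hN3, ← map_mul, ← map_mul, ← map_mul, ← map_mul]
    congr 1
    push_cast
    linear_combination (-3 * (X + Y + Z)) * E1 + (A : K) * F3
  refine ⟨hB, hC, ?_, ?_, ?_, ?_, ?_, ?_⟩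
  · rw [← n1]
    field_simp
  · rw [← n2]
    field_simp
  · field_simp at n3
    linear_combination n3 / 3
  · field_simp at n4
    linear_combination n4
  · field_simp at n5
    linear_combination n5
  · field_simp at n6
    linear_combination (-1 / 3) * n6

end Pool.Agent.H47N
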