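import Mathlib

/-!
# Project NS: norms of solutions of Fermat's equation over cubic and quadratic fields

**Theorem A.** Let `K` be a cubic field in which `3` is inert, `n ≥ 1`, and let `x, y, z ∈ K` be nonzero with
`x ^ (3 n) + y ^ (3 n) = z ^ (3 n)`. Then `N(x) ^ n + N(y) ^ n = N(z) ^ n`, `N` the norm to `ℚ`. So, by Wiles, there is no
solution for `n ≥ 3`.

**Theorem B.** Let `K` be a quadratic field in which `3` is unramified, `n` odd. If `x ^ (3 n) + y ^ (3 n) = z ^ (3 n)` has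
a solution with `x y z ≠ 0` in `K`, then `a ^ n + b ^ n = d ^ n` has one in `ℤ`. So, by Wiles, there is none for
`n ≥ 3`.

Proof of A. `X = x ^ n`, `Y = y ^ n`, `Z = - z ^ n`, `X ^ 3 + Y ^ 3 + Z ^ 3 = 0`. (LOC) As `3` is inert one of `X, Y, Z`,
say `Z`, is divisible by `3` (after scaling), and then `(X + Y) / Z` is `3` times an element which is integral
at `3`. (COL) It follows that `X, Y, Z` are linearly dependent over `ℚ`: there is a conic over `ℚ` through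
the point `(X : Y : Z)` and its two conjugates, tangent at `(1 : -1 : 0)` to the cubic. The sixth
intersection is a rational point, so (Euler) `(1 : -1 : 0)`, `(0 : 1 : -1)` or `(1 : 0 : -1)`. In the first case
the conic is reducible and contains a line through the three conjugate points; the other cases are
impossible modulo `3`. (NSUM) If `X, Y, Z` are linearly dependent then `N(X) + N(Y) + N(Z) = 0`.
-/

set_option autoImplicit false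

namespace Pool.Agent.H47N

open NumberField IsDedekindDomain

/-- NSUM. Proof. By symmetry `c ≠ 0`. Let `ρ = X / Y`, so `Z / Y = - (a ρ + b) / c`. If `ρ ∈ ℚ` then
`(X : Y : Z)` is a rational point with nonzero coordinates of `X ^ 3 + Y ^ 3 + Z ^ 3 = 0`, impossible
(`fermatLastTheoremThree`). So `ρ ∉ ℚ` is a root of
`g (T) = c ^ 3 (T ^ 3 + 1) - (a T + b) ^ 3 = (c ^ 3 - a ^ 3) T ^ 3 - 3 a ^ 2 b T ^ 2 - 3 a b ^ 2 T + (c ^ 3 - b ^ 3)`, which is not the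
zero polynomial, and `[K : ℚ] = 3`, so `c ^ 3 ≠ a ^ 3` and `N (t - ρ) = g (t) / (c ^ 3 - a ^ 3)` for `t ∈ ℚ`. Hence
`N (ρ) = - (c ^ 3 - b ^ 3) / (c ^ 3 - a ^ 3)` and `N (a ρ + b) = - c ^ 3 (a ^ 3 - b ^ 3) / (c ^ 3 - a ^ 3)` (`t = - b / a`; for
`a = 0` it is `b ^ 3`), so `N (X / Y) + 1 + N (Z / Y) = 0`; multiply by `N (Y)`. (The lemma
`norm_of_root` in `Pool/Agent/H47N/Nrm.lean` gives the norm of an element which is not rational from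
a monic polynomial of degree `[K : ℚ]` with this root.) -/
def S_NSUM : Prop := ∀ (K : Type) [Field K] [NumberField K], Module.finrank ℚ K = 3 →
  ∀ X Y Z : K, X ≠ 0 → Y ≠ 0 → Z ≠ 0 → X ^ 3 + Y ^ 3 + Z ^ 3 = 0 →
  ∀ a b c : ℚ, ¬ (a = 0 ∧ b = 0 ∧ c = 0) → (a : K) * X + b * Y + c * Z = 0 →
  Algebra.norm ℚ X + Algebra.norm ℚ Y + Algebra.norm ℚ Z = 0

/-- COL. Proof. Let `m = (X + Y) / Z = 3 θ / s`, `ξ = X / Z`; `X ^ 3 + Y ^ 3 + Z ^ 3 = 0` is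
`m ^ 3 - 3 m ^ 2 ξ + 3 m ξ ^ 2 + 1 = 0` (`*`). If `m ∈ ℚ` then `X + Y - m Z = 0`. Let `m ∉ ℚ`; then `1, m, m ^ 2` are linearly
independent over `ℚ` (`[K : ℚ] = 3`). The four elements `m ξ, m ^ 2, m, 1` are dependent: there are
integers `A, B, C, D`, not all divisible by `3` (divide by `3` as long as possible), with
`A m ξ + B m ^ 2 + C m + D = 0`; `A ≠ 0`. With `Q (T) = B T ^ 2 + C T + D`, `ξ = - Q (m) / (A m)`, (`*`) becomes `Φ (m) = 0`,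
`Φ (T) = A ^ 2 T ^ 4 + A ^ 2 T + 3 A T ^ 2 Q (T) + 3 Q (T) ^ 2
  = L T ^ 4 + 3 C (A + 2 B) T ^ 3 + 3 (A D + C ^ 2 + 2 B D) T ^ 2 + (A ^ 2 + 6 C D) T + 3 D ^ 2`, `L = A ^ 2 + 3 A B + 3 B ^ 2 ≠ 0`.
The minimal polynomial of `θ` over `ℤ` has degree `3`: `θ ^ 3 + f1 θ ^ 2 + f2 θ + f3 = 0`, so `G (m) = 0`,
`G (T) = s ^ 3 T ^ 3 + 3 f1 s ^ 2 T ^ 2 + 9 f2 s T + 27 f3`. Subtract `L T G (T)` and `r G (T)`,
`r = s ^ 3 3 C (A + 2 B) - 3 f1 s ^ 2 L`, from `s ^ 3 Φ (T)` resp. `s ^ 3 (s ^ 3 Φ (T) - L T G (T))`: what remains has degree `≤ 2` and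
vanishes at `m`, so it is zero, and `s ^ 6 Φ (T) = G (T) (s ^ 3 L T + r)`, i.e.
`s ^ 3 (s ^ 3 3 (A D + C ^ 2 + 2 B D) - 9 f2 s L) = 3 r f1 s ^ 2`, `s ^ 3 (s ^ 3 (A ^ 2 + 6 C D) - 27 f3 L) = 9 r f2 s`,
`s ^ 6 3 D ^ 2 = 27 r f3`. The rational number `ρ = - r / (s ^ 3 L)` is a root of `Φ`. If `ρ ≠ 0` then
`ξ' = - Q (ρ) / (A ρ)` satisfies (`*`) with `ρ`: `ξ' ^ 3 + (ρ - ξ') ^ 3 + 1 = 0`, so by `fermatLastTheoremThree` `ξ' = 0` or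
`ξ' = ρ`, so `ρ ^ 3 = -1`, `ρ = -1`. (1) `ρ = -1`: `r = s ^ 3 L`. Then `s ^ 3 3 C (A + 2 B) = L (s ^ 3 + 3 f1 s ^ 2)`,
so `3 ∣ L`, `3 ∣ A`, `L = 3 L1`, `L1 ≡ B ^ 2`; `s ^ 3 3 D ^ 2 = 27 f3 L`, so `3 ∣ D`;
`s ^ 3 3 (A D + C ^ 2 + 2 B D) = L (3 f1 s ^ 2 + 9 f2 s)`, so `3 ∣ C ^ 2`, `3 ∣ C`; by the first equation
`s ^ 3 C (A + 2 B) = L1 (s ^ 3 + 3 f1 s ^ 2)`, so `3 ∣ L1` and `3 ∣ B`, a contradiction.
(2) `ρ = 0`: `r = 0`, so `D = 0` and `A ξ + B m + C = 0`, i.e. `A X + B (X + Y) + C Z = 0`. -/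
def S_COL : Prop := ∀ (K : Type) [Field K] [NumberField K], Module.finrank ℚ K = 3 →
  ∀ X Y Z : K, X ≠ 0 → Y ≠ 0 → Z ≠ 0 → X ^ 3 + Y ^ 3 + Z ^ 3 = 0 →
  ∀ (s : ℤ) (θ : 𝓞 K), ¬ (3 : ℤ) ∣ s → (s : K) * (X + Y) = 3 * (θ : K) * Z →
  ∃ a b c : ℚ, ¬ (a = 0 ∧ b = 0 ∧ c = 0) ∧ (a : K) * X + b * Y + c * Z = 0

/-- LOC. Proof. Let `w` be the prime `3 𝓞 K`, `v = w.valuation`, `v 3 = exp (-1)`. Scale so that the
largest of `v X, v Y, v Z` is `1`. If all three are `1`: `σ = X + Y + Z`,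
`σ ^ 3 = 3 (X + Y) (Y + Z) (Z + X)`, so `v σ < 1`, `v (X + Y) = v (σ - Z) = 1` etc. and `v σ ^ 3 = exp (-1)`, impossible.
So (two of them are `1` and) one is less than `1`, say `v Z < 1 = v X = v Y`.
`(X + Y) ((X + Y) ^ 2 - 3 X Y) = - Z ^ 3`: `v (X + Y) < 1` (otherwise the left side has value `1`), so
`v ((X + Y) ^ 2 - 3 X Y) = exp (-1)`, and `v (X + Y) = v Z ^ 3 exp 1`, `v ((X + Y) / Z) = v Z ^ 2 exp 1 ≤ exp (-1) = v 3`. So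
`η = (X + Y) / (3 Z)` has `v η ≤ 1`. Let `s > 0` be the least integer with `s η ∈ 𝓞 K`. If `3 ∣ s`, `s = 3 s'`, then
`s η = 3 s' η` has value at most `v 3`, so it is in `w = (3)`, and `s' η ∈ 𝓞 K`, a contradiction. -/
def S_LOC : Prop := ∀ (K : Type) [Field K] [NumberField K],
  (Ideal.span {(3 : 𝓞 K)}).IsPrime →
  ∀ X Y Z : K, X ≠ 0 → Y ≠ 0 → Z ≠ 0 → X ^ 3 + Y ^ 3 + Z ^ 3 = 0 →
  ∃ (s : ℤ) (θ : 𝓞 K), ¬ (3 : ℤ) ∣ s ∧ ((s : K) * (X + Y) = 3 * (θ : K) * Z ∨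
    (s : K) * (Y + Z) = 3 * (θ : K) * X ∨ (s : K) * (Z + X) = 3 * (θ : K) * Y)

end Pool.Agent.H47N
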