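import Mathlib

/-!
# Project NS, part 2: cubic fields with only one prime above `3` (inert or totally ramified)

**Theorem A'.** Let `K` be a cubic field with exactly one prime above `3`, `n ≥ 1`, and let `x, y, z ∈ K` be
nonzero with `x ^ (3 n) + y ^ (3 n) = z ^ (3 n)`. Then `N(x) ^ n + N(y) ^ n = N(z) ^ n`.

Proof. `X = x ^ n`, `Y = y ^ n`, `Z = - z ^ n`. The sum of the point `(X : Y : Z)` and its two conjugates on the cubic
`X ^ 3 + Y ^ 3 + Z ^ 3 = 0` is one of the three rational points. If it is zero the three points are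
collinear (and part 1 applies); otherwise (COL2) there is a relation
`A (X + Y) (X + Z) + B (X + Y) σ + C σ ^ 2 = 0`, `σ = X + Y + Z`, `A, B, C ∈ ℚ`, `A ≠ 0` (or the same with `X, Y` interchanged).
(KIL) Comparing valuations at the unique prime above `3` this is impossible, because (VN) the
valuation of an element is determined by its norm.
-/

set_option autoImplicit false

namespace Pool.Agent.H47N

open NumberField IsDedekindDomain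

/-- COL2. Proof: as `S_COL` (file `COL.lean` of helper11), but over `ℚ` and without any integrality.
`m = (X + Y) / Z`, `ξ = X / Z`; `m ^ 3 - 3 m ^ 2 ξ + 3 m ξ ^ 2 + 1 = 0` (`*`). If `m ∈ ℚ` then `X + Y - m Z = 0`. Let `m ∉ ℚ`; `1, m, m ^ 2`
are linearly independent over `ℚ`, the four elements `m ξ, m ^ 2, m, 1` are not:
`A m ξ + B m ^ 2 + C m + D = 0` with rational coefficients, `A ≠ 0`, and we may take `A, B, C, D` rational.
`Φ (T) = A ^ 2 T ^ 4 + A ^ 2 T + 3 A T ^ 2 Q (T) + 3 Q (T) ^ 2`, `Q (T) = B T ^ 2 + C T + D`, vanishes at `m`; leading coefficient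
`L = A ^ 2 + 3 A B + 3 B ^ 2 ≠ 0`. The minimal polynomial of `m` is `G (T) = T ^ 3 + g1 T ^ 2 + g2 T + g3` and
`Φ (T) = G (T) (L T + r)`, `r = 3 C (A + 2 B) - g1 L`. `ρ = - r / L` is a rational root of `Φ`. If `ρ = 0`: `Φ (0) = 3 D ^ 2`, `D = 0`,
`A ξ + B m + C = 0`, a linear relation. If `ρ ≠ 0`: `ξ' = - Q (ρ) / (A ρ)` satisfies (`*`) with `ρ`:
`ξ' ^ 3 + (ρ - ξ') ^ 3 + 1 = 0`, so `ρ = -1` and `ξ' = 0` or `ξ' = -1` (lemma `euler` of `COL.lean`).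
`ξ' = Q (-1) / A`. If `ξ' = -1` then `A + B - C + D = 0` and (multiply `A m ξ + B m ^ 2 + C m + D = 0` by `Z ^ 2`)
`A (X + Y) (X + Z) + (B - D) (X + Y) σ + D σ ^ 2 = A (X + Y) X + B (X + Y) ^ 2 + C (X + Y) Z + D Z ^ 2 = 0`. If `ξ' = 0` then
`B - C + D = 0`, and with `A' = -A`, `B' = A + B`: `A' (X + Y) Y + B' (X + Y) ^ 2 + C (X + Y) Z + D Z ^ 2 = 0`, `A' + B' - C + D = 0`, so
`A' (X + Y) (Y + Z) + (B' - D) (X + Y) σ + D σ ^ 2 = 0`. -/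
def S_COL2 : Prop := ∀ (K : Type) [Field K] [NumberField K], Module.finrank ℚ K = 3 →
  ∀ X Y Z : K, X ≠ 0 → Y ≠ 0 → Z ≠ 0 → X ^ 3 + Y ^ 3 + Z ^ 3 = 0 →
  (∃ a b c : ℚ, ¬ (a = 0 ∧ b = 0 ∧ c = 0) ∧ (a : K) * X + b * Y + c * Z = 0) ∨
  (∃ A B C : ℚ, A ≠ 0 ∧
    (A : K) * ((X + Y) * (X + Z)) + B * ((X + Y) * (X + Y + Z)) + C * (X + Y + Z) ^ 2 = 0) ∨
  (∃ A B C : ℚ, A ≠ 0 ∧
    (A : K) * ((X + Y) * (Y + Z)) + B * ((X + Y) * (X + Y + Z)) + C * (X + Y + Z) ^ 2 = 0)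

/-- VN: if `w` is the only prime of `K` above `3` then `v (N η) = v (η) ^ [K : ℚ]`, `v = w.valuation`. Proof.
(1) If `v η ≤ 1` then `v (N η) ≤ 1`: let `s > 0` be the least integer with `s η ∈ 𝓞 K`. If `3 ∣ s`, `s = 3 s'`, then
`s' η = s η / 3` is integral at all primes: at `w` because `v (s' η) ≤ v η ≤ 1`, at the others because `3` is a unit
there. So `s' η ∈ 𝓞 K` (`HeightOneSpectrum.mem_integers_of_valuation_le_one`), a contradiction. So `3 ∤ s`,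
`v s = 1`, and `N (s η) = s ^ [K : ℚ] N η ∈ ℤ`, so `v (N η) ≤ 1`. (2) If `v η = 1` then `v (N η) = 1` (apply (1) to `η` and `η⁻¹`).
(3) In general let `v 3 = exp (-e)`, `e > 0`, `v η = exp (-k)` (`η ≠ 0`): `v (η ^ e / 3 ^ k) = 1` (`k ∈ ℤ`), so by (2)
`v (N η) ^ e = v (3) ^ (k [K : ℚ]) = exp (- k [K : ℚ]) ^ e`, and `v (N η) = exp (- k [K : ℚ])`. -/
def S_VN : Prop := ∀ (K : Type) [Field K] [NumberField K] (w : HeightOneSpectrum (𝓞 K)),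
  (3 : 𝓞 K) ∈ w.asIdeal → (∀ w' : HeightOneSpectrum (𝓞 K), (3 : 𝓞 K) ∈ w'.asIdeal → w' = w) →
  ∀ η : K, w.valuation K (algebraMap ℚ K (Algebra.norm ℚ η)) =
    (w.valuation K η) ^ Module.finrank ℚ K

/-- KIL. Proof. `a = X + Y`, `b = Y + Z`, `c = Z + X`, `σ = X + Y + Z`, `a + b + c = 2 σ`, `3 a b c = σ ^ 3`, all nonzero. `t = σ / a`,
`r = c / σ`: the relation is `A r + B + C t = 0`, and `3 a c (2 σ - a - c) = σ ^ 3` is `3 r (2 t - 1 - r t) = t ^ 2`. If `t ∈ ℚ` then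
`X + Y + Z = t (X + Y)` is a linear relation. So let `t ∉ ℚ`, then `C ≠ 0`, `r ∉ ℚ`, and
`t ^ 3 + ((A ^ 2 + 3 C (B + 2 A) + 3 B C) / (3 C ^ 2)) t ^ 2 + ((3 B (B + 2 A) - 3 A C) / (3 C ^ 2)) t - A B / C ^ 2 = 0`,
`r ^ 3 + ((3 C (B - 2 A) + ..) / (3 A C)) r ^ 2 + (..) r - B ^ 2 / (3 A C) = 0`, so by `norm_of_root` `N t = A B / C ^ 2` and
`N r = B ^ 2 / (3 A C)`. Valuations: `v 3 = exp (-e)`; `v (q) ` for `q = 3 ^ j * (3-adic unit)` is `exp (- e j)`. So if `i, j` are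
minus the exponents of `v t`, `v r` then `3 i = e (A' + B')`, `3 j = e (2 B' - A' - 1)`, `A' = v_3 (A / C)`, `B' = v_3 (B / C)`. The terms of
`6 r t - 3 r - 3 r ^ 2 t - t ^ 2 = 0` have the valuations `e g4 / 3, e g1 / 3, e g2 / 3, e g3 / 3`, `g4 = 2 + 3 B'`, `g1 = 2 + 2 B' - A'`,
`g2 = 1 + 5 B' - A'`, `g3 = 2 A' + 2 B'`. `g1, g2, g3` are distinct modulo `3`, so the minimum is attained by `g4` and one of
the others; each of the three cases is impossible. -/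
def S_KIL : Prop := ∀ (K : Type) [Field K] [NumberField K], Module.finrank ℚ K = 3 →
  ∀ w : HeightOneSpectrum (𝓞 K), (3 : 𝓞 K) ∈ w.asIdeal →
  (∀ η : K, w.valuation K (algebraMap ℚ K (Algebra.norm ℚ η)) = (w.valuation K η) ^ 3) →
  ∀ X Y Z : K, X ≠ 0 → Y ≠ 0 → Z ≠ 0 → X ^ 3 + Y ^ 3 + Z ^ 3 = 0 →
  ∀ A B C : ℚ, A ≠ 0 →
    (A : K) * ((X + Y) * (X + Z)) + B * ((X + Y) * (X + Y + Z)) + C * (X + Y + Z) ^ 2 = 0 →
  ∃ a b c : ℚ, ¬ (a = 0 ∧ b = 0 ∧ c = 0) ∧ (a : K) * X + b * Y + c * Z = 0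

end Pool.Agent.H47N
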