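import Pool.Agent.H47N.Stm3

/-!
# Project NS3, piece VALR (helper41)
-/

set_option autoImplicit false

namespace Pool.Agent.H47N

open NumberField IsDedekindDomain WithZero

namespace VALRx

theorem pw {K : Type} [Field K] (v : Valuation K ℤᵐ⁰) {X : K} {a : ℤ} (ha : v X = exp a) (k : ℕ) :
    v (X ^ k) = exp ((k : ℤ) * a) := by
  rw [map_pow, ha, ← exp_nsmul, nsmul_eq_mul]

theorem core {K : Type} [Field K] (v : Valuation K ℤᵐ⁰) (h3 : v 3 = 1) {X Y Z : K}
    (h : X ^ 3 + Y ^ 3 + Z ^ 3 = 0) {a b c : ℤ} (ha : v X = exp a) (hb : v Y = exp b)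
    (hc : v Z = exp c) :
    ∃ m e : ℤ, a ≤ m ∧ b ≤ m ∧ c ≤ m ∧ (m = a ∨ m = b ∨ m = c) ∧ v (X + Y) = exp e ∧
      (e = m ∨ e = m + 3 * (c - m)) := by
  have hX := pw v ha 3
  have hY := pw v hb 3
  have hZ := pw v hc 3
  have hZ2 : v (X ^ 3 + Y ^ 3) = exp ((3 : ℕ) * c) := by
    rw [← hZ, ← Valuation.map_neg v (Z ^ 3)]
    congr 1
    linear_combination h
  rcases lt_trichotomy a b with hab | hab | hab
  · have h1 : v (X + Y) = v Y := Valuation.map_add_eq_of_lt_right v (by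
      rw [ha, hb]; exact exp_lt_exp.2 hab)
    have h2 : v (X ^ 3 + Y ^ 3) = v (Y ^ 3) := Valuation.map_add_eq_of_lt_right v (by
      rw [hX, hY]; exact exp_lt_exp.2 (by push_cast; linarith))
    rw [hZ2, hY, exp_inj] at h2
    push_cast at h2
    exact ⟨b, b, by omega, by omega, by omega, by omega, by rw [h1, hb], Or.inl rfl⟩
  · subst hab
    have h2 : v (X ^ 3 + Y ^ 3) ≤ exp ((3 : ℕ) * a) := by
      refine (Valuation.map_add v _ _).trans ?_
      rw [hX, hY, max_self]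
    rw [hZ2, exp_le_exp] at h2
    push_cast at h2
    have h4 : v (X + Y) ≤ exp a := by
      refine (Valuation.map_add v _ _).trans ?_
      rw [ha, hb, max_self]
    rcases lt_or_eq_of_le h4 with h5 | h5
    · have h6 : v (3 * X * Y) = exp (2 * a) := by
        rw [map_mul, map_mul, h3, ha, hb, one_mul, ← exp_add]
        congr 1
        ring
      have hXY : X + Y ≠ 0 := by
        intro h0
        have h7 : Z ^ 3 = 0 := by
          have h8 : X ^ 3 + Y ^ 3 = (X + Y) * (X ^ 2 - X * Y + Y ^ 2) := by ring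
          rw [h8, h0, zero_mul, zero_add] at h
          exact h
        rw [h7, map_zero] at hZ
        exact exp_ne_zero hZ.symm
      have h7 : v ((X + Y) ^ 2) < exp (2 * a) := by
        have h8 : v (X + Y) ≠ 0 := (Valuation.ne_zero_iff v).2 hXY
        have h9 : v (X + Y) = exp (log (v (X + Y))) := (exp_log h8).symm
        rw [h9, exp_lt_exp] at h5
        rw [pw v h9 2, exp_lt_exp]
        push_cast
        linarith
      have h8 : v ((X + Y) ^ 2 - 3 * X * Y) = exp (2 * a) := by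
        rw [← h6]
        refine Valuation.map_sub_eq_of_lt_right v ?_
        rw [h6]
        exact h7
      have h9 : v (X + Y) * exp (2 * a) = exp ((3 : ℕ) * c) := by
        rw [← h8, ← map_mul, ← hZ2]
        congr 1
        ring
      refine ⟨a, 3 * c - 2 * a, le_refl _, le_refl _, by omega, Or.inl rfl, ?_, Or.inr (by ring)⟩
      have h10 : exp (3 * c - 2 * a) * exp (2 * a) = exp ((3 : ℕ) * c) := by
        rw [← exp_add]
        congr 1
        push_cast
        ring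
      exact mul_right_cancel₀ exp_ne_zero (h9.trans h10.symm)
    · exact ⟨a, a, le_refl _, le_refl _, by omega, Or.inl rfl, h5, Or.inl rfl⟩
  · have h1 : v (X + Y) = v X := Valuation.map_add_eq_of_lt_left v (by
      rw [ha, hb]; exact exp_lt_exp.2 hab)
    have h2 : v (X ^ 3 + Y ^ 3) = v (X ^ 3) := Valuation.map_add_eq_of_lt_left v (by
      rw [hX, hY]; exact exp_lt_exp.2 (by push_cast; linarith))
    rw [hZ2, hX, exp_inj] at h2
    push_cast at h2
    exact ⟨a, a, by omega, by omega, by omega, by omega, by rw [h1, ha], Or.inl rfl⟩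

theorem core2 {K : Type} [Field K] (v : Valuation K ℤᵐ⁰) (h3 : v 3 = 1) {n : ℕ} (hn : 0 < n)
    {X Y Z : K} (h : X ^ 3 + Y ^ 3 + Z ^ 3 = 0) {a b c : ℤ} (ha : v X = exp ((n : ℤ) * a))
    (hb : v Y = exp ((n : ℤ) * b)) (hc : v Z = exp ((n : ℤ) * c)) :
    ∃ m i : ℤ, a ≤ m ∧ b ≤ m ∧ c ≤ m ∧ (m = a ∨ m = b ∨ m = c) ∧
      v (X + Y) = exp ((n : ℤ) * (m + 3 * i)) := by
  obtain ⟨M, e, h1, h2, h4, h5, h6, h7⟩ := core v h3 h ha hb hc
  have hn' : (0 : ℤ) < n := by exact_mod_cast hn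
  obtain ⟨m, hm, hm'⟩ : ∃ m : ℤ, M = n * m ∧ (m = a ∨ m = b ∨ m = c) := by
    rcases h5 with h5 | h5 | h5
    · exact ⟨a, h5, Or.inl rfl⟩
    · exact ⟨b, h5, Or.inr (Or.inl rfl)⟩
    · exact ⟨c, h5, Or.inr (Or.inr rfl)⟩
  subst hm
  have g1 := le_of_mul_le_mul_left h1 hn'
  have g2 := le_of_mul_le_mul_left h2 hn'
  have g3 := le_of_mul_le_mul_left h4 hn'
  rcases h7 with h7 | h7
  · exact ⟨m, 0, g1, g2, g3, hm', by rw [h6, h7]; congr 1; ring⟩
  · exact ⟨m, c - m, g1, g2, g3, hm', by rw [h6, h7]; congr 1; ring⟩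

theorem ex_exp {K : Type} [Field K] (v : Valuation K ℤᵐ⁰) {x : K} (hx : x ≠ 0) :
    ∃ a : ℤ, v x = exp a :=
  ⟨log (v x), (exp_log ((Valuation.ne_zero_iff v).2 hx)).symm⟩

end VALRx

open VALRx in
theorem t_VALR : S_VALR := by
  intro K _ _ n hn x y z hx hy hz h w hw
  have h3 : w.valuation K (3 : K) = 1 := by
    have e1 : (3 : K) = algebraMap (𝓞 K) K 3 := (map_ofNat (algebraMap (𝓞 K) K) 3).symm
    rw [e1]
    refine le_antisymm (w.valuation_le_one (K := K) 3) ?_
    by_contra hlt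
    exact hw ((w.valuation_lt_one_iff_mem (K := K) 3).1 (not_le.1 hlt))
  obtain ⟨a, ha⟩ := ex_exp (w.valuation K) hx
  obtain ⟨b, hb⟩ := ex_exp (w.valuation K) hy
  obtain ⟨c, hc⟩ := ex_exp (w.valuation K) hz
  have hX := pw (w.valuation K) ha n
  have hY := pw (w.valuation K) hb n
  have hZ := pw (w.valuation K) hc n
  obtain ⟨m1, i1, p1, p2, p3, p4, p5⟩ := core2 (w.valuation K) h3 hn h hX hY hZ
  obtain ⟨m2, i2, q1, q2, q3, q4, q5⟩ := core2 (w.valuation K) h3 hn
    (X := x ^ n) (Y := z ^ n) (Z := y ^ n) (by linear_combination h) hX hZ hY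
  obtain ⟨m3, i3, r1, r2, r3, r4, r5⟩ := core2 (w.valuation K) h3 hn
    (X := y ^ n) (Y := z ^ n) (Z := x ^ n) (by linear_combination h) hY hZ hX
  have e2 : m2 = m1 := by omega
  have e3 : m3 = m1 := by omega
  subst e2 e3
  refine ⟨⟨_, p5⟩, ⟨i2 - i1, ?_⟩, ⟨i3 - i1, ?_⟩⟩
  · rw [map_div₀, p5, q5, ← exp_sub]
    congr 1
    push_cast
    ring
  · rw [map_div₀, p5, r5, ← exp_sub]
    congr 1
    push_cast
    ring

end Pool.Agent.H47N
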